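import Mathlib

/-! Definitions for the problem on finite excluded families for complete classes of matroids
(the definitions of induction and of complete classes are those of `Pool.Agent.Helper616.FG.Defs`,
copied here). -/

namespace Pool.Agent.Helper442.FE

open Set

/-- Two matroids are isomorphic: a bijection between the ground sets preserves independence. -/
def Iso {α β : Type} (M : Matroid α) (N : Matroid β) : Prop :=
  ∃ e : M.E ≃ N.E, ∀ I : Set M.E,
    M.Indep (Subtype.val '' I) ↔ N.Indep (Subtype.val '' (e '' I))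

/-- `T` is the truncation of `M` to rank `k`: the independent sets of `T` are the independent sets
of `M` with at most `k` elements. -/
def IsTruncation {α : Type} (M : Matroid α) (k : ℕ) (T : Matroid α) : Prop :=
  T.E = M.E ∧ ∀ I, T.Indep I ↔ M.Indep I ∧ I.encard ≤ k

/-- A directed path of the directed graph with arc relation `G`, as its list of vertices: nonempty,
without repetition, consecutive vertices joined by arcs. Paths of length zero are allowed. -/
def IsPath {τ : Type} (G : τ → τ → Prop) (p : List τ) : Prop :=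
  p ≠ [] ∧ p.Nodup ∧ p.IsChain G

/-- `X` is linked to `Y`: there is a set of pairwise vertex-disjoint directed paths whose start
points form `X` and whose end points form `Y`. -/
def Linked {τ : Type} (G : τ → τ → Prop) (X Y : Set τ) : Prop :=
  ∃ P : Set (List τ), (∀ p ∈ P, IsPath G p) ∧ (∀ p ∈ P, ∀ q ∈ P, p ≠ q → List.Disjoint p q) ∧
    {x | ∃ p ∈ P, p.head? = some x} = X ∧ {y | ∃ p ∈ P, p.getLast? = some y} = Y

/-- `N` is the matroid induced on `A` from `M₀` through the directed graph with vertex set `τ` and
arc relation `G`. -/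
def IsInduced {τ : Type} (G : τ → τ → Prop) (M₀ : Matroid τ) (A : Set τ) (N : Matroid τ) : Prop :=
  N.E = A ∧ ∀ X, N.Indep X ↔ X ⊆ A ∧ ∃ Y, M₀.Indep Y ∧ Linked G X Y

/-- Classes of matroids. -/
abbrev MClass : Type 1 := (α : Type) → Matroid α → Prop

open scoped Matroid in
/-- Complete classes of (finite) matroids: closed under isomorphism, restriction, contraction,
duality, direct sum, truncation and induction. -/
structure IsComplete (C : MClass) : Prop where
  finite : ∀ {α : Type} {M : Matroid α}, C α M → M.E.Finite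
  iso : ∀ {α β : Type} {M : Matroid α} {N : Matroid β}, Iso M N → C α M → C β N
  restrict : ∀ {α : Type} {M : Matroid α}, C α M → ∀ A ⊆ M.E, C α (M ↾ A)
  contract : ∀ {α : Type} {M : Matroid α}, C α M → ∀ A ⊆ M.E, C α (M ／ A)
  dual : ∀ {α : Type} {M : Matroid α}, C α M → C α M✶
  directSum : ∀ {α β : Type} {M : Matroid α} {N : Matroid β}, C α M → C β N →
    C (α ⊕ β) (M.sum N)
  truncate : ∀ {α : Type} {M T : Matroid α} {k : ℕ}, C α M → (k : ℕ∞) ≤ M.eRank →
    IsTruncation M k T → C α T
  induce : ∀ {τ : Type} [Finite τ] {G : τ → τ → Prop} {M₀ N : Matroid τ} {A : Set τ},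
    C τ M₀ → IsInduced G M₀ A N → C τ N

/-- Gammoids: the matroids (isomorphic to one) induced through a finite directed graph from a free
matroid. -/
def Gammoid : MClass := fun _ M => ∃ (τ : Type) (_ : Finite τ) (G : τ → τ → Prop) (V A : Set τ)
  (N : Matroid τ), IsInduced G (Matroid.freeOn V) A N ∧ Iso N M

/-- Strongly base-orderable matroids. -/
def SBO : MClass := fun _ M => M.E.Finite ∧ ∀ B₁ B₂, M.IsBase B₁ → M.IsBase B₂ →
  ∃ φ, BijOn φ B₁ B₂ ∧ ∀ X ⊆ B₁, M.IsBase ((B₁ \ X) ∪ φ '' X)

/-- Base-orderable matroids: the exchange condition is required for `|X| = 1` and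
`|X| = r - 1` only. -/
def BO : MClass := fun _ M => M.E.Finite ∧ ∀ B₁ B₂, M.IsBase B₁ → M.IsBase B₂ →
  ∃ φ, BijOn φ B₁ B₂ ∧ ∀ X ⊆ B₁, (X.encard = 1 ∨ X.encard + 1 = M.eRank) →
    M.IsBase ((B₁ \ X) ∪ φ '' X)

/-- None of the matroids `F i` lies in `C`. -/
def Avoids {κ : Type} {β : κ → Type} (C : MClass) (F : ∀ i, Matroid (β i)) : Prop :=
  ∀ i, ¬ C (β i) (F i)

/-- There is a finite family `F` of finite matroids with `C = C̄(F)`: no matroid of the family lies
in `C`, and every complete class that contains no matroid of the family is contained in `C`. -/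
def FinitelyExcluded (C : MClass) : Prop :=
  ∃ (k : ℕ) (β : Fin k → Type) (F : ∀ i, Matroid (β i)), (∀ i, (F i).E.Finite) ∧ Avoids C F ∧
    ∀ D : MClass, IsComplete D → Avoids D F → ∀ (α : Type) (M : Matroid α), D α M → C α M

end Pool.Agent.Helper442.FE
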