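import Mathlib
import Pool.Agent.Helper442.FE.Defs

/-! Rank functions with integer values (mostly copied from `Pool.Agent.Helper616.FG.Proof`). -/

namespace Pool.Agent.Helper442.FE

open Set

/-- Submodular set functions. -/
def Submod {E : Type} (h : Set E → ℤ) : Prop :=
  ∀ X Y, h (X ∪ Y) + h (X ∩ Y) ≤ h X + h Y

/-- The rank function with integer values. -/
noncomputable def rk {α : Type} (M : Matroid α) (A : Set α) : ℤ := ((M.eRk A).toNat : ℤ)

section rank

variable {α : Type} {M : Matroid α}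

theorem rk_cast (hM : M.E.Finite) (A : Set α) : M.eRk A = ((M.eRk A).toNat : ℕ∞) := by
  have : M.Finite := ⟨hM⟩
  refine (ENat.natCast_toNat ?_).symm
  rw [Matroid.eRk_ne_top_iff]
  exact Matroid.isRkFinite_set M A

theorem rk_nonneg (M : Matroid α) (A : Set α) : 0 ≤ rk M A := Int.natCast_nonneg _

theorem rk_le_iff (hM : M.E.Finite) {A : Set α} {n : ℕ} : rk M A ≤ n ↔ M.eRk A ≤ n := by
  rw [rk_cast hM A]; unfold rk; norm_cast

theorem le_rk_iff (hM : M.E.Finite) {A : Set α} {n : ℕ} : (n : ℤ) ≤ rk M A ↔ (n : ℕ∞) ≤ M.eRk A := by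
  rw [rk_cast hM A]; unfold rk; norm_cast

theorem rk_eq_iff (hM : M.E.Finite) {A : Set α} {n : ℕ} : rk M A = n ↔ M.eRk A = n := by
  rw [rk_cast hM A]; unfold rk; norm_cast

theorem rk_mono (hM : M.E.Finite) {A B : Set α} (h : A ⊆ B) : rk M A ≤ rk M B := by
  have h1 := M.eRk_mono h
  rw [rk_cast hM A, rk_cast hM B] at h1
  unfold rk; exact_mod_cast h1

theorem rk_submod (hM : M.E.Finite) : Submod (rk M) := by
  intro X Y
  have h1 := M.eRk_inter_add_eRk_union_le X Y
  rw [rk_cast hM (X ∩ Y), rk_cast hM (X ∪ Y), rk_cast hM X, rk_cast hM Y] at h1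
  have h2 : (M.eRk (X ∩ Y)).toNat + (M.eRk (X ∪ Y)).toNat ≤ (M.eRk X).toNat + (M.eRk Y).toNat := by
    exact_mod_cast h1
  unfold rk
  omega

theorem rk_empty (M : Matroid α) : rk M ∅ = 0 := by unfold rk; simp

theorem rk_inter_ground (M : Matroid α) (A : Set α) : rk M (A ∩ M.E) = rk M A := by
  unfold rk; rw [Matroid.eRk_inter_ground]

theorem rk_le_ncard (M : Matroid α) {A : Set α} (hA : A.Finite) : rk M A ≤ A.ncard := by
  have h1 := M.eRk_le_encard A
  rw [← hA.cast_ncard_eq] at h1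
  have h2 : (M.eRk A).toNat ≤ A.ncard := by
    have := ENat.toNat_le_toNat h1 (ENat.natCast_ne_top _)
    simpa using this
  unfold rk; exact_mod_cast h2

theorem rk_insert_le (hM : M.E.Finite) (A : Set α) (e : α) : rk M (insert e A) ≤ rk M A + 1 := by
  have h1 := M.eRk_insert_le_add_one e A
  rw [rk_cast hM (insert e A), rk_cast hM A] at h1
  unfold rk; exact_mod_cast h1

theorem rk_indep (hM : M.E.Finite) {I : Set α} (hI : M.Indep I) : rk M I = I.ncard := by
  have hfin : I.Finite := hM.subset hI.subset_ground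
  rw [rk_eq_iff hM, hI.eRk_eq_encard, hfin.cast_ncard_eq]

theorem indep_iff_rk (hM : M.E.Finite) {I : Set α} (hI : I ⊆ M.E) :
    M.Indep I ↔ (I.ncard : ℤ) ≤ rk M I := by
  constructor
  · intro h; rw [rk_indep hM h]
  · intro h
    have hfin : I.Finite := hM.subset hI
    rw [Matroid.indep_iff_eRk_eq_encard_of_finite hfin]
    refine le_antisymm (M.eRk_le_encard I) ?_
    rw [le_rk_iff hM, hfin.cast_ncard_eq] at h
    exact h

/-- `rk M (A ∪ B) ≤ rk M A + |B|`. -/
theorem rk_union_le (hM : M.E.Finite) (A : Set α) {B : Set α} (hB : B.Finite) :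
    rk M (A ∪ B) ≤ rk M A + B.ncard := by
  have h1 := rk_submod hM A B
  have h2 := rk_nonneg M (A ∩ B)
  have h3 := rk_le_ncard M hB
  linarith

end rank


open scoped Matroid in
theorem rk_dual {α : Type} {M : Matroid α} (hM : M.E.Finite) {A : Set α} (hA : A ⊆ M.E) :
    rk M✶ A = A.ncard + rk M (M.E \ A) - rk M M.E := by
  have h1 := M.eRk_dual_add_eRank A hA
  rw [Matroid.eRank_def, rk_cast (M := M✶) hM A, rk_cast hM M.E, rk_cast hM (M.E \ A),
    ← (hM.subset hA).cast_ncard_eq] at h1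
  have h2 : (M✶.eRk A).toNat + (M.eRk M.E).toNat = (M.eRk (M.E \ A)).toNat + A.ncard := by
    exact_mod_cast h1
  unfold rk
  omega

open scoped Matroid in

theorem eRk_sum {α β : Type} (M : Matroid α) (N : Matroid β) (A : Set (α ⊕ β)) :
    (M.sum N).eRk A = M.eRk (Sum.inl ⁻¹' A) + N.eRk (Sum.inr ⁻¹' A) := by
  obtain ⟨I, hI⟩ := M.exists_isBasis' (Sum.inl ⁻¹' A)
  obtain ⟨J, hJ⟩ := N.exists_isBasis' (Sum.inr ⁻¹' A)
  have h1 : (M.sum N).IsBasis (Sum.inl '' I ∪ Sum.inr '' J) (A ∩ (M.sum N).E) := by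
    rw [Matroid.sum_isBasis_iff]
    have e1 : Sum.inl ⁻¹' (Sum.inl '' I ∪ Sum.inr '' J : Set (α ⊕ β)) = I := by ext x; simp
    have e2 : Sum.inr ⁻¹' (Sum.inl '' I ∪ Sum.inr '' J : Set (α ⊕ β)) = J := by ext x; simp
    have e3 : Sum.inl ⁻¹' (A ∩ (M.sum N).E) = Sum.inl ⁻¹' A ∩ M.E := by ext x; simp
    have e4 : Sum.inr ⁻¹' (A ∩ (M.sum N).E) = Sum.inr ⁻¹' A ∩ N.E := by ext x; simp
    rw [e1, e2, e3, e4]
    exact ⟨hI.isBasis_inter_ground, hJ.isBasis_inter_ground⟩
  rw [← Matroid.eRk_inter_ground, h1.eRk_eq_encard, hI.eRk_eq_encard, hJ.eRk_eq_encard,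
    encard_union_eq, Sum.inl_injective.encard_image, Sum.inr_injective.encard_image]
  rw [Set.disjoint_left]
  rintro _ ⟨x, _, rfl⟩ ⟨y, _, hy⟩
  cases hy

theorem rk_sum {α β : Type} {M : Matroid α} {N : Matroid β} (hM : M.E.Finite) (hN : N.E.Finite)
    (A : Set (α ⊕ β)) : rk (M.sum N) A = rk M (Sum.inl ⁻¹' A) + rk N (Sum.inr ⁻¹' A) := by
  unfold rk
  rw [eRk_sum, rk_cast hM, rk_cast hN]
  norm_cast


theorem rk_iso_le {α β : Type} {M : Matroid α} {N : Matroid β} (hM : M.E.Finite) (hN : N.E.Finite)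
    (e : M.E ≃ N.E)
    (he : ∀ I : Set M.E, M.Indep (Subtype.val '' I) → N.Indep (Subtype.val '' (e '' I)))
    (A : Set M.E) : rk M (Subtype.val '' A) ≤ rk N (Subtype.val '' (e '' A)) := by
  obtain ⟨I, hI⟩ := M.exists_isBasis (Subtype.val '' A) (by rintro _ ⟨x, _, rfl⟩; exact x.2)
  have hIsub := hI.subset
  obtain ⟨J, hJA, rfl⟩ := Set.subset_image_iff.1 hIsub
  have h1 : rk M (Subtype.val '' A) = ((Subtype.val '' J : Set α).ncard : ℤ) := by
    rw [← rk_indep hM hI.indep]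
    unfold rk
    rw [hI.eRk_eq_eRk]
  have h2 := he J hI.indep
  have h3 := rk_indep hN h2
  rw [h1, Set.ncard_image_of_injective _ Subtype.val_injective]
  rw [Set.ncard_image_of_injective _ Subtype.val_injective,
    Set.ncard_image_of_injective _ e.injective] at h3
  rw [← h3]
  exact rk_mono hN (image_mono (image_mono hJA))


theorem rk_truncation {α : Type} {M T : Matroid α} {k : ℕ} (hM : M.E.Finite)
    (hT : IsTruncation M k T) (A : Set α) : rk T A = min (rk M A) k := by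
  obtain ⟨hTE, hT⟩ := hT
  have hTf : T.E.Finite := hTE ▸ hM
  apply le_antisymm
  · apply le_min
    · obtain ⟨I, hI⟩ := T.exists_isBasis' A
      have h1 : rk T A = rk T I := by unfold rk; rw [hI.eRk_eq_eRk]
      rw [h1, rk_indep hTf hI.indep, ← rk_indep hM ((hT I).1 hI.indep).1]
      exact rk_mono hM hI.subset
    · rw [rk_le_iff hTf, Matroid.eRk_le_iff]
      intro I _ hI
      exact ((hT I).1 hI).2
  · rcases le_total (rk M A) k with h | h
    · rw [min_eq_left h]
      obtain ⟨I, hI⟩ := M.exists_isBasis' A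
      have h1 : rk M A = rk M I := by unfold rk; rw [hI.eRk_eq_eRk]
      have hIfin : I.Finite := hM.subset hI.indep.subset_ground
      have h2 : T.Indep I := by
        refine (hT I).2 ⟨hI.indep, ?_⟩
        rw [h1, rk_indep hM hI.indep] at h
        rw [← hIfin.cast_ncard_eq]
        exact_mod_cast h
      rw [h1, rk_indep hM hI.indep, ← rk_indep hTf h2]
      exact rk_mono hTf hI.subset
    · rw [min_eq_right h]
      rw [le_rk_iff hM, Matroid.le_eRk_iff] at h
      obtain ⟨I, hIA, hI, hcard⟩ := h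
      have h2 : T.Indep I := (hT I).2 ⟨hI, hcard.le⟩
      rw [le_rk_iff hTf, Matroid.le_eRk_iff]
      exact ⟨I, hIA, h2, hcard⟩


end Pool.Agent.Helper442.FE
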