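import Mathlib
import Pool.Agent.Helper442.FE.Rk

/-! Induction through directed graphs: linkings and partial injections (mostly copied from
`Pool.Agent.Helper616.FG.Proof`). -/

namespace Pool.Agent.Helper442.FE

open Set

theorem rado_abs {ι T : Type} [DecidableEq ι] [DecidableEq T] [Fintype ι] (ρ : Finset T → ℤ)
    (hmono : ∀ A B, A ⊆ B → ρ A ≤ ρ B) (hsub : ∀ A B, ρ (A ∪ B) + ρ (A ∩ B) ≤ ρ A + ρ B)
    (hle : ∀ A, ρ A ≤ A.card) : ∀ (n : ℕ) (Γ : ι → Finset T), ∑ i, (Γ i).card = n →
    (∀ Q : Finset ι, (Q.card : ℤ) ≤ ρ (Q.biUnion Γ)) →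
    ∃ m : ι → T, (∀ i, m i ∈ Γ i) ∧ (Fintype.card ι : ℤ) ≤ ρ (Finset.univ.image m) := by
  intro n
  induction n using Nat.strong_induction_on with
  | _ n ih =>
  intro Γ hn hQ
  by_cases h : ∀ i, (Γ i).card ≤ 1
  · have h1 : ∀ i, ∃ t, Γ i = {t} := by
      intro i
      have h2 := hQ {i}
      have h3 := hle (({i} : Finset ι).biUnion Γ)
      simp only [Finset.card_singleton, Finset.singleton_biUnion] at h2 h3
      have h4 := h i
      exact Finset.card_eq_one.1 (by push_cast at h2; omega)
    choose m hm using h1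
    refine ⟨m, fun i => by rw [hm i]; exact Finset.mem_singleton_self _, ?_⟩
    have h5 := hQ Finset.univ
    have h6 : Finset.univ.biUnion Γ = Finset.univ.image m := by
      ext t
      simp [hm, eq_comm]
    rw [h6] at h5
    simpa using h5
  · push Not at h
    obtain ⟨i, hi⟩ := h
    obtain ⟨y1, hy1, y2, hy2, hne⟩ := Finset.one_lt_card.1 hi
    have key : ∀ y ∈ Γ i, (∀ Q : Finset ι, (Q.card : ℤ) ≤
        ρ (Q.biUnion (Function.update Γ i ((Γ i).erase y)))) →
        ∃ m : ι → T, (∀ i, m i ∈ Γ i) ∧ (Fintype.card ι : ℤ) ≤ ρ (Finset.univ.image m) := by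
      intro y hy hc
      obtain ⟨m, hm1, hm2⟩ := ih _ (by
        rw [← hn]
        refine Finset.sum_lt_sum (fun j _ => ?_) ⟨i, Finset.mem_univ i, ?_⟩
        · by_cases hj : j = i
          · subst hj
            rw [Function.update_self]
            exact Finset.card_le_card (Finset.erase_subset _ _)
          · rw [Function.update_of_ne hj]
        · rw [Function.update_self]
          exact Finset.card_erase_lt_of_mem hy) (Function.update Γ i ((Γ i).erase y)) rfl hc
      refine ⟨m, fun j => ?_, hm2⟩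
      have := hm1 j
      by_cases hj : j = i
      · subst hj
        rw [Function.update_self] at this
        exact Finset.mem_of_mem_erase this
      · rwa [Function.update_of_ne hj] at this
    by_cases c1 : ∀ Q : Finset ι, (Q.card : ℤ) ≤
        ρ (Q.biUnion (Function.update Γ i ((Γ i).erase y1)))
    · exact key y1 hy1 c1
    by_cases c2 : ∀ Q : Finset ι, (Q.card : ℤ) ≤
        ρ (Q.biUnion (Function.update Γ i ((Γ i).erase y2)))
    · exact key y2 hy2 c2
    exfalso
    have viol : ∀ y, ¬ (∀ Q : Finset ι, (Q.card : ℤ) ≤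
        ρ (Q.biUnion (Function.update Γ i ((Γ i).erase y)))) →
        ∃ R : Finset ι, i ∉ R ∧ ρ (R.biUnion Γ ∪ (Γ i).erase y) ≤ R.card := by
      intro y hc
      push Not at hc
      obtain ⟨Q, hQ1⟩ := hc
      have hiQ : i ∈ Q := by
        by_contra hiQ
        have : Q.biUnion (Function.update Γ i ((Γ i).erase y)) = Q.biUnion Γ := by
          refine Finset.biUnion_congr rfl fun j hj => ?_
          rw [Function.update_of_ne]
          rintro rfl
          exact hiQ hj
        rw [this] at hQ1
        exact absurd (hQ Q) (not_le.2 hQ1)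
      refine ⟨Q.erase i, Finset.notMem_erase _ _, ?_⟩
      have e : Q.biUnion (Function.update Γ i ((Γ i).erase y)) =
          (Q.erase i).biUnion Γ ∪ (Γ i).erase y := by
        conv_lhs => rw [← Finset.insert_erase hiQ]
        rw [Finset.biUnion_insert, Function.update_self, Finset.union_comm]
        congr 1
        refine Finset.biUnion_congr rfl fun j hj => ?_
        rw [Function.update_of_ne (Finset.ne_of_mem_erase hj)]
      rw [e] at hQ1
      have := Finset.card_erase_add_one hiQ
      omega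
    obtain ⟨R1, hi1, hr1⟩ := viol y1 c1
    obtain ⟨R2, hi2, hr2⟩ := viol y2 c2
    have s := hsub (R1.biUnion Γ ∪ (Γ i).erase y1) (R2.biUnion Γ ∪ (Γ i).erase y2)
    have a1 := hQ (insert i (R1 ∪ R2))
    have a2 := hQ (R1 ∩ R2)
    have b1 := hmono ((insert i (R1 ∪ R2)).biUnion Γ)
      ((R1.biUnion Γ ∪ (Γ i).erase y1) ∪ (R2.biUnion Γ ∪ (Γ i).erase y2)) (by
        intro t ht
        simp only [Finset.mem_biUnion, Finset.mem_insert, Finset.mem_union, Finset.mem_erase] at ht ⊢
        obtain ⟨j, hj | hj | hj, hjt⟩ := ht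
        · subst hj
          by_cases h1 : t = y1
          · exact Or.inr (Or.inr ⟨by rw [h1]; exact hne, hjt⟩)
          · exact Or.inl (Or.inr ⟨h1, hjt⟩)
        · exact Or.inl (Or.inl ⟨j, hj, hjt⟩)
        · exact Or.inr (Or.inl ⟨j, hj, hjt⟩))
    have b2 := hmono ((R1 ∩ R2).biUnion Γ)
      ((R1.biUnion Γ ∪ (Γ i).erase y1) ∩ (R2.biUnion Γ ∪ (Γ i).erase y2)) (by
        intro t ht
        simp only [Finset.mem_biUnion, Finset.mem_inter, Finset.mem_union, Finset.mem_erase] at ht ⊢
        obtain ⟨j, ⟨hj1, hj2⟩, hjt⟩ := ht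
        exact ⟨Or.inl ⟨j, hj1, hjt⟩, Or.inl ⟨j, hj2, hjt⟩⟩)
    have c3 : (insert i (R1 ∪ R2)).card = (R1 ∪ R2).card + 1 :=
      Finset.card_insert_of_notMem (by simp [hi1, hi2])
    have c4 := Finset.card_union_add_card_inter R1 R2
    omega

/-- From a partial injection to a linking. -/
theorem linked_of_map {τ : Type} [Finite τ] {G : τ → τ → Prop} : ∀ (n : ℕ) (m : τ → τ)
    (X : Set τ), {s | s ∉ X ∧ m s ≠ s}.ncard = n → InjOn m Xᶜ →
    (∀ t ∉ X, m t = t ∨ G (m t) t) →
    ∃ P : Set (List τ), (∀ p ∈ P, IsPath G p) ∧ (∀ p ∈ P, ∀ q ∈ P, p ≠ q → List.Disjoint p q) ∧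
      {x | ∃ p ∈ P, p.head? = some x} = X ∧ {y | ∃ p ∈ P, p.getLast? = some y} = (m '' Xᶜ)ᶜ ∧
      ∀ p ∈ P, ∀ s ∈ p, s ∈ X ∨ m s ≠ s := by
  classical
  intro n
  induction n using Nat.strong_induction_on with
  | _ n ih =>
  intro m X hn hinj hG
  by_cases hX : X ∩ m '' Xᶜ = ∅
  · have h1 : m '' Xᶜ = Xᶜ := by
      apply Set.eq_of_subset_of_ncard_le
      · intro y hy hyX
        have : y ∈ X ∩ m '' Xᶜ := ⟨hyX, hy⟩
        rw [hX] at this
        exact this
      · rw [hinj.ncard_image]
      · exact Set.toFinite _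
    refine ⟨(fun x => [x]) '' X, ?_, ?_, ?_, ?_, ?_⟩
    · rintro _ ⟨x, hx, rfl⟩
      exact ⟨by simp, by simp, List.isChain_singleton x⟩
    · rintro _ ⟨x, hx, rfl⟩ _ ⟨y, hy, rfl⟩ hxy
      simp only [ne_eq, List.cons.injEq, and_true] at hxy
      intro a ha hb
      simp only [List.mem_singleton] at ha hb
      exact hxy (ha.symm.trans hb)
    · ext x
      simp
    · rw [h1, compl_compl]
      ext x
      simp
    · rintro _ ⟨x, hx, rfl⟩ s hs
      rw [List.mem_singleton] at hs
      exact Or.inl (hs ▸ hx)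
  · obtain ⟨x, hxX, t, htX, hmt⟩ := Set.nonempty_iff_ne_empty.2 hX
    have htX' : t ∉ X := htX
    have hxt : x ≠ t := by
      rintro rfl
      exact htX hxX
    set X' : Set τ := insert t (X \ {x}) with hX'
    set m' : τ → τ := Function.update m x x with hm'
    have hm'x : m' x = x := by rw [hm', Function.update_self]
    have hm'n : ∀ s, s ≠ x → m' s = m s := fun s hs => by
      rw [hm', Function.update_of_ne hs]
    have hxX' : x ∉ X' := by
      rw [hX']
      simp [hxt]
    have memX' : ∀ s, s ∉ X' ↔ s = x ∨ (s ∉ X ∧ s ≠ t) := by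
      intro s
      rw [hX']
      simp only [mem_insert_iff, mem_sdiff, mem_singleton_iff, not_or, not_and, not_not]
      constructor
      · rintro ⟨h1, h2⟩
        by_cases hs : s ∈ X
        · exact Or.inl (h2 hs)
        · exact Or.inr ⟨hs, h1⟩
      · rintro (rfl | ⟨h1, h2⟩)
        · exact ⟨hxt, fun _ => rfl⟩
        · exact ⟨h2, fun h => absurd h h1⟩
    have hinj' : InjOn m' X'ᶜ := by
      intro a ha b hb hab
      rcases (memX' a).1 ha with rfl | ⟨ha1, ha2⟩ <;> rcases (memX' b).1 hb with rfl | ⟨hb1, hb2⟩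
      · rfl
      · have hbx : b ≠ a := by rintro rfl; exact hb1 hxX
        rw [hm'x, hm'n b hbx, ← hmt] at hab
        exact absurd (hinj htX hb1 hab).symm hb2
      · have hax : a ≠ b := by rintro rfl; exact ha1 hxX
        rw [hm'x, hm'n a hax, ← hmt] at hab
        exact absurd (hinj ha1 htX hab) ha2
      · have hax : a ≠ x := by rintro rfl; exact ha1 hxX
        have hbx : b ≠ x := by rintro rfl; exact hb1 hxX
        rw [hm'n a hax, hm'n b hbx] at hab
        exact hinj ha1 hb1 hab
    have hG' : ∀ s ∉ X', m' s = s ∨ G (m' s) s := by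
      intro s hs
      rcases (memX' s).1 hs with rfl | ⟨h1, h2⟩
      · exact Or.inl hm'x
      · have hsx : s ≠ x := by rintro rfl; exact h1 hxX
        rw [hm'n s hsx]
        exact hG s h1
    have himg : m' '' X'ᶜ = m '' Xᶜ := by
      ext y
      constructor
      · rintro ⟨s, hs, rfl⟩
        rcases (memX' s).1 hs with rfl | ⟨h1, h2⟩
        · rw [hm'x]
          exact ⟨t, htX, hmt⟩
        · have hsx : s ≠ x := by rintro rfl; exact h1 hxX
          rw [hm'n s hsx]
          exact ⟨s, h1, rfl⟩
      · rintro ⟨s, hs, rfl⟩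
        by_cases hst : s = t
        · subst hst
          exact ⟨x, hxX', by rw [hm'x, hmt]⟩
        · have hsx : s ≠ x := by rintro rfl; exact hs hxX
          exact ⟨s, (memX' s).2 (Or.inr ⟨hs, hst⟩), hm'n s hsx⟩
    have hlt : {s | s ∉ X' ∧ m' s ≠ s}.ncard < n := by
      rw [← hn]
      apply Set.ncard_lt_ncard _ (Set.toFinite _)
      constructor
      · rintro s ⟨hs, hms⟩
        rcases (memX' s).1 hs with rfl | ⟨h1, h2⟩
        · exact absurd hm'x hms
        · have hsx : s ≠ x := by rintro rfl; exact h1 hxX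
          rw [hm'n s hsx] at hms
          exact ⟨h1, hms⟩
      · intro hsub
        have ht : t ∈ {s | s ∉ X ∧ m s ≠ s} := ⟨htX', by rw [hmt]; exact hxt⟩
        have := hsub ht
        exact this.1 (by rw [hX']; exact mem_insert _ _)
    obtain ⟨P', hP1, hP2, hP3, hP4, hP5⟩ := ih _ hlt m' X' rfl hinj' hG'
    have hxP : ∀ p ∈ P', x ∉ p := by
      intro p hp hxp
      rcases hP5 p hp x hxp with h | h
      · exact hxX' h
      · exact h hm'x
    set F : List τ → List τ := fun p => if p.head? = some t then x :: p else p with hF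
    have hFt : ∀ p, p.head? = some t → F p = x :: p := fun p hp => by rw [hF]; simp [hp]
    have hFn : ∀ p, p.head? ≠ some t → F p = p := fun p hp => by rw [hF]; simp [hp]
    have htp : ∃ p ∈ P', p.head? = some t := by
      have : t ∈ {x | ∃ p ∈ P', p.head? = some x} := by
        rw [hP3, hX']
        exact mem_insert _ _
      exact this
    have memF : ∀ p ∈ P', ∀ s ∈ F p, (s = x ∧ p.head? = some t) ∨ s ∈ p := by
      intro p hp s hs
      by_cases h : p.head? = some t
      · rw [hFt p h, List.mem_cons] at hs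
        rcases hs with hs | hs
        · exact Or.inl ⟨hs, h⟩
        · exact Or.inr hs
      · rw [hFn p h] at hs
        exact Or.inr hs
    have uniqt : ∀ p ∈ P', ∀ q ∈ P', p.head? = some t → q.head? = some t → p = q := by
      intro p hp q hq h1 h2
      by_contra hne
      exact hP2 p hp q hq hne (List.mem_of_mem_head? h1) (List.mem_of_mem_head? h2)
    refine ⟨F '' P', ?_, ?_, ?_, ?_, ?_⟩
    · rintro _ ⟨p, hp, rfl⟩
      obtain ⟨h1, h2, h3⟩ := hP1 p hp
      by_cases h : p.head? = some t
      · rw [hFt p h]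
        refine ⟨by simp, List.nodup_cons.2 ⟨hxP p hp, h2⟩, List.isChain_cons.2 ⟨?_, h3⟩⟩
        intro y hy
        rw [h] at hy
        simp only [Option.mem_def, Option.some.injEq] at hy
        subst hy
        rcases hG t htX with h4 | h4
        · rw [hmt] at h4
          exact absurd h4 hxt
        · rwa [hmt] at h4
      · rw [hFn p h]
        exact ⟨h1, h2, h3⟩
    · rintro _ ⟨p, hp, rfl⟩ _ ⟨q, hq, rfl⟩ hpq
      have hpq' : p ≠ q := by rintro rfl; exact hpq rfl
      intro s hs1 hs2
      rcases memF p hp s hs1 with ⟨rfl, h1⟩ | h1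
      · rcases memF q hq s hs2 with ⟨_, h2⟩ | h2
        · exact hpq' (uniqt p hp q hq h1 h2)
        · exact hxP q hq h2
      · rcases memF q hq s hs2 with ⟨rfl, h2⟩ | h2
        · exact hxP p hp h1
        · exact hP2 p hp q hq hpq' h1 h2
    · ext s
      constructor
      · rintro ⟨_, ⟨p, hp, rfl⟩, hs⟩
        by_cases h : p.head? = some t
        · rw [hFt p h] at hs
          simp only [List.head?_cons, Option.some.injEq] at hs
          exact hs ▸ hxX
        · rw [hFn p h] at hs
          have : s ∈ X' := by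
            rw [← hP3]
            exact ⟨p, hp, hs⟩
          rw [hX'] at this
          rcases this with rfl | h1
          · exact absurd hs h
          · exact h1.1
      · intro hs
        by_cases hsx : s = x
        · obtain ⟨p, hp, hpt⟩ := htp
          exact ⟨F p, ⟨p, hp, rfl⟩, by rw [hFt p hpt, hsx]; rfl⟩
        · have : s ∈ X' := by
            rw [hX']
            exact Or.inr ⟨hs, hsx⟩
          rw [← hP3] at this
          obtain ⟨p, hp, hps⟩ := this
          have h : p.head? ≠ some t := by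
            rw [hps]
            simp only [ne_eq, Option.some.injEq]
            rintro rfl
            exact htX hs
          exact ⟨F p, ⟨p, hp, rfl⟩, by rw [hFn p h]; exact hps⟩
    · rw [← himg, ← hP4]
      ext s
      have hlast : ∀ p ∈ P', (F p).getLast? = p.getLast? := by
        intro p hp
        by_cases h : p.head? = some t
        · rw [hFt p h]
          obtain ⟨h1, -, -⟩ := hP1 p hp
          cases p with
          | nil => exact absurd rfl h1
          | cons a l => rfl
        · rw [hFn p h]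
      constructor
      · rintro ⟨_, ⟨p, hp, rfl⟩, hs⟩
        rw [hlast p hp] at hs
        exact ⟨p, hp, hs⟩
      · rintro ⟨p, hp, hs⟩
        exact ⟨F p, ⟨p, hp, rfl⟩, by rw [hlast p hp]; exact hs⟩
    · rintro _ ⟨p, hp, rfl⟩ s hs
      rcases memF p hp s hs with ⟨rfl, _⟩ | h1
      · exact Or.inl hxX
      · have hsx : s ≠ x := by rintro rfl; exact hxP p hp h1
        rcases hP5 p hp s h1 with h2 | h2
        · rw [hX'] at h2
          rcases h2 with rfl | h2
          · right
            rw [hmt]
            exact hxt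
          · exact Or.inl h2.1
        · rw [hm'n s hsx] at h2
          exact Or.inr h2

/-- From a linking to a partial injection. -/
theorem map_of_linked {τ : Type} {G : τ → τ → Prop} {X Y : Set τ} (h : Linked G X Y) :
    (∃ m : τ → τ, InjOn m Xᶜ ∧ (∀ t ∉ X, m t = t ∨ G (m t) t) ∧ ∀ t ∉ X, m t ∉ Y) ∧
    ∃ j : τ → τ, InjOn j X ∧ MapsTo j X Y := by
  classical
  obtain ⟨P, h1, h2, h3, h4⟩ := h
  have uniq : ∀ p ∈ P, ∀ q ∈ P, ∀ s, s ∈ p → s ∈ q → p = q := by
    intro p hp q hq s hs1 hs2
    by_contra hne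
    exact h2 p hp q hq hne hs1 hs2
  refine ⟨?_, ?_⟩
  · -- predecessor
    have pre : ∀ t ∉ X, ∀ p ∈ P, t ∈ p → ∃ s l1 l2, p = l1 ++ s :: t :: l2 := by
      intro t ht p hp htp
      obtain ⟨l1, l2, rfl⟩ := List.append_of_mem htp
      rcases List.eq_nil_or_concat l1 with rfl | ⟨l, s, rfl⟩
      · exfalso
        apply ht
        rw [← h3]
        exact ⟨_, hp, by simp⟩
      · exact ⟨s, l, l2, by simp⟩
    have hm : ∀ t, ∃ s, t ∉ X → ((s = t ∧ ∀ p ∈ P, t ∉ p) ∨ ∃ p ∈ P, ∃ l1 l2, p = l1 ++ s :: t :: l2) := by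
      intro t
      by_cases ht : t ∈ X
      · exact ⟨t, fun h => absurd ht h⟩
      by_cases hp : ∃ p ∈ P, t ∈ p
      · obtain ⟨p, hp, htp⟩ := hp
        obtain ⟨s, l1, l2, e⟩ := pre t ht p hp htp
        exact ⟨s, fun _ => Or.inr ⟨p, hp, l1, l2, e⟩⟩
      · push Not at hp
        exact ⟨t, fun _ => Or.inl ⟨rfl, hp⟩⟩
    choose m hm using hm
    refine ⟨m, ?_, ?_, ?_⟩
    · intro t ht t' ht' htt
      rcases hm t ht with ⟨e1, e2⟩ | ⟨p, hp, l1, l2, e⟩
      · rcases hm t' ht' with ⟨e1', e2'⟩ | ⟨p', hp', l1', l2', e'⟩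
        · rw [← e1, ← e1', htt]
        · exfalso
          apply e2 p' hp'
          rw [← e1, htt, e']
          simp
      · rcases hm t' ht' with ⟨e1', e2'⟩ | ⟨p', hp', l1', l2', e'⟩
        · exfalso
          apply e2' p hp
          rw [← e1', ← htt, e]
          simp
        · have hpp : p = p' := uniq p hp p' hp' (m t) (by rw [e]; simp) (by rw [e', htt]; simp)
          subst hpp
          have hnd : (l1 ++ m t :: t :: l2).Nodup := e ▸ (h1 p hp).2.1
          rw [htt] at e hnd
          have e3 : l1 ++ m t' :: t :: l2 = l1' ++ m t' :: t' :: l2' := e.symm.trans e'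
          have n1 : m t' ∉ l1 := by
            rw [List.nodup_append] at hnd
            intro hmem
            exact hnd.2.2 _ hmem _ (by simp) rfl
          have n2 : m t' ∉ t :: l2 := (List.nodup_cons.1 (List.nodup_append.1 hnd).2.1).1
          have q := (List.append_cons_inj_of_notMem n1 n2).1 e3
          have := q.2.2
          simp only [List.cons.injEq] at this
          exact this.1
    · intro t ht
      rcases hm t ht with ⟨e1, e2⟩ | ⟨p, hp, l1, l2, e⟩
      · exact Or.inl e1
      · right
        have hc := (h1 p hp).2.2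
        rw [e] at hc
        have := hc.right_of_append
        rw [List.isChain_cons] at this
        exact this.1 t (by simp)
    · intro t ht hY
      rw [← h4] at hY
      obtain ⟨q, hq, hlast⟩ := hY
      have hmq : m t ∈ q := List.mem_of_mem_getLast? hlast
      rcases hm t ht with ⟨e1, e2⟩ | ⟨p, hp, l1, l2, e⟩
      · rw [e1] at hmq
        exact e2 q hq hmq
      · have hpq : p = q := uniq p hp q hq (m t) (by rw [e]; simp) hmq
        subst hpq
        have hnd : (l1 ++ m t :: t :: l2).Nodup := e ▸ (h1 p hp).2.1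
        rw [e, List.getLast?_append] at hlast
        have hne : (m t :: t :: l2).getLast? = (t :: l2).getLast? := rfl
        rw [hne] at hlast
        have h5 : m t ∈ (t :: l2) := by
          cases hgl : (t :: l2).getLast? with
          | none => simp at hgl
          | some z =>
            rw [hgl] at hlast
            simp only [Option.some_or, Option.some.injEq] at hlast
            rw [← hlast]
            exact List.mem_of_mem_getLast? hgl
        have h6 := (List.nodup_append.1 hnd).2.1
        exact (List.nodup_cons.1 h6).1 h5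
  · have hj : ∀ x, ∃ y, x ∈ X → ∃ p ∈ P, p.head? = some x ∧ p.getLast? = some y := by
      intro x
      by_cases hx : x ∈ X
      · have hx' := hx
        rw [← h3] at hx'
        obtain ⟨p, hp, hpx⟩ := hx'
        obtain ⟨hne, -, -⟩ := h1 p hp
        exact ⟨p.getLast hne, fun _ => ⟨p, hp, hpx, List.getLast?_eq_getLast_of_ne_nil hne⟩⟩
      · exact ⟨x, fun h => absurd h hx⟩
    choose j hj using hj
    refine ⟨j, ?_, ?_⟩
    · intro x hx x' hx' hxx
      obtain ⟨p, hp, e1, e2⟩ := hj x hx
      obtain ⟨p', hp', e1', e2'⟩ := hj x' hx'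
      have : p = p' := uniq p hp p' hp' (j x) (List.mem_of_mem_getLast? e2)
        (by rw [hxx]; exact List.mem_of_mem_getLast? e2')
      subst this
      rw [e1] at e1'
      exact Option.some.inj e1'
    · intro x hx
      obtain ⟨p, hp, e1, e2⟩ := hj x hx
      rw [← h4]
      exact ⟨p, hp, e2⟩


section rkfacts

variable {α : Type} [Finite α] (M : Matroid α)

theorem rk_cast' (X : Set α) : ((M.eRk X).toNat : ℕ∞) = M.eRk X :=
  ENat.natCast_toNat (ne_top_of_le_ne_top (Set.toFinite X).encard_lt_top.ne (M.eRk_le_encard X))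

theorem rk_mono' {X Y : Set α} (h : X ⊆ Y) : rk M X ≤ rk M Y := by
  unfold rk
  have := M.eRk_mono h
  rw [← rk_cast' M X, ← rk_cast' M Y] at this
  exact_mod_cast this

theorem rk_submod' (X Y : Set α) : rk M (X ∩ Y) + rk M (X ∪ Y) ≤ rk M X + rk M Y := by
  unfold rk
  have := M.eRk_inter_add_eRk_union_le X Y
  rw [← rk_cast' M X, ← rk_cast' M Y, ← rk_cast' M (X ∩ Y), ← rk_cast' M (X ∪ Y)] at this
  exact_mod_cast this

omit [Finite α] in
theorem rk_nonneg' (X : Set α) : 0 ≤ rk M X := by
  unfold rk
  positivity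

theorem rk_union_le' (X Y : Set α) : rk M (X ∪ Y) ≤ rk M X + Y.ncard := by
  unfold rk
  have := M.eRk_union_le_eRk_add_encard X Y
  rw [← rk_cast' M X, ← rk_cast' M (X ∪ Y), ← (Set.toFinite Y).cast_ncard_eq] at this
  exact_mod_cast this

theorem rk_indep' {I : Set α} (h : M.Indep I) : rk M I = I.ncard := by
  unfold rk
  have := h.eRk_eq_encard
  rw [← rk_cast' M I, ← (Set.toFinite I).cast_ncard_eq] at this
  exact_mod_cast this

theorem indep_of_rk' {I : Set α} (h : (I.ncard : ℤ) ≤ rk M I) : M.Indep I := by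
  rw [M.indep_iff_eRk_eq_encard_of_finite (Set.toFinite I)]
  refine le_antisymm (M.eRk_le_encard I) ?_
  unfold rk at h
  rw [← rk_cast' M I, ← (Set.toFinite I).cast_ncard_eq]
  exact_mod_cast h

end rkfacts

theorem sum_ite_ncard {τ : Type} [Fintype τ] (S : Set τ) [DecidablePred (· ∈ S)] :
    ∑ v, (if v ∈ S then (1 : ℤ) else 0) = S.ncard := by
  rw [Finset.sum_boole, Set.ncard_eq_toFinset_card']
  congr 2
  ext v
  simp

/-- Submodular function of the complement, truncated. -/
theorem trunc_submod {τ : Type} [Finite τ] (M : Matroid τ) (k : ℤ) (S S' : Set τ) :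
    min (rk M (S ∪ S')) k + min (rk M (S ∩ S')) k ≤ min (rk M S) k + min (rk M S') k := by
  have h1 := rk_submod' M S S'
  have h2 := rk_mono' M (inter_subset_left : S ∩ S' ⊆ S)
  have h3 := rk_mono' M (inter_subset_right : S ∩ S' ⊆ S')
  have h4 := rk_mono' M (subset_union_left : S ⊆ S ∪ S')
  have h5 := rk_mono' M (subset_union_right : S' ⊆ S ∪ S')
  omega


end Pool.Agent.Helper442.FE
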