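import Mathlib
import Pool.Agent.Helper442.FE.Link0

/-! The rank function of an induced matroid, and the existence of induced matroids. -/

namespace Pool.Agent.Helper442.FE

open Set

/-- A cut `(x, y)` of the directed graph: arcs that start in `y` end in `x`. -/
def Valid {τ : Type} (G : τ → τ → Prop) (x y : Set τ) : Prop := ∀ u v, G u v → u ∈ y → v ∈ x

/-- The value of a cut. -/
noncomputable def cutv {τ : Type} (M₀ : Matroid τ) (B x y : Set τ) : ℤ :=
  ((B \ x).ncard + (x \ y).ncard) + rk M₀ y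

/-- `X` is linked to an independent set. -/
def Lk {τ : Type} (G : τ → τ → Prop) (M₀ : Matroid τ) (X : Set τ) : Prop :=
  ∃ Y, M₀.Indep Y ∧ Linked G X Y

theorem Valid.union {τ : Type} {G : τ → τ → Prop} {x y x' y' : Set τ} (h : Valid G x y)
    (h' : Valid G x' y') : Valid G (x ∪ x') (y ∪ y') := by
  rintro u v hG (hu | hu)
  · exact Or.inl (h u v hG hu)
  · exact Or.inr (h' u v hG hu)

theorem Valid.inter {τ : Type} {G : τ → τ → Prop} {x y x' y' : Set τ} (h : Valid G x y)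
    (h' : Valid G x' y') : Valid G (x ∩ x') (y ∩ y') := by
  rintro u v hG ⟨hu, hu'⟩
  exact ⟨h u v hG hu, h' u v hG hu'⟩

theorem Valid.empty {τ : Type} (G : τ → τ → Prop) : Valid G ∅ ∅ := fun _ _ _ h => h

section

variable {τ : Type} [Finite τ] {G : τ → τ → Prop} {M₀ : Matroid τ}

theorem ncard_sdiff_submod (S S' x x' : Set τ) :
    ((S ∪ S') \ (x ∪ x')).ncard + ((S ∩ S') \ (x ∩ x')).ncard ≤ (S \ x).ncard + (S' \ x').ncard := by
  have h1 := Set.ncard_union_add_ncard_inter ((S ∪ S') \ (x ∪ x')) ((S ∩ S') \ (x ∩ x'))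
    (Set.toFinite _) (Set.toFinite _)
  have h2 := Set.ncard_union_add_ncard_inter (S \ x) (S' \ x') (Set.toFinite _) (Set.toFinite _)
  have h3 : ((S ∪ S') \ (x ∪ x') ∪ (S ∩ S') \ (x ∩ x')).ncard ≤ (S \ x ∪ S' \ x').ncard := by
    refine Set.ncard_le_ncard ?_ (Set.toFinite _)
    intro t ht
    simp only [mem_union, mem_sdiff, mem_inter_iff] at ht ⊢
    tauto
  have h4 : (((S ∪ S') \ (x ∪ x')) ∩ ((S ∩ S') \ (x ∩ x'))).ncard ≤ ((S \ x) ∩ (S' \ x')).ncard := by
    refine Set.ncard_le_ncard ?_ (Set.toFinite _)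
    intro t ht
    simp only [mem_union, mem_sdiff, mem_inter_iff] at ht ⊢
    tauto
  omega

theorem cutv_submod (S S' x y x' y' : Set τ) :
    cutv M₀ (S ∪ S') (x ∪ x') (y ∪ y') + cutv M₀ (S ∩ S') (x ∩ x') (y ∩ y') ≤
      cutv M₀ S x y + cutv M₀ S' x' y' := by
  have h1 := ncard_sdiff_submod S S' x x'
  have h2 := ncard_sdiff_submod x x' y y'
  have h3 := rk_submod' M₀ y y'
  unfold cutv
  omega

theorem Lk.le_cutv {X x y : Set τ} (hX : Lk G M₀ X) (hv : Valid G x y) :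
    (X.ncard : ℤ) ≤ cutv M₀ X x y := by
  classical
  obtain ⟨Y, hY, hL⟩ := hX
  obtain ⟨⟨m, hm1, hm2, hm3⟩, j, hj1, hj2⟩ := map_of_linked hL
  have e1 : X.ncard ≤ Y.ncard := Set.ncard_le_ncard_of_injOn j hj2 hj1 (Set.toFinite _)
  have e2 : (xᶜ \ X).ncard ≤ ((yᶜ ∪ xᶜ) \ Y).ncard := by
    refine Set.ncard_le_ncard_of_injOn m (fun t ht => ⟨?_, hm3 t ht.2⟩)
      (hm1.mono fun t ht => ht.2) (Set.toFinite _)
    rcases hm2 t ht.2 with h | h
    · rw [h]
      exact Or.inr ht.1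
    · exact Or.inl fun hy => ht.1 (hv _ _ h hy)
  have e3 : rk M₀ (Y ∩ y) = (Y ∩ y).ncard := rk_indep' M₀ (hY.subset inter_subset_left)
  have e4 : rk M₀ (Y ∩ y) ≤ rk M₀ y := rk_mono' M₀ inter_subset_right
  have e5 : ((yᶜ ∪ xᶜ)).ncard = (xᶜ).ncard + (x \ y).ncard := by
    rw [← Set.ncard_union_eq (s := xᶜ) (t := x \ y)]
    · congr 1
      ext t
      simp only [mem_union, mem_compl_iff, mem_sdiff]
      tauto
    · rw [Set.disjoint_left]
      intro t h1 h2
      exact h1 h2.1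
  have e6 : ((yᶜ ∪ xᶜ) ∩ Y).ncard + ((yᶜ ∪ xᶜ) \ Y).ncard = (yᶜ ∪ xᶜ).ncard :=
    Set.ncard_inter_add_ncard_sdiff_eq_ncard _ _ (Set.toFinite _)
  have e7 : (xᶜ ∩ X).ncard + (xᶜ \ X).ncard = (xᶜ).ncard :=
    Set.ncard_inter_add_ncard_sdiff_eq_ncard _ _ (Set.toFinite _)
  have e8 : (Y ∩ (yᶜ ∪ xᶜ)).ncard + (Y \ (yᶜ ∪ xᶜ)).ncard = Y.ncard :=
    Set.ncard_inter_add_ncard_sdiff_eq_ncard _ _ (Set.toFinite _)
  have e9 : (Y \ (yᶜ ∪ xᶜ)).ncard ≤ (Y ∩ y).ncard := by
    refine Set.ncard_le_ncard (fun t ht => ⟨ht.1, ?_⟩) (Set.toFinite _)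
    by_contra h
    exact ht.2 (Or.inl h)
  have e10 : X \ x = xᶜ ∩ X := by
    ext t
    simp only [mem_sdiff, mem_inter_iff, mem_compl_iff]
    tauto
  have e11 : Y ∩ (yᶜ ∪ xᶜ) = (yᶜ ∪ xᶜ) ∩ Y := inter_comm _ _
  unfold cutv
  rw [e10]
  rw [e11] at e8
  omega

theorem lk_of_le_cutv {X : Set τ} (hX : ∀ x y, Valid G x y → (X.ncard : ℤ) ≤ cutv M₀ X x y) :
    Lk G M₀ X := by
  classical
  have : Fintype τ := Fintype.ofFinite τ
  set k : ℤ := (X.ncard : ℤ) with hk
  set ρ : Finset τ → ℤ := fun S => S.card + min (rk M₀ ((↑S : Set τ)ᶜ)) k - k with hρ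
  set Γ : {t // t ∉ X} → Finset τ := fun t => Finset.univ.filter fun s => s = t.1 ∨ G s t.1 with hΓ
  have hmono : ∀ S S', S ⊆ S' → ρ S ≤ ρ S' := by
    intro S S' h
    have h1 : rk M₀ ((↑S : Set τ)ᶜ) ≤
        rk M₀ ((↑S' : Set τ)ᶜ) + ((S' \ S : Finset τ) : Set τ).ncard := by
      refine le_trans (rk_mono' M₀ ?_) (rk_union_le' M₀ _ _)
      intro t ht
      by_cases ht' : t ∈ S'
      · exact Or.inr (by
          simp only [Finset.coe_sdiff, mem_sdiff, Finset.mem_coe]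
          exact ⟨ht', ht⟩)
      · exact Or.inl ht'
    rw [Set.ncard_coe_finset] at h1
    have h2 : (S' \ S).card + S.card = S'.card := Finset.card_sdiff_add_card_eq_card h
    show (S.card : ℤ) + min (rk M₀ ((↑S : Set τ)ᶜ)) k - k ≤
      S'.card + min (rk M₀ ((↑S' : Set τ)ᶜ)) k - k
    omega
  have hsub : ∀ S S', ρ (S ∪ S') + ρ (S ∩ S') ≤ ρ S + ρ S' := by
    intro S S'
    have h1 := trunc_submod M₀ k ((↑S : Set τ)ᶜ) ((↑S' : Set τ)ᶜ)
    have h2 := Finset.card_union_add_card_inter S S'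
    have e1 : ((S ∪ S' : Finset τ) : Set τ)ᶜ = ((↑S : Set τ)ᶜ) ∩ ((↑S' : Set τ)ᶜ) := by
      rw [Finset.coe_union, compl_union]
    have e2 : ((S ∩ S' : Finset τ) : Set τ)ᶜ = ((↑S : Set τ)ᶜ) ∪ ((↑S' : Set τ)ᶜ) := by
      rw [Finset.coe_inter, compl_inter]
    show ((S ∪ S').card : ℤ) + min (rk M₀ (((S ∪ S' : Finset τ) : Set τ)ᶜ)) k - k +
      (((S ∩ S').card : ℤ) + min (rk M₀ (((S ∩ S' : Finset τ) : Set τ)ᶜ)) k - k) ≤
      S.card + min (rk M₀ ((↑S : Set τ)ᶜ)) k - k + (S'.card + min (rk M₀ ((↑S' : Set τ)ᶜ)) k - k)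
    rw [e1, e2]
    omega
  have hle : ∀ S, ρ S ≤ S.card := by
    intro S
    show (S.card : ℤ) + min (rk M₀ ((↑S : Set τ)ᶜ)) k - k ≤ S.card
    omega
  have hall : ∀ Q : Finset {t // t ∉ X}, (Q.card : ℤ) ≤ ρ (Q.biUnion Γ) := by
    intro Q
    set Q' : Finset τ := Q.map ⟨Subtype.val, Subtype.val_injective⟩ with hQ'
    set W : Finset τ := Q.biUnion Γ with hW
    have hQW : Q' ⊆ W := by
      intro t ht
      rw [hQ', Finset.mem_map] at ht
      obtain ⟨q, hq, rfl⟩ := ht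
      rw [hW, Finset.mem_biUnion]
      exact ⟨q, hq, by rw [hΓ]; simp⟩
    have hQX : ∀ t ∈ Q', t ∉ X := by
      intro t ht
      rw [hQ', Finset.mem_map] at ht
      obtain ⟨q, hq, rfl⟩ := ht
      exact q.2
    have hcard : Q'.card = Q.card := by rw [hQ', Finset.card_map]
    have h2 : Valid G ((↑Q' : Set τ)ᶜ) ((↑W : Set τ)ᶜ) := by
      intro u v hG hu hv
      apply hu
      have hv' : v ∈ Q' := hv
      rw [hQ', Finset.mem_map] at hv'
      obtain ⟨q, hq, rfl⟩ := hv'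
      rw [hW, Finset.mem_coe, Finset.mem_biUnion]
      exact ⟨q, hq, by rw [hΓ]; simp only [Finset.mem_filter, Finset.mem_univ, true_and]; exact Or.inr hG⟩
    have h3 := hX _ _ h2
    have h4 : X \ (↑Q' : Set τ)ᶜ = ∅ := by
      ext t
      simp only [mem_sdiff, mem_compl_iff, Finset.mem_coe, not_not, mem_empty_iff_false, iff_false,
        not_and]
      exact fun h h' => hQX t h' h
    have h5 : (↑Q' : Set τ)ᶜ \ (↑W : Set τ)ᶜ = ((W \ Q' : Finset τ) : Set τ) := by
      ext t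
      simp only [mem_sdiff, mem_compl_iff, Finset.mem_coe, not_not, Finset.mem_sdiff]
      tauto
    unfold cutv at h3
    rw [h4, h5, Set.ncard_coe_finset, Set.ncard_empty] at h3
    have h6 : (W \ Q').card + Q'.card = W.card := Finset.card_sdiff_add_card_eq_card hQW
    show (Q.card : ℤ) ≤ W.card + min (rk M₀ ((↑W : Set τ)ᶜ)) k - k
    omega
  obtain ⟨m, hm1, hm2⟩ := rado_abs ρ hmono hsub hle _ Γ rfl hall
  set m' : τ → τ := fun t => if h : t ∉ X then m ⟨t, h⟩ else t with hm'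
  have hm's : ∀ t (h : t ∉ X), m' t = m ⟨t, h⟩ := fun t h => by rw [hm']; simp [h]
  have hcardι : (Fintype.card {t // t ∉ X} : ℤ) = ((Xᶜ).ncard : ℤ) := by
    congr 1
    rw [← Nat.card_eq_fintype_card]
    rfl
  have hinj0 : Function.Injective m := by
    have h1 := hle (Finset.univ.image m)
    have h2 : (Finset.univ : Finset {t // t ∉ X}).card ≤ (Finset.univ.image m).card := by
      rw [Finset.card_univ]
      omega
    have h3 := Finset.card_image_iff.1 (le_antisymm Finset.card_image_le h2)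
    exact fun a b hab => h3 (Finset.mem_coe.2 (Finset.mem_univ a)) (Finset.mem_coe.2 (Finset.mem_univ b)) hab
  have hinj : InjOn m' Xᶜ := by
    intro a ha b hb hab
    rw [hm's a ha, hm's b hb] at hab
    exact congrArg Subtype.val (hinj0 hab)
  have hG' : ∀ t ∉ X, m' t = t ∨ G (m' t) t := by
    intro t ht
    have := hm1 ⟨t, ht⟩
    rw [hΓ] at this
    simp only [Finset.mem_filter, Finset.mem_univ, true_and] at this
    rw [hm's t ht]
    exact this
  obtain ⟨P, hP1, hP2, hP3, hP4, -⟩ := linked_of_map _ m' X rfl hinj hG'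
  refine ⟨_, ?_, P, hP1, hP2, hP3, hP4⟩
  -- independence of the complement of the image
  have himg : ((Finset.univ.image m : Finset τ) : Set τ) = m' '' Xᶜ := by
    ext t
    simp only [Finset.coe_image, Finset.coe_univ, image_univ, mem_range, Subtype.exists, mem_image,
      mem_compl_iff]
    constructor
    · rintro ⟨a, ha, rfl⟩
      exact ⟨a, ha, hm's a ha⟩
    · rintro ⟨a, ha, rfl⟩
      exact ⟨a, ha, (hm's a ha).symm⟩
  have c1 : (m' '' Xᶜ).ncard = (Xᶜ).ncard := hinj.ncard_image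
  have c2 : (m' '' Xᶜ).ncard + ((m' '' Xᶜ)ᶜ).ncard = Nat.card τ := Set.ncard_add_ncard_compl _
  have c3 : X.ncard + (Xᶜ).ncard = Nat.card τ := Set.ncard_add_ncard_compl _
  have c5 : (Fintype.card {t // t ∉ X} : ℤ) ≤ (Finset.univ.image m).card +
    min (rk M₀ (((Finset.univ.image m : Finset τ) : Set τ)ᶜ)) k - k := hm2
  have c6 : ((Finset.univ.image m).card : ℤ) = (m' '' Xᶜ).ncard := by
    rw [← himg, Set.ncard_coe_finset]
  rw [himg] at c5
  apply indep_of_rk' M₀
  omega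

theorem lk_iff {X : Set τ} : Lk G M₀ X ↔ ∀ x y, Valid G x y → (X.ncard : ℤ) ≤ cutv M₀ X x y :=
  ⟨fun h _ _ hv => h.le_cutv hv, lk_of_le_cutv⟩

theorem Lk.subset {X X' : Set τ} (h : Lk G M₀ X) (hs : X' ⊆ X) : Lk G M₀ X' := by
  rw [lk_iff] at h ⊢
  intro x y hv
  have h1 := h x y hv
  have h2 : (X \ x).ncard ≤ (X' \ x).ncard + (X \ X').ncard := by
    refine le_trans (Set.ncard_le_ncard ?_ (Set.toFinite _)) (Set.ncard_union_le _ _)
    intro t ht
    by_cases h : t ∈ X'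
    · exact Or.inl ⟨h, ht.2⟩
    · exact Or.inr ⟨ht.1, h⟩
  have h3 : (X \ X').ncard + X'.ncard = X.ncard := Set.ncard_sdiff_add_ncard_of_subset hs (Set.toFinite _)
  unfold cutv at h1 ⊢
  omega

/-- A cut of minimum value. -/
theorem exists_min_cut (G : τ → τ → Prop) (M₀ : Matroid τ) (B : Set τ) :
    ∃ p : Set τ × Set τ, Valid G p.1 p.2 ∧
      ∀ x y, Valid G x y → cutv M₀ B p.1 p.2 ≤ cutv M₀ B x y := by
  obtain ⟨p, hp, hmin⟩ := Set.exists_min_image {p : Set τ × Set τ | Valid G p.1 p.2}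
    (fun p => cutv M₀ B p.1 p.2) (Set.toFinite _) ⟨(∅, ∅), Valid.empty G⟩
  exact ⟨p, hp, fun x y h => hmin (x, y) h⟩

/-- The minimum value of a cut. -/
noncomputable def mc (G : τ → τ → Prop) (M₀ : Matroid τ) (B : Set τ) : ℤ :=
  cutv M₀ B (exists_min_cut G M₀ B).choose.1 (exists_min_cut G M₀ B).choose.2

theorem mc_le {B x y : Set τ} (h : Valid G x y) : mc G M₀ B ≤ cutv M₀ B x y :=
  (exists_min_cut G M₀ B).choose_spec.2 x y h

theorem exists_mc (G : τ → τ → Prop) (M₀ : Matroid τ) (B : Set τ) :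
    ∃ x y, Valid G x y ∧ mc G M₀ B = cutv M₀ B x y :=
  ⟨_, _, (exists_min_cut G M₀ B).choose_spec.1, rfl⟩

theorem lk_iff_mc {X : Set τ} : Lk G M₀ X ↔ (X.ncard : ℤ) ≤ mc G M₀ X := by
  rw [lk_iff]
  constructor
  · intro h
    obtain ⟨x, y, hv, e⟩ := exists_mc G M₀ X
    rw [e]
    exact h x y hv
  · intro h x y hv
    exact h.trans (mc_le hv)

theorem mc_submod (S S' : Set τ) : mc G M₀ (S ∪ S') + mc G M₀ (S ∩ S') ≤ mc G M₀ S + mc G M₀ S' := by
  obtain ⟨x, y, hv, e⟩ := exists_mc G M₀ S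
  obtain ⟨x', y', hv', e'⟩ := exists_mc G M₀ S'
  have h1 := mc_le (M₀ := M₀) (B := S ∪ S') (hv.union hv')
  have h2 := mc_le (M₀ := M₀) (B := S ∩ S') (hv.inter hv')
  have h3 := cutv_submod (M₀ := M₀) S S' x y x' y'
  omega

theorem mc_mono {S S' : Set τ} (h : S ⊆ S') : mc G M₀ S ≤ mc G M₀ S' := by
  obtain ⟨x, y, hv, e⟩ := exists_mc G M₀ S'
  refine le_trans (mc_le hv) ?_
  rw [e]
  unfold cutv
  have : (S \ x).ncard ≤ (S' \ x).ncard :=
    Set.ncard_le_ncard (fun t ht => ⟨h ht.1, ht.2⟩) (Set.toFinite _)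
  omega

theorem mc_le_ncard (S : Set τ) : mc G M₀ S ≤ S.ncard := by
  refine le_trans (mc_le (Valid.empty G)) (le_of_eq ?_)
  unfold cutv
  have : rk M₀ (∅ : Set τ) = 0 := rk_empty M₀
  rw [this]
  simp

/-- If no element can be added to `X` then the cut function stays at `|X|`. -/
theorem mc_absorb {X : Set τ} (hX : Lk G M₀ X) (S : Set τ)
    (hS : ∀ b ∈ S, b ∉ X → mc G M₀ (insert b X) ≤ X.ncard) : mc G M₀ (X ∪ S) ≤ X.ncard := by
  have hX' := lk_iff_mc.1 hX
  refine Set.Finite.induction_on_subset (motive := fun T _ => mc G M₀ (X ∪ T) ≤ X.ncard) S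
    (Set.toFinite S) ?_ ?_
  · rw [union_empty]
    exact mc_le_ncard X
  · intro b T hb hT hbT ih
    by_cases hbX : b ∈ X
    · have : X ∪ insert b T = X ∪ T := by
        ext t
        simp only [mem_union, mem_insert_iff]
        constructor
        · rintro (h | rfl | h)
          · exact Or.inl h
          · exact Or.inl hbX
          · exact Or.inr h
        · tauto
      rw [this]
      exact ih
    · have h2 := hS b hb hbX
      have h3 := mc_submod (G := G) (M₀ := M₀) (X ∪ T) (insert b X)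
      have e1 : (X ∪ T) ∪ insert b X = X ∪ insert b T := by
        ext t
        simp only [mem_union, mem_insert_iff]
        tauto
      have e2 : (X ∪ T) ∩ insert b X = X := by
        ext t
        simp only [mem_union, mem_insert_iff, mem_inter_iff]
        constructor
        · rintro ⟨h1 | h1, h2 | h2⟩
          · exact h1
          · exact h1
          · subst h2
            exact absurd h1 hbT
          · exact h2
        · exact fun h => ⟨Or.inl h, Or.inr h⟩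
      rw [e1, e2] at h3
      omega

/-- Induced matroids exist. -/
theorem exists_induced (G : τ → τ → Prop) (M₀ : Matroid τ) (A : Set τ) :
    ∃ N : Matroid τ, IsInduced G M₀ A N := by
  classical
  refine ⟨(IndepMatroid.ofFinite (Set.toFinite A) (fun X => X ⊆ A ∧ Lk G M₀ X) ?_ ?_ ?_ ?_).matroid,
    rfl, fun X => Iff.rfl⟩
  · refine ⟨empty_subset _, lk_iff.2 fun x y _ => ?_⟩
    have := rk_nonneg' M₀ y
    unfold cutv
    simp only [ncard_empty]
    omega
  · intro I J hJ hIJ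
    exact ⟨hIJ.trans hJ.1, hJ.2.subset hIJ⟩
  · intro I J hI hJ hlt
    by_contra hcon
    push Not at hcon
    have h1 : ∀ b ∈ J, b ∉ I → mc G M₀ (insert b I) ≤ I.ncard := by
      intro b hb hbI
      by_contra h
      push Not at h
      refine hcon b hb hbI (insert_subset (hJ.1 hb) hI.1) (lk_iff_mc.2 ?_)
      rw [Set.ncard_insert_of_notMem hbI (Set.toFinite _)]
      push_cast
      omega
    have h2 := mc_absorb hI.2 J h1
    have h3 := lk_iff_mc.1 hJ.2
    have h4 := mc_mono (G := G) (M₀ := M₀) (subset_union_right : J ⊆ I ∪ J)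
    omega
  · exact fun I hI => hI.1

/-- The rank function of an induced matroid is given by minimum cuts. -/
theorem rk_induced {A : Set τ} {N : Matroid τ} (hN : IsInduced G M₀ A N) {B : Set τ} (hB : B ⊆ A) :
    rk N B = mc G M₀ B := by
  obtain ⟨hNE, hNI⟩ := hN
  obtain ⟨X, hX⟩ := N.exists_isBasis' B
  have hXB : X ⊆ B := hX.subset
  have hXi : Lk G M₀ X := ((hNI X).1 hX.indep).2
  have hrk : rk N B = X.ncard := by
    have h1 : N.eRk B = X.encard := hX.eRk_eq_encard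
    unfold rk
    rw [h1]
    rfl
  rw [hrk]
  apply le_antisymm
  · exact (lk_iff_mc.1 hXi).trans (mc_mono hXB)
  · have h1 : mc G M₀ (X ∪ B) ≤ X.ncard := by
      refine mc_absorb hXi B fun b hb hbX => ?_
      by_contra h
      push Not at h
      refine hbX (hX.mem_of_insert_indep hb ((hNI _).2 ⟨insert_subset (hB hb) (hXB.trans hB),
        lk_iff_mc.2 ?_⟩))
      rw [Set.ncard_insert_of_notMem hbX (Set.toFinite _)]
      push_cast
      omega
    rwa [union_eq_self_of_subset_left hXB] at h1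

end

end Pool.Agent.Helper442.FE
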