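import Mathlib
import Pool.Agent.Helper442.FE.Link

/-! Certificates: integer weights on the types of elements with respect to a family of sets. -/

set_option linter.unusedSectionVars false

namespace Pool.Agent.Helper442.FE

open Set

section weights

variable {ι : Type} [Fintype ι]

open Classical in
/-- The total weight of a family of types. -/
noncomputable def wt (h : Set ι → ℤ) (U : Set (Set ι)) : ℤ := ∑ σ : Set ι, if σ ∈ U then h σ else 0

/-- The number of elements of `S` of each type. -/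
noncomputable def cnt {β : Type} (S : Set β) (t : β → Set ι) : Set ι → ℤ :=
  fun σ => ({b | b ∈ S ∧ t b = σ}.ncard : ℤ)

open Classical in
/-- A point mass. -/
noncomputable def pm (σ : Set ι) (c : ℤ) : Set ι → ℤ := fun κ => if κ = σ then c else 0

theorem wt_add (h g : Set ι → ℤ) (U : Set (Set ι)) : wt (h + g) U = wt h U + wt g U := by
  unfold wt
  rw [← Finset.sum_add_distrib]
  refine Finset.sum_congr rfl fun σ _ => ?_
  split_ifs <;> simp

theorem wt_sub (h g : Set ι → ℤ) (U : Set (Set ι)) : wt (h - g) U = wt h U - wt g U := by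
  unfold wt
  rw [← Finset.sum_sub_distrib]
  refine Finset.sum_congr rfl fun σ _ => ?_
  split_ifs <;> simp

open Classical in
theorem wt_pm (σ : Set ι) (c : ℤ) (U : Set (Set ι)) : wt (pm σ c) U = if σ ∈ U then c else 0 := by
  unfold wt pm
  rw [Finset.sum_eq_single σ]
  · simp
  · intro κ _ hκ
    simp [hκ]
  · intro h
    exact absurd (Finset.mem_univ _) h

theorem wt_cnt {β : Type} {S : Set β} (hS : S.Finite) (t : β → Set ι) (U : Set (Set ι)) :
    wt (cnt S t) U = ({b | b ∈ S ∧ t b ∈ U}.ncard : ℤ) := by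
  classical
  have e : ∀ p : β → Prop, ({b | b ∈ S ∧ p b}.ncard : ℤ) = ∑ b ∈ hS.toFinset, if p b then (1 : ℤ) else 0 := by
    intro p
    rw [← Finset.sum_filter, Finset.sum_const, nsmul_eq_mul, mul_one, ← Set.ncard_coe_finset]
    congr 2
    ext b
    simp
  unfold wt cnt
  rw [e]
  have : ∀ σ : Set ι, (if σ ∈ U then (({b | b ∈ S ∧ t b = σ}.ncard : ℤ)) else 0) =
      ∑ b ∈ hS.toFinset, if σ ∈ U ∧ t b = σ then (1 : ℤ) else 0 := by
    intro σ
    rw [e]
    by_cases h : σ ∈ U
    · rw [if_pos h]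
      refine Finset.sum_congr rfl fun b _ => ?_
      by_cases h' : t b = σ <;> simp [h, h']
    · simp only [h, if_false, false_and, Finset.sum_const_zero]
  simp only [this]
  rw [Finset.sum_comm]
  refine Finset.sum_congr rfl fun b _ => ?_
  rw [Finset.sum_eq_single (t b)]
  · simp
  · intro σ _ hσ
    rw [if_neg]
    rintro ⟨_, h⟩
    exact hσ h.symm
  · intro h
    exact absurd (Finset.mem_univ _) h

theorem wt_compl (h : Set ι → ℤ) (U : Set (Set ι)) : wt h U + wt h Uᶜ = wt h univ := by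
  unfold wt
  rw [← Finset.sum_add_distrib]
  refine Finset.sum_congr rfl fun σ _ => ?_
  by_cases hσ : σ ∈ U <;> simp [hσ]

theorem wt_comp_compl (h : Set ι → ℤ) (U : Set (Set ι)) :
    wt (fun σ => h σᶜ) U = wt h {σ | σᶜ ∈ U} := by
  classical
  unfold wt
  refine Finset.sum_nbij' (fun σ => σᶜ) (fun σ => σᶜ) (by simp) (by simp) (by simp) (by simp) ?_
  intro σ _
  simp

end weights

section cert

variable {ι : Type} [Fintype ι] {α β : Type}

/-- The type of an element. -/
def ty (T : ι → Set α) (e : α) : Set ι := {i | e ∈ T i}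

/-- The elements of `E` whose type belongs to `U`. -/
def cell (E : Set α) (T : ι → Set α) (U : Set (Set ι)) : Set α := {e | e ∈ E ∧ ty T e ∈ U}

theorem mem_ty {T : ι → Set α} {e : α} {i : ι} : i ∈ ty T e ↔ e ∈ T i := Iff.rfl

theorem mem_cell {E : Set α} {T : ι → Set α} {U : Set (Set ι)} {e : α} :
    e ∈ cell E T U ↔ e ∈ E ∧ ty T e ∈ U := Iff.rfl

/-- The principal family of types at `i`. -/
def pr (i : ι) : Set (Set ι) := {σ | i ∈ σ}

theorem mem_pr {i : ι} {σ : Set ι} : σ ∈ pr i ↔ i ∈ σ := Iff.rfl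

theorem pr_upper (i : ι) : IsUpperSet (pr i) := fun _ _ h hi => h hi

theorem cell_pr {E : Set α} {T : ι → Set α} {i : ι} (h : T i ⊆ E) : cell E T (pr i) = T i := by
  ext e
  exact ⟨fun h' => h'.2, fun h' => ⟨h h', h'⟩⟩

/-- A certificate for the family `T` of subsets of the ground set of `M`: an integer weight on the
set of types for which every upper set has weight at least the rank of its elements, with equality
for the sets of the family. -/
def Cert (M : Matroid α) (T : ι → Set α) : Prop :=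
  ∃ h : Set ι → ℤ, (∀ U : Set (Set ι), IsUpperSet U → rk M (cell M.E T U) ≤ wt h U) ∧
    ∀ i, wt h (pr i) ≤ rk M (T i)

theorem upper_eq_univ {U : Set (Set ι)} (hU : IsUpperSet U) (h : (∅ : Set ι) ∈ U) : U = univ := by
  ext σ
  exact ⟨fun _ => mem_univ _, fun _ => hU (empty_subset σ) h⟩

open scoped Matroid in
theorem Cert.restrict {M : Matroid α} (hM : M.E.Finite) {T : ι → Set α} {A : Set α} (hA : A ⊆ M.E)
    (hT : ∀ i, T i ⊆ A) (h : Cert M T) : Cert (M ↾ A) T := by
  obtain ⟨h, h1, h2⟩ := h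
  have e : ∀ S ⊆ A, rk (M ↾ A) S = rk M S := by
    intro S hS
    unfold rk
    rw [Matroid.restrict_eRk_eq _ hS]
  refine ⟨h, fun U hU => ?_, fun i => ?_⟩
  · have hs : cell (M ↾ A).E T U ⊆ A := fun x hx => hx.1
    rw [e _ hs]
    refine le_trans (rk_mono hM ?_) (h1 U hU)
    exact fun x hx => ⟨hA hx.1, hx.2⟩
  · rw [e _ (hT i)]
    exact h2 i

open scoped Matroid in
theorem Cert.dual {M : Matroid α} (hM : M.E.Finite) {T : ι → Set α} (hT : ∀ i, T i ⊆ M.E)
    (h : Cert M (fun i => M.E \ T i)) : Cert M✶ T := by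
  classical
  obtain ⟨h, h1, h2⟩ := h
  set R := rk M M.E with hR
  set h' : Set ι → ℤ := h - pm ∅ (wt h univ - R) with hh'
  have hne : ∀ U : Set (Set ι), (∅ : Set ι) ∉ U → wt h' U = wt h U := by
    intro U hU
    rw [hh', wt_sub, wt_pm, if_neg hU, sub_zero]
  have hall : wt h' univ = R := by
    rw [hh', wt_sub, wt_pm, if_pos (mem_univ _)]
    ring
  set g : Set ι → ℤ := cnt M.E (ty T) - (fun σ => h' σᶜ) with hg
  have hgU : ∀ U : Set (Set ι), wt g U = ((cell M.E T U).ncard : ℤ) - R + wt h' {κ | κᶜ ∉ U} := by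
    intro U
    rw [hg, wt_sub, wt_cnt hM, wt_comp_compl]
    have := wt_compl h' {σ | σᶜ ∈ U}
    rw [hall] at this
    have e : {κ : Set ι | κᶜ ∉ U} = {σ : Set ι | σᶜ ∈ U}ᶜ := rfl
    rw [e]
    have e2 : {b | b ∈ M.E ∧ ty T b ∈ U} = cell M.E T U := rfl
    rw [e2]
    linarith
  have hty : ∀ e ∈ M.E, (ty (fun i => M.E \ T i) e)ᶜ = ty T e := by
    intro e he
    ext i
    simp only [ty, mem_compl_iff, mem_ofPred_eq, mem_sdiff, he, true_and, not_not]
  refine ⟨g, fun U hU => ?_, fun i => ?_⟩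
  · rw [hgU]
    have hsub : cell M.E T U ⊆ M.E := fun x hx => hx.1
    show rk M✶ (cell M.E T U) ≤ _
    have e1 : rk M✶ (cell M.E T U) = (cell M.E T U).ncard + rk M (M.E \ cell M.E T U) - rk M M.E :=
      rk_dual hM hsub
    rw [e1]
    have hV : IsUpperSet {κ : Set ι | κᶜ ∉ U} := by
      intro κ κ' hle hκ hκ'
      exact hκ (hU (compl_subset_compl.2 hle) hκ')
    have e2 : cell M.E (fun i => M.E \ T i) {κ : Set ι | κᶜ ∉ U} = M.E \ cell M.E T U := by
      ext e
      constructor
      · rintro ⟨he, hn⟩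
        refine ⟨he, fun hc => hn ?_⟩
        rw [hty e he]
        exact hc.2
      · rintro ⟨he, hn⟩
        refine ⟨he, fun hc => hn ⟨he, ?_⟩⟩
        rw [hty e he] at hc
        exact hc
    by_cases hemp : (∅ : Set ι) ∈ {κ : Set ι | κᶜ ∉ U}
    · have e3 := upper_eq_univ hV hemp
      rw [e3, hall]
      have h3 : rk M (M.E \ cell M.E T U) ≤ R := rk_mono hM sdiff_subset
      linarith
    · rw [hne _ hemp]
      have h3 := h1 _ hV
      rw [e2] at h3
      linarith
  · rw [hgU]
    have e3 : {κ : Set ι | κᶜ ∉ pr i} = pr i := by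
      ext κ
      simp [pr]
    have e1 : rk M✶ (T i) = _ := rk_dual hM (hT i)
    rw [e1, e3, hne (pr i) (show (∅ : Set ι) ∉ pr i from fun h => h), cell_pr (hT i)]
    have := h2 i
    linarith

theorem rk_iso {M : Matroid α} {N : Matroid β} (hM : M.E.Finite) (hN : N.E.Finite)
    (e : M.E ≃ N.E) (he : ∀ I : Set M.E,
      M.Indep (Subtype.val '' I) ↔ N.Indep (Subtype.val '' (e '' I))) {A : Set β} (hA : A ⊆ N.E) :
    rk N A = rk M (Subtype.val '' (e ⁻¹' (Subtype.val ⁻¹' A))) := by
  set A' : Set N.E := Subtype.val ⁻¹' A with hA'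
  have eA : Subtype.val '' A' = A := by
    ext y
    constructor
    · rintro ⟨y, hy, rfl⟩; exact hy
    · intro hy; exact ⟨⟨y, hA hy⟩, hy, rfl⟩
  set B : Set M.E := e ⁻¹' A' with hB
  have eB : e '' B = A' := Set.image_preimage_eq _ e.surjective
  apply le_antisymm
  · have h1 := rk_iso_le hN hM e.symm (fun I hI => by
      rw [he, e.image_symm_eq_preimage, Set.image_preimage_eq _ e.surjective]; exact hI) A'
    rw [eA, e.image_symm_eq_preimage] at h1
    exact h1
  · have h1 := rk_iso_le hM hN e (fun I hI => (he I).1 hI) B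
    rw [eB, eA] at h1
    exact h1

theorem Cert.iso {M : Matroid α} {N : Matroid β} (hM : M.E.Finite) (hN : N.E.Finite)
    (e : M.E ≃ N.E) (he : ∀ I : Set M.E,
      M.Indep (Subtype.val '' I) ↔ N.Indep (Subtype.val '' (e '' I))) {T : ι → Set β}
    (hT : ∀ i, T i ⊆ N.E)
    (h : Cert M (fun i => (Subtype.val '' (e ⁻¹' (Subtype.val ⁻¹' (T i))) : Set α))) :
    Cert N T := by
  obtain ⟨h, h1, h2⟩ := h
  refine ⟨h, fun U hU => ?_, fun i => ?_⟩
  · rw [rk_iso hM hN e he (fun x hx => hx.1)]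
    refine le_trans (rk_mono hM ?_) (h1 U hU)
    rintro _ ⟨x, hx, rfl⟩
    refine ⟨x.2, ?_⟩
    have h3 : (e x : β) ∈ cell N.E T U := hx
    have h4 : ty (fun i => (Subtype.val '' (e ⁻¹' (Subtype.val ⁻¹' (T i))) : Set α)) x =
        ty T (e x : β) := by
      ext i
      constructor
      · rintro ⟨y, hy, hyx⟩
        have : y = x := Subtype.ext hyx
        subst this
        exact hy
      · intro hx'
        exact ⟨x, hx', rfl⟩
    rw [h4]
    exact h3.2
  · rw [rk_iso hM hN e he (hT i)]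
    exact h2 i

theorem Cert.sum {M : Matroid α} {N : Matroid β} (hM : M.E.Finite) (hN : N.E.Finite)
    {T : ι → Set (α ⊕ β)} (h : Cert M (fun i => Sum.inl ⁻¹' (T i)))
    (h' : Cert N (fun i => Sum.inr ⁻¹' (T i))) : Cert (M.sum N) T := by
  obtain ⟨h, h1, h2⟩ := h
  obtain ⟨g, g1, g2⟩ := h'
  refine ⟨h + g, fun U hU => ?_, fun i => ?_⟩
  · rw [wt_add, rk_sum hM hN]
    refine add_le_add (le_trans (rk_mono hM ?_) (h1 U hU)) (le_trans (rk_mono hN ?_) (g1 U hU))
    · rintro x ⟨hx1, hx2⟩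
      exact ⟨by simpa using hx1, hx2⟩
    · rintro x ⟨hx1, hx2⟩
      exact ⟨by simpa using hx1, hx2⟩
  · rw [wt_add, rk_sum hM hN]
    exact add_le_add (h2 i) (g2 i)

end cert

end Pool.Agent.Helper442.FE
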