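import Mathlib
import Pool.Agent.Helper442.FE.Cert

/-! The matroids all of whose families of `n` sets have certificates form a complete class. -/

set_option linter.unusedSectionVars false

namespace Pool.Agent.Helper442.FE

open Set

section

variable {ι : Type} [Fintype ι] {α : Type}

theorem ty_inter {T : ι → Set α} {E : Set α} {e : α} (he : e ∈ E) :
    ty (fun i => T i ∩ E) e = ty T e := by
  ext i
  exact ⟨fun h => h.1, fun h => ⟨h, he⟩⟩

open Classical in
theorem Cert.truncate {M T' : Matroid α} {k : ℕ} (hM : M.E.Finite) (hk : (k : ℤ) ≤ rk M M.E)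
    (hT' : IsTruncation M k T') {T : ι → Set α} (hT : ∀ i, T i ⊆ M.E)
    (h : Cert M (fun i => if (k : ℤ) < rk M (T i) then M.E else T i)) : Cert T' T := by
  obtain ⟨h, h1, h2⟩ := h
  set J : Set ι := {i | (k : ℤ) < rk M (T i)} with hJ
  have hE : T'.E = M.E := hT'.1
  refine ⟨h - pm J (rk M M.E - k), fun U hU => ?_, fun i => ?_⟩
  · rw [rk_truncation hM hT', wt_sub, wt_pm]
    have h3 := h1 U hU
    have hsub : cell T'.E T U ⊆ cell M.E (fun i => if (k : ℤ) < rk M (T i) then M.E else T i) U := by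
      rintro e ⟨he, hu⟩
      rw [hE] at he
      refine ⟨he, hU ?_ hu⟩
      intro i hi
      show e ∈ (if (k : ℤ) < rk M (T i) then M.E else T i)
      split_ifs
      · exact he
      · exact hi
    split_ifs with hJU
    · have h4 : M.E ⊆ cell M.E (fun i => if (k : ℤ) < rk M (T i) then M.E else T i) U := by
        intro e he
        refine ⟨he, hU ?_ hJU⟩
        intro i hi
        have hi' : (k : ℤ) < rk M (T i) := hi
        show e ∈ (if (k : ℤ) < rk M (T i) then M.E else T i)
        rw [if_pos hi']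
        exact he
      have h5 := rk_mono hM h4
      have h6 := min_le_right (rk M (cell T'.E T U)) (k : ℤ)
      linarith
    · have h5 := rk_mono hM hsub
      have h6 := min_le_left (rk M (cell T'.E T U)) (k : ℤ)
      linarith
  · rw [rk_truncation hM hT', wt_sub, wt_pm]
    have h3 : wt h (pr i) ≤ rk M (if (k : ℤ) < rk M (T i) then M.E else T i) := h2 i
    by_cases hi : (k : ℤ) < rk M (T i)
    · have hi' : J ∈ pr i := hi
      rw [if_pos hi']
      rw [if_pos hi] at h3
      rw [min_eq_right hi.le]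
      linarith
    · have hi' : J ∉ pr i := hi
      rw [if_neg hi']
      rw [if_neg hi] at h3
      rw [min_eq_left (not_lt.1 hi)]
      linarith

end

section

variable {ι : Type} [Fintype ι] {τ : Type} [Finite τ]

theorem Cert.induce {G : τ → τ → Prop} {M₀ N : Matroid τ} {A : Set τ} (hN : IsInduced G M₀ A N)
    {T : ι → Set τ} (hT : ∀ i, T i ⊆ A) {x y : ι → Set τ} (hv : ∀ i, Valid G (x i) (y i))
    (hmc : ∀ i, mc G M₀ (T i) = cutv M₀ (T i) (x i) (y i))
    (h : Cert M₀ (fun i => y i ∩ M₀.E)) : Cert N T := by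
  classical
  obtain ⟨h, h1, h2⟩ := h
  have hf : (univ : Set τ).Finite := Set.toFinite _
  refine ⟨h + (cnt univ (fun v => ty T v ∪ ty x v) - cnt univ (ty x)) +
    (cnt univ (fun v => ty x v ∪ ty y v) - cnt univ (ty y)), fun U hU => ?_, fun i => ?_⟩
  · rw [wt_add, wt_add, wt_sub, wt_sub, wt_cnt hf, wt_cnt hf, wt_cnt hf, wt_cnt hf]
    set B : Set τ := cell N.E T U with hB
    set X : Set τ := {v | ty x v ∈ U} with hX
    set Y : Set τ := {v | ty y v ∈ U} with hY
    have hval : Valid G X Y := by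
      intro u v hG hu
      refine hU ?_ hu
      intro i hi
      exact hv i u v hG hi
    have hBA : B ⊆ A := by
      intro b hb
      have := hb.1
      rwa [hN.1] at this
    have e1 : rk N B ≤ cutv M₀ B X Y := by
      rw [rk_induced hN hBA]
      exact mc_le hval
    have e2 : rk M₀ Y ≤ wt h U := by
      have := h1 U hU
      have e : cell M₀.E (fun i => y i ∩ M₀.E) U = Y ∩ M₀.E := by
        ext v
        constructor
        · rintro ⟨hv1, hv2⟩
          rw [ty_inter hv1] at hv2
          exact ⟨hv2, hv1⟩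
        · rintro ⟨hv1, hv2⟩
          refine ⟨hv2, ?_⟩
          rw [ty_inter hv2]
          exact hv1
      rw [e, rk_inter_ground] at this
      exact this
    have e3 : X.ncard + (B \ X).ncard ≤ {b | b ∈ (univ : Set τ) ∧ ty T b ∪ ty x b ∈ U}.ncard := by
      rw [← Set.ncard_union_eq disjoint_sdiff_right]
      refine Set.ncard_le_ncard ?_ (Set.toFinite _)
      rintro v (hv | hv)
      · exact ⟨mem_univ _, hU subset_union_right hv⟩
      · exact ⟨mem_univ _, hU subset_union_left hv.1.2⟩
    have e4 : Y.ncard + (X \ Y).ncard ≤ {b | b ∈ (univ : Set τ) ∧ ty x b ∪ ty y b ∈ U}.ncard := by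
      rw [← Set.ncard_union_eq disjoint_sdiff_right]
      refine Set.ncard_le_ncard ?_ (Set.toFinite _)
      rintro v (hv | hv)
      · exact ⟨mem_univ _, hU subset_union_right hv⟩
      · exact ⟨mem_univ _, hU subset_union_left hv.1⟩
    have e5 : {b | b ∈ (univ : Set τ) ∧ ty x b ∈ U} = X := by
      ext v; simp [hX]
    have e6 : {b | b ∈ (univ : Set τ) ∧ ty y b ∈ U} = Y := by
      ext v; simp [hY]
    rw [e5, e6]
    unfold cutv at e1
    omega
  · rw [wt_add, wt_add, wt_sub, wt_sub, wt_cnt hf, wt_cnt hf, wt_cnt hf, wt_cnt hf]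
    have e1 : rk N (T i) = cutv M₀ (T i) (x i) (y i) := by
      rw [rk_induced hN (hT i), hmc]
    have e2 : wt h (pr i) ≤ rk M₀ (y i) := by
      have := h2 i
      rwa [rk_inter_ground] at this
    have e3 : {b | b ∈ (univ : Set τ) ∧ ty T b ∪ ty x b ∈ pr i} = x i ∪ (T i \ x i) := by
      ext v
      simp only [mem_univ, true_and, mem_ofPred_eq, mem_pr, mem_union, mem_ty, mem_sdiff]
      tauto
    have e4 : {b | b ∈ (univ : Set τ) ∧ ty x b ∪ ty y b ∈ pr i} = y i ∪ (x i \ y i) := by
      ext v
      simp only [mem_univ, true_and, mem_ofPred_eq, mem_pr, mem_union, mem_ty, mem_sdiff]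
      tauto
    have e5 : {b | b ∈ (univ : Set τ) ∧ ty x b ∈ pr i} = x i := by
      ext v; simp [mem_pr, mem_ty]
    have e6 : {b | b ∈ (univ : Set τ) ∧ ty y b ∈ pr i} = y i := by
      ext v; simp [mem_pr, mem_ty]
    rw [e3, e4, e5, e6, Set.ncard_union_eq disjoint_sdiff_right,
      Set.ncard_union_eq disjoint_sdiff_right, e1]
    unfold cutv
    push_cast
    linarith

end

/-- The matroids for which all families of `n` sets have certificates. -/
def Gn (n : ℕ) : MClass := fun _ M => M.E.Finite ∧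
  ∀ T : Fin n → Set _, (∀ i, T i ⊆ M.E) → Cert M T

theorem rk_ground_eq {α : Type} {M : Matroid α} {k : ℕ} (hM : M.E.Finite)
    (hk : (k : ℕ∞) ≤ M.eRank) : (k : ℤ) ≤ rk M M.E := by
  rw [le_rk_iff hM, ← Matroid.eRank_def]
  exact hk

open scoped Matroid in
theorem gn_restrict {n : ℕ} {α : Type} {M : Matroid α} (h : Gn n α M) {A : Set α} (hA : A ⊆ M.E) :
    Gn n α (M ↾ A) :=
  ⟨h.1.subset hA, fun T hT => (h.2 T fun i => (hT i).trans hA).restrict h.1 hA hT⟩

open scoped Matroid in
theorem gn_dual {n : ℕ} {α : Type} {M : Matroid α} (h : Gn n α M) : Gn n α M✶ :=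
  ⟨h.1, fun T hT => (h.2 _ fun _ => sdiff_subset).dual h.1 hT⟩

theorem gn_isComplete (n : ℕ) : IsComplete (Gn n) where
  finite h := h.1
  iso := by
    rintro α β M N ⟨e, he⟩ ⟨hM, h⟩
    have hN : N.E.Finite := by
      have : Finite M.E := hM
      have : Finite N.E := Finite.of_equiv _ e
      exact Set.toFinite _
    refine ⟨hN, fun T hT => Cert.iso hM hN e he hT (h _ ?_)⟩
    rintro i _ ⟨x, _, rfl⟩
    exact x.2
  restrict h A hA := gn_restrict h hA
  contract h A _ := gn_dual (gn_restrict (gn_dual h) (A := _ \ A) sdiff_subset)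
  dual h := gn_dual h
  directSum := by
    rintro α β M N ⟨hM, h⟩ ⟨hN, h'⟩
    refine ⟨?_, fun T hT => Cert.sum hM hN (h _ ?_) (h' _ ?_)⟩
    · rw [Matroid.sum_ground]
      exact (hM.image _).union (hN.image _)
    · intro i x hx
      simpa using hT i hx
    · intro i x hx
      simpa using hT i hx
  truncate := by
    rintro α M T k ⟨hM, h⟩ hk hT
    classical
    refine ⟨hT.1 ▸ hM, fun S hS => ?_⟩
    have hS' : ∀ i, S i ⊆ M.E := fun i => hT.1 ▸ hS i
    refine Cert.truncate hM (rk_ground_eq hM hk) hT hS' (h _ fun i => ?_)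
    split_ifs
    · exact subset_refl _
    · exact hS' i
  induce := by
    rintro τ hτ G M₀ N A ⟨_, h⟩ hN
    refine ⟨Set.toFinite _, fun T hT => ?_⟩
    have hT' : ∀ i, T i ⊆ A := fun i => hN.1 ▸ hT i
    choose x y hv hmc using fun i => exists_mc G M₀ (T i)
    exact Cert.induce hN hT' hv hmc (h _ fun i => inter_subset_right)

end Pool.Agent.Helper442.FE
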