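import Mathlib
import Pool.Agent.Helper442.FE.Gn

/-! A matroid with a certificate for the family of all subsets of its ground set is a gammoid. -/

set_option linter.unusedSectionVars false

namespace Pool.Agent.Helper442.FE

open Set

section

variable {ι : Type} [Fintype ι]

/-- An integer weight is a difference of two counting weights. -/
theorem exists_count (h : Set ι → ℤ) : ∃ (C K : Type) (_ : Finite C) (_ : Finite K)
    (tc : C → Set ι) (tk : K → Set ι), ∀ U : Set (Set ι),
      wt h U = ({c | tc c ∈ U}.ncard : ℤ) - ({k | tk k ∈ U}.ncard : ℤ) := by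
  classical
  have key : ∀ f : Set ι → ℕ, ∀ U : Set (Set ι),
      wt (fun σ => (f σ : ℤ)) U = ({c : Σ σ : Set ι, Fin (f σ) | c.1 ∈ U}.ncard : ℤ) := by
    intro f U
    have h1 := wt_cnt (Set.toFinite (univ : Set (Σ σ : Set ι, Fin (f σ)))) (fun c => c.1) U
    have h2 : {b : Σ σ : Set ι, Fin (f σ) | b ∈ (univ : Set (Σ σ : Set ι, Fin (f σ))) ∧ b.1 ∈ U} =
        {c : Σ σ : Set ι, Fin (f σ) | c.1 ∈ U} := by
      ext c; simp
    rw [h2] at h1
    rw [← h1]
    congr 1
    funext σ
    unfold cnt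
    congr 1
    have h3 : {b : Σ σ : Set ι, Fin (f σ) | b ∈ (univ : Set (Σ σ : Set ι, Fin (f σ))) ∧ b.1 = σ} =
        range (fun j : Fin (f σ) => (⟨σ, j⟩ : Σ σ : Set ι, Fin (f σ))) := by
      ext ⟨κ, j⟩
      simp only [mem_univ, true_and, mem_ofPred_eq, mem_range, Sigma.mk.injEq]
      constructor
      · rintro rfl
        exact ⟨j, rfl, HEq.rfl⟩
      · rintro ⟨_, rfl, _⟩
        rfl
    rw [h3, ← image_univ, Set.ncard_image_of_injective, Set.ncard_univ, Nat.card_fin]
    intro a b hab
    simpa using hab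
  refine ⟨Σ σ : Set ι, Fin (h σ).toNat, Σ σ : Set ι, Fin (-h σ).toNat, inferInstance, inferInstance,
    fun c => c.1, fun k => k.1, fun U => ?_⟩
  rw [← key, ← key, ← wt_sub]
  congr 1
  funext σ
  show h σ = ((h σ).toNat : ℤ) - ((-h σ).toNat : ℤ)
  omega

end

theorem rk_freeOn {τ : Type} [Finite τ] (V y : Set τ) :
    rk (Matroid.freeOn V) y = ((y ∩ V).ncard : ℤ) := by
  rw [← rk_inter_ground, Matroid.freeOn_ground]
  exact rk_indep' _ (Matroid.freeOn_indep_iff.2 inter_subset_right)

section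

variable {ι : Type} [Fintype ι] {α : Type}

theorem exists_match {C K : Type} [Finite C] [Finite K] (tc : C → Set ι) (tk : K → Set ι)
    (h : ∀ U : Set (Set ι), IsUpperSet U → {k | tk k ∈ U}.ncard ≤ {c | tc c ∈ U}.ncard) :
    ∃ μ : K → C, Function.Injective μ ∧ ∀ k, tk k ⊆ tc (μ k) := by
  classical
  have : Fintype C := Fintype.ofFinite C
  have : Fintype K := Fintype.ofFinite K
  have h1 : ∀ s : Finset K, s.card ≤ (s.biUnion fun k => Finset.univ.filter fun c => tk k ⊆ tc c).card := by
    intro s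
    have h2 := h {σ | ∃ k ∈ s, tk k ⊆ σ} (by
      rintro σ σ' hle ⟨k, hk, hs⟩
      exact ⟨k, hk, hs.trans hle⟩)
    have h3 : (s : Set K).ncard ≤ {k | tk k ∈ {σ | ∃ k ∈ s, tk k ⊆ σ}}.ncard := by
      refine Set.ncard_le_ncard ?_ (Set.toFinite _)
      intro k hk
      exact ⟨k, hk, subset_refl _⟩
    have h4 : {c | tc c ∈ {σ | ∃ k ∈ s, tk k ⊆ σ}} =
        ((s.biUnion fun k => Finset.univ.filter fun c => tk k ⊆ tc c : Finset C) : Set C) := by
      ext c
      simp
    rw [h4, Set.ncard_coe_finset] at h2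
    rw [Set.ncard_coe_finset] at h3
    exact h3.trans h2
  obtain ⟨f, hf1, hf2⟩ := (Finset.all_card_le_biUnion_card_iff_exists_injective _).1 h1
  refine ⟨f, hf1, fun k => ?_⟩
  have := hf2 k
  simpa using this

/-- The directed graph of a certificate. -/
def dg {E C K : Type} (te : E → Set ι) (tc : C → Set ι) (tk : K → Set ι) (μ : K → C) :
    E ⊕ C → E ⊕ C → Prop
  | Sum.inl e, Sum.inr c => te e ⊆ tc c
  | Sum.inr c, Sum.inr c' => ∃ k, μ k = c ∧ tk k ⊆ tc c'
  | _, Sum.inl _ => False

theorem gammoid_of_cert {M : Matroid α} (hM : M.E.Finite) {T : ι → Set α} (hT : ∀ i, T i ⊆ M.E)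
    (hfull : ∀ A ⊆ M.E, ∃ i, T i = A) (hc : Cert M T) : Gammoid α M := by
  classical
  obtain ⟨h, h1, h2⟩ := hc
  obtain ⟨C, K, hC, hK, tc, tk, hw⟩ := exists_count h
  have hEf : Finite M.E := hM
  obtain ⟨μ, hμ1, hμ2⟩ := exists_match tc tk (by
    intro U hU
    have h3 := h1 U hU
    rw [hw] at h3
    have h4 := rk_nonneg M (cell M.E T U)
    omega)
  set te : M.E → Set ι := fun e => ty T e with hte
  set G : M.E ⊕ C → M.E ⊕ C → Prop := dg te tc tk μ with hG
  set V : Set (M.E ⊕ C) := Sum.inr '' (range μ)ᶜ with hV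
  obtain ⟨N, hN⟩ := exists_induced G (Matroid.freeOn V) (range Sum.inl)
  -- the rank functions agree
  have hrk : ∀ J : Set M.E, rk N (Sum.inl '' J) = rk M (Subtype.val '' J) := by
    intro J
    rw [rk_induced hN (image_subset_range _ _)]
    apply le_antisymm
    · obtain ⟨i, hi⟩ := hfull (Subtype.val '' J) (by rintro _ ⟨x, _, rfl⟩; exact x.2)
      have hJ : ∀ e : M.E, e ∈ J ↔ i ∈ te e := by
        intro e
        rw [hte]
        show e ∈ J ↔ (e : α) ∈ T i
        rw [hi]
        constructor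
        · intro he; exact ⟨e, he, rfl⟩
        · rintro ⟨e', he', h⟩
          rwa [← Subtype.ext h]
      set x : Set (M.E ⊕ C) := Sum.inl '' J ∪ Sum.inr '' {c | i ∈ tc c} with hx
      set y : Set (M.E ⊕ C) := Sum.inl '' J ∪ Sum.inr '' {c | (∃ k, μ k = c ∧ i ∈ tk k) ∨
        (c ∉ range μ ∧ i ∈ tc c)} with hy
      have hval : Valid G x y := by
        rintro (e | c) (e' | c') hg hu
        · exact hg.elim
        · have hg' : te e ⊆ tc c' := hg
          have hu' : e ∈ J := by
            rcases hu with ⟨e', he', h⟩ | ⟨c, _, h⟩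
            · rwa [← Sum.inl_injective h]
            · cases h
          exact Or.inr ⟨c', hg' ((hJ e).1 hu'), rfl⟩
        · exact hg.elim
        · obtain ⟨k, hk1, hk2⟩ : ∃ k, μ k = c ∧ tk k ⊆ tc c' := hg
          rcases hu with ⟨e', _, h⟩ | ⟨c₀, hc₀, h⟩
          · cases h
          · have hcc := Sum.inr_injective h
            subst hcc
            rcases hc₀ with ⟨k', hk', hi'⟩ | ⟨hn, _⟩
            · rw [← hk1] at hk'
              have := hμ1 hk'
              subst this
              exact Or.inr ⟨c', hk2 hi', rfl⟩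
            · exact absurd ⟨k, hk1⟩ hn
      refine le_trans (mc_le hval) ?_
      have e1 : Sum.inl '' J \ x = ∅ := by
        rw [hx]
        ext t
        simp only [mem_sdiff, mem_union, mem_empty_iff_false, iff_false, not_and, not_not]
        exact fun h => Or.inl h
      unfold cutv
      rw [e1, rk_freeOn, Set.ncard_empty]
      have e2 : (x \ y).ncard + (y ∩ V).ncard + {k | tk k ∈ pr i}.ncard ≤ {c | tc c ∈ pr i}.ncard := by
        have d1 : Disjoint (x \ y) (y ∩ V) := by
          rw [Set.disjoint_left]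
          intro t h1 h2
          exact h1.2 h2.1
        have d2 : Disjoint ((x \ y) ∪ (y ∩ V)) ((fun k => (Sum.inr (μ k) : M.E ⊕ C)) '' {k | tk k ∈ pr i}) := by
          rw [Set.disjoint_left]
          rintro t h1 ⟨k, hk, rfl⟩
          rcases h1 with h1 | h1
          · exact h1.2 (Or.inr ⟨μ k, Or.inl ⟨k, rfl, hk⟩, rfl⟩)
          · obtain ⟨c, hc, he⟩ := h1.2
            exact hc ⟨k, (Sum.inr_injective he).symm⟩
        have inj : Function.Injective (fun k => (Sum.inr (μ k) : M.E ⊕ C)) := by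
          intro a b hab
          exact hμ1 (Sum.inr_injective hab)
        rw [← Set.ncard_union_eq d1, ← Set.ncard_image_of_injective {k | tk k ∈ pr i} inj,
          ← Set.ncard_union_eq d2,
          ← Set.ncard_image_of_injective {c | tc c ∈ pr i} (Sum.inr_injective (α := M.E))]
        refine Set.ncard_le_ncard ?_ (Set.toFinite _)
        rintro t ((ht | ht) | ht)
        · obtain ⟨htx, hty⟩ := ht
          rcases htx with htx | htx
          · exact absurd (Or.inl htx) hty
          · exact htx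
        · obtain ⟨hty, c, hc, rfl⟩ := ht
          rcases hty with ⟨e', _, h⟩ | ⟨c₀, hc₀, h⟩
          · cases h
          · have hcc := Sum.inr_injective h
            subst hcc
            rcases hc₀ with ⟨k', hk', hi'⟩ | ⟨_, h'⟩
            · exact absurd ⟨k', hk'⟩ hc
            · exact ⟨c₀, h', rfl⟩
        · obtain ⟨k, hk, rfl⟩ := ht
          exact ⟨μ k, hμ2 k hk, rfl⟩
      have e3 := h2 i
      rw [hw, hi] at e3
      push_cast
      omega
    · obtain ⟨x, y, hval, e⟩ := exists_mc G (Matroid.freeOn V) (Sum.inl '' J)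
      rw [e]
      unfold cutv
      rw [rk_freeOn]
      set U : Set (Set ι) := {σ | (∃ e : M.E, Sum.inl e ∈ y ∧ te e ⊆ σ) ∨
        (∃ k, Sum.inr (μ k) ∈ y ∧ tk k ⊆ σ)} with hU
      have hUu : IsUpperSet U := by
        rintro σ σ' hle (⟨e, he, hs⟩ | ⟨k, hk, hs⟩)
        · exact Or.inl ⟨e, he, hs.trans hle⟩
        · exact Or.inr ⟨k, hk, hs.trans hle⟩
      have e1 := h1 U hUu
      rw [hw] at e1
      -- colours of types in `U` are in `x`
      have e2 : ∀ c, tc c ∈ U → Sum.inr c ∈ x := by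
        rintro c (⟨e, he, hs⟩ | ⟨k, hk, hs⟩)
        · exact hval (Sum.inl e) (Sum.inr c) hs he
        · exact hval (Sum.inr (μ k)) (Sum.inr c) ⟨k, rfl, hs⟩ hk
      have e3 : {c | tc c ∈ U}.ncard ≤ ((x \ y) ∩ range Sum.inr).ncard + (y ∩ V).ncard +
          {k | tk k ∈ U}.ncard := by
        have inj : Function.Injective (fun k => (Sum.inr (μ k) : M.E ⊕ C)) := by
          intro a b hab
          exact hμ1 (Sum.inr_injective hab)
        rw [← Set.ncard_image_of_injective {c | tc c ∈ U} (Sum.inr_injective (α := M.E)),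
          ← Set.ncard_image_of_injective {k | tk k ∈ U} inj]
        refine le_trans (Set.ncard_le_ncard (t := ((x \ y) ∩ range Sum.inr) ∪ (y ∩ V) ∪
          (fun k => (Sum.inr (μ k) : M.E ⊕ C)) '' {k | tk k ∈ U}) ?_ (Set.toFinite _)) ?_
        · rintro _ ⟨c, hc, rfl⟩
          have hcx := e2 c hc
          by_cases hcy : (Sum.inr c : M.E ⊕ C) ∈ y
          · by_cases hcr : c ∈ range μ
            · obtain ⟨k, rfl⟩ := hcr
              exact Or.inr ⟨k, Or.inr ⟨k, hcy, subset_refl _⟩, rfl⟩
            · exact Or.inl (Or.inr ⟨hcy, c, hcr, rfl⟩)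
          · exact Or.inl (Or.inl ⟨⟨hcx, hcy⟩, c, rfl⟩)
        · refine le_trans (Set.ncard_union_le _ _) ?_
          have := Set.ncard_union_le ((x \ y) ∩ range Sum.inr) (y ∩ V)
          omega
      have e4 : rk M (Subtype.val '' J) ≤ rk M (cell M.E T U) +
          ((Sum.inl '' J \ x).ncard + ((x \ y) ∩ range Sum.inl).ncard) := by
        have f1 : rk M (Subtype.val '' J) ≤ rk M (cell M.E T U) +
            ((Subtype.val '' J \ cell M.E T U).ncard : ℤ) := by
          refine le_trans (rk_mono hM (B := cell M.E T U ∪ (Subtype.val '' J \ cell M.E T U)) ?_)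
            (rk_union_le hM _ ((Set.toFinite J).image _ |>.subset sdiff_subset))
          intro e he
          by_cases h : e ∈ cell M.E T U
          · exact Or.inl h
          · exact Or.inr ⟨he, h⟩
        have f2 : (Subtype.val '' J \ cell M.E T U).ncard ≤
            (Sum.inl '' J \ x).ncard + ((x \ y) ∩ range Sum.inl).ncard := by
          have f3 : (Subtype.val '' J \ cell M.E T U) ⊆
              Subtype.val '' (Sum.inl ⁻¹' ((Sum.inl '' J \ x) ∪ ((x \ y) ∩ range Sum.inl)) : Set M.E) := by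
            rintro _ ⟨⟨e, he, rfl⟩, hn⟩
            refine ⟨e, ?_, rfl⟩
            have hny : (Sum.inl e : M.E ⊕ C) ∉ y := by
              intro hy
              exact hn ⟨e.2, Or.inl ⟨e, hy, subset_refl _⟩⟩
            by_cases hx : (Sum.inl e : M.E ⊕ C) ∈ x
            · exact Or.inr ⟨⟨hx, hny⟩, e, rfl⟩
            · exact Or.inl ⟨⟨e, he, rfl⟩, hx⟩
          refine le_trans (Set.ncard_le_ncard f3 (Set.toFinite _)) ?_
          rw [Set.ncard_image_of_injective _ Subtype.val_injective]
          rw [← Set.ncard_image_of_injective (Sum.inl ⁻¹' _) (Sum.inl_injective (β := C))]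
          refine le_trans (Set.ncard_le_ncard (image_preimage_subset _ _) (Set.toFinite _)) ?_
          exact Set.ncard_union_le _ _
        omega
      have e5 : ((x \ y) ∩ range Sum.inl).ncard + ((x \ y) ∩ range Sum.inr).ncard ≤ (x \ y).ncard := by
        rw [← Set.ncard_union_eq]
        · refine Set.ncard_le_ncard ?_ (Set.toFinite _)
          rintro t (ht | ht)
          · exact ht.1
          · exact ht.1
        · rw [Set.disjoint_left]
          rintro t ⟨_, a, rfl⟩ ⟨_, b, hb⟩
          cases hb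
      omega
  -- the isomorphism
  have hNE : N.E = range Sum.inl := hN.1
  have hNf : N.E.Finite := Set.toFinite _
  set φ : N.E ≃ M.E := (Equiv.setCongr hNE).trans (Equiv.ofInjective _ Sum.inl_injective).symm with hφ
  have hφ' : ∀ t : N.E, (Sum.inl (φ t) : M.E ⊕ C) = t := by
    intro t
    rw [hφ]
    simp only [Equiv.trans_apply]
    exact Equiv.apply_ofInjective_symm Sum.inl_injective _
  refine ⟨M.E ⊕ C, inferInstance, G, V, range Sum.inl, N, hN, φ, fun I => ?_⟩
  have e1 : (Subtype.val '' I : Set (M.E ⊕ C)) = Sum.inl '' (φ '' I) := by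
    ext t
    constructor
    · rintro ⟨s, hs, rfl⟩
      exact ⟨φ s, ⟨s, hs, rfl⟩, hφ' s⟩
    · rintro ⟨_, ⟨s, hs, rfl⟩, rfl⟩
      exact ⟨s, hs, (hφ' s).symm⟩
  have e2 : (Sum.inl '' (φ '' I) : Set (M.E ⊕ C)) ⊆ N.E := (image_subset_range _ _).trans hNE.symm.subset
  rw [e1, indep_iff_rk hNf e2,
    indep_iff_rk hM (by rintro _ ⟨x, _, rfl⟩; exact x.2), hrk,
    Set.ncard_image_of_injective _ Sum.inl_injective,
    Set.ncard_image_of_injective _ Subtype.val_injective]

end

/-- For large `n` the matroids of `Gn n` on a given ground set are gammoids. -/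
theorem gammoid_of_gn {α : Type} {M : Matroid α} (hM : M.E.Finite) :
    ∃ n₀, ∀ n, n₀ ≤ n → Gn n α M → Gammoid α M := by
  classical
  have hfin : Finite {A : Set α // A ⊆ M.E} := by
    have : Finite (Set.powerset M.E) := hM.finite_subsets
    exact this
  have hne : Nonempty {A : Set α // A ⊆ M.E} := ⟨⟨∅, empty_subset _⟩⟩
  refine ⟨Nat.card {A : Set α // A ⊆ M.E}, fun n hn h => ?_⟩
  obtain ⟨f, hf⟩ : ∃ f : Fin n → {A : Set α // A ⊆ M.E}, Function.Surjective f := by
    have hpos : 0 < Nat.card {A : Set α // A ⊆ M.E} := Nat.card_pos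
    have e := (Finite.equivFin {A : Set α // A ⊆ M.E})
    refine ⟨fun i => e.symm ⟨i.1 % Nat.card {A : Set α // A ⊆ M.E}, Nat.mod_lt _ hpos⟩, fun A => ?_⟩
    refine ⟨⟨(e A).1, lt_of_lt_of_le (e A).2 hn⟩, ?_⟩
    rw [Equiv.symm_apply_eq]
    ext
    exact Nat.mod_eq_of_lt (e A).2
  refine gammoid_of_cert hM (T := fun i => (f i).1) (fun i => (f i).2) (fun A hA => ?_)
    (h.2 _ fun i => (f i).2)
  obtain ⟨i, hi⟩ := hf ⟨A, hA⟩
  exact ⟨i, by rw [hi]⟩

end Pool.Agent.Helper442.FE
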