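import Mathlib
import Pool.Agent.Helper442.FE.Gn

/-! The witness: a matroid that is not base-orderable but all of whose families of few subsets have
certificates. -/

set_option linter.unusedSectionVars false

namespace Pool.Agent.Helper442.FE

open Set

/-- The elements of the witness matroid. -/
inductive El (b : ℕ) : Type
  | p (i : Fin b) : El b
  | q (i : Fin b) : El b
  | x (i : Fin (b + 1)) : El b
  | y (i : Fin (b + 1)) : El b

namespace El

variable {b : ℕ}

instance : Finite (El b) := by
  let f : El b → (Fin b ⊕ Fin b) ⊕ (Fin (b + 1) ⊕ Fin (b + 1)) := fun e => match e with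
    | p i => Sum.inl (Sum.inl i)
    | q i => Sum.inl (Sum.inr i)
    | x i => Sum.inr (Sum.inl i)
    | y i => Sum.inr (Sum.inr i)
  refine Finite.of_injective f ?_
  rintro (i | i | i | i) (j | j | j | j) h <;> simp_all [f]

theorem p_inj : Function.Injective (p : Fin b → El b) := fun _ _ h => by cases h; rfl
theorem q_inj : Function.Injective (q : Fin b → El b) := fun _ _ h => by cases h; rfl
theorem x_inj : Function.Injective (x : Fin (b + 1) → El b) := fun _ _ h => by cases h; rfl
theorem y_inj : Function.Injective (y : Fin (b + 1) → El b) := fun _ _ h => by cases h; rfl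

/-- Numbers of elements of the four kinds. -/
noncomputable def pc (S : Set (El b)) : ℕ := {i | p i ∈ S}.ncard
noncomputable def qc (S : Set (El b)) : ℕ := {i | q i ∈ S}.ncard
noncomputable def xc (S : Set (El b)) : ℕ := {i | x i ∈ S}.ncard
noncomputable def yc (S : Set (El b)) : ℕ := {i | y i ∈ S}.ncard
/-- Number of indices `i` with both `x i` and `y i`. -/
noncomputable def bc (S : Set (El b)) : ℕ := {i | x i ∈ S ∧ y i ∈ S}.ncard
/-- Number of indices `i` with `x i` or `y i`. -/
noncomputable def sc (S : Set (El b)) : ℕ := {i | x i ∈ S ∨ y i ∈ S}.ncard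

theorem ncard_split (S : Set (El b)) : S.ncard = pc S + qc S + xc S + yc S := by
  have h : S = ((p '' {i | p i ∈ S} ∪ q '' {i | q i ∈ S}) ∪ x '' {i | x i ∈ S}) ∪ y '' {i | y i ∈ S} := by
    ext e
    rcases e with i | i | i | i <;> simp
  have d1 : Disjoint (p '' {i | p i ∈ S}) (q '' {i | q i ∈ S}) := by
    rw [Set.disjoint_left]; rintro _ ⟨i, _, rfl⟩ ⟨j, _, h⟩; cases h
  have d2 : Disjoint (p '' {i | p i ∈ S} ∪ q '' {i | q i ∈ S}) (x '' {i | x i ∈ S}) := by
    rw [Set.disjoint_left]; rintro _ (⟨i, _, rfl⟩ | ⟨i, _, rfl⟩) ⟨j, _, h⟩ <;> cases h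
  have d3 : Disjoint ((p '' {i | p i ∈ S} ∪ q '' {i | q i ∈ S}) ∪ x '' {i | x i ∈ S})
      (y '' {i | y i ∈ S}) := by
    rw [Set.disjoint_left]; rintro _ ((⟨i, _, rfl⟩ | ⟨i, _, rfl⟩) | ⟨i, _, rfl⟩) ⟨j, _, h⟩ <;> cases h
  conv_lhs => rw [h]
  rw [Set.ncard_union_eq d3, Set.ncard_union_eq d2, Set.ncard_union_eq d1,
    Set.ncard_image_of_injective _ p_inj, Set.ncard_image_of_injective _ q_inj,
    Set.ncard_image_of_injective _ x_inj, Set.ncard_image_of_injective _ y_inj]
  rfl

theorem sc_add_bc (S : Set (El b)) : sc S + bc S = xc S + yc S :=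
  Set.ncard_union_add_ncard_inter {i | x i ∈ S} {i | y i ∈ S}

theorem ncard_fin_le {m : ℕ} (A : Set (Fin m)) : A.ncard ≤ m := by
  have := Set.ncard_le_card A
  rwa [Nat.card_fin] at this

theorem ncard_fin_eq {m : ℕ} {A : Set (Fin m)} (h : ∀ i, i ∈ A) : A.ncard = m := by
  have : A = univ := eq_univ_of_forall h
  rw [this, Set.ncard_univ, Nat.card_fin]

theorem mono_aux {m : ℕ} {A B : Set (Fin m)} (h : ∀ i, i ∈ A → i ∈ B) : A.ncard ≤ B.ncard :=
  Set.ncard_le_ncard h (Set.toFinite _)

/-- The weight. -/
noncomputable def w (S : Set (El b)) : ℕ := pc S + bc S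

theorem ncard_eq_w (S : Set (El b)) : S.ncard = w S + qc S + sc S := by
  have h1 := ncard_split S
  have h2 := sc_add_bc S
  unfold w
  omega

theorem w_mono {S S' : Set (El b)} (h : S ⊆ S') : w S ≤ w S' := by
  have h1 : pc S ≤ pc S' := mono_aux fun i hi => h hi
  have h2 : bc S ≤ bc S' := mono_aux fun i hi => ⟨h hi.1, h hi.2⟩
  unfold w
  omega

theorem w_insert_le (e : El b) (S : Set (El b)) : w (insert e S) ≤ w S + 1 := by
  have ins : ∀ {m : ℕ} (A B : Set (Fin m)) (i : Fin m), (∀ j ∈ A, j = i ∨ j ∈ B) →
      A.ncard ≤ B.ncard + 1 := by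
    intro m A B i h
    refine le_trans (Set.ncard_le_ncard (t := insert i B) (fun j hj => h j hj) (Set.toFinite _)) ?_
    exact Set.ncard_insert_le _ _
  rcases e with i | i | i | i
  · have h1 : pc (insert (p i) S) ≤ pc S + 1 := ins _ _ i (by simp)
    have h2 : bc (insert (p i) S) ≤ bc S := mono_aux (by simp)
    unfold w; omega
  · have h1 : pc (insert (q i) S) ≤ pc S := mono_aux (by simp)
    have h2 : bc (insert (q i) S) ≤ bc S := mono_aux (by simp)
    unfold w; omega
  · have h1 : pc (insert (x i) S) ≤ pc S := mono_aux (by simp)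
    have h2 : bc (insert (x i) S) ≤ bc S + 1 := ins _ _ i (by
      rintro j ⟨h1, h2⟩
      simp only [mem_insert_iff, x.injEq, reduceCtorEq, false_or] at h1 h2
      rcases h1 with h1 | h1
      · exact Or.inl h1
      · exact Or.inr ⟨h1, h2⟩)
    unfold w; omega
  · have h1 : pc (insert (y i) S) ≤ pc S := mono_aux (by simp)
    have h2 : bc (insert (y i) S) ≤ bc S + 1 := ins _ _ i (by
      rintro j ⟨h1, h2⟩
      simp only [mem_insert_iff, y.injEq, reduceCtorEq, false_or] at h1 h2
      rcases h2 with h2 | h2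
      · exact Or.inl h2
      · exact Or.inr ⟨h1, h2⟩)
    unfold w; omega

theorem w_insert_q (i : Fin b) (S : Set (El b)) : w (insert (q i) S) ≤ w S := by
  have h1 : pc (insert (q i) S) ≤ pc S := mono_aux (by simp)
  have h2 : bc (insert (q i) S) ≤ bc S := mono_aux (by simp)
  unfold w; omega

theorem w_insert_x (i : Fin (b + 1)) (S : Set (El b)) (h : y i ∉ S) : w (insert (x i) S) ≤ w S := by
  have h1 : pc (insert (x i) S) ≤ pc S := mono_aux (by simp)
  have h2 : bc (insert (x i) S) ≤ bc S := mono_aux (by
    rintro j ⟨h1, h2⟩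
    simp only [mem_insert_iff, x.injEq, reduceCtorEq, false_or] at h1 h2
    rcases h1 with h1 | h1
    · subst h1; exact absurd h2 h
    · exact ⟨h1, h2⟩)
  unfold w; omega

theorem w_insert_y (i : Fin (b + 1)) (S : Set (El b)) (h : x i ∉ S) : w (insert (y i) S) ≤ w S := by
  have h1 : pc (insert (y i) S) ≤ pc S := mono_aux (by simp)
  have h2 : bc (insert (y i) S) ≤ bc S := mono_aux (by
    rintro j ⟨g1, g2⟩
    simp only [mem_insert_iff, y.injEq, reduceCtorEq, false_or] at g1 g2
    rcases g2 with g2 | g2
    · rw [g2] at g1; exact absurd g1 h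
    · exact ⟨g1, g2⟩)
  unfold w; omega

/-- The circuit-hyperplanes `D i`: all `q j`, all `y j` with `j ≠ i`, and `x i`. -/
def D (i : Fin (b + 1)) : Set (El b) := {e | match e with
  | p _ => False
  | q _ => True
  | x j => j = i
  | y j => j ≠ i}

theorem p_mem_D {i : Fin b} {k : Fin (b + 1)} : (p i ∈ D k) = False := rfl
theorem q_mem_D {i : Fin b} {k : Fin (b + 1)} : (q i ∈ D k) = True := rfl
theorem x_mem_D {i k : Fin (b + 1)} : (x i ∈ D k) = (i = k) := rfl
theorem y_mem_D {i k : Fin (b + 1)} : (y i ∈ D k) = (i ≠ k) := rfl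

theorem D_ncard (k : Fin (b + 1)) : (D k).ncard = 2 * b + 1 := by
  rw [ncard_split]
  have h1 : pc (D k) = 0 := by
    unfold pc; simp [p_mem_D]
  have h2 : qc (D k) = b := ncard_fin_eq (fun i => by simp [q_mem_D])
  have h3 : xc (D k) = 1 := by
    unfold xc; simp [x_mem_D]
  have h4 : yc (D k) = b := by
    unfold yc
    have e : {i | y i ∈ D k} = {k}ᶜ := by ext i; simp [y_mem_D]
    have := Set.ncard_add_ncard_compl ({k} : Set (Fin (b + 1)))
    rw [e]
    rw [Nat.card_fin, Set.ncard_singleton] at this
    omega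
  omega

theorem w_D (k : Fin (b + 1)) : w (D k) = 0 := by
  unfold w pc bc
  simp [p_mem_D, x_mem_D, y_mem_D]

theorem D_inj : Function.Injective (D : Fin (b + 1) → Set (El b)) := by
  intro i j h
  have : x i ∈ D j := by rw [← h, x_mem_D]
  rwa [x_mem_D] at this

theorem D_insert {I : Set (El b)} {e e' : El b} {i j : Fin (b + 1)} (he : e ∉ I)
    (h : insert e I = D i) (h' : insert e' I = D j) : e = e' := by
  by_cases hij : i = j
  · subst hij
    have : e ∈ insert e' I := by rw [h', ← h]; exact mem_insert _ _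
    rcases this with rfl | h1
    · rfl
    · exact absurd h1 he
  · exfalso
    have h1 : y j ∈ insert e I := by rw [h, y_mem_D]; exact Ne.symm hij
    have h2 : y j ∉ insert e' I := by rw [h', y_mem_D]; simp
    have h3 : x i ∈ insert e I := by rw [h, x_mem_D]
    have h4 : x i ∉ insert e' I := by rw [h', x_mem_D]; exact hij
    have h5 : y j = e := by
      rcases h1 with h1 | h1
      · exact h1
      · exact absurd (mem_insert_of_mem _ h1) h2
    have h6 : x i = e := by
      rcases h3 with h3 | h3
      · exact h3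
      · exact absurd (mem_insert_of_mem _ h3) h4
    rw [← h5] at h6
    cases h6

/-- Independent sets. -/
def Ind (I : Set (El b)) : Prop := I.ncard ≤ 2 * b + 1 ∧ w I ≤ b ∧ ∀ i, I ≠ D i

theorem Ind.subset {I J : Set (El b)} (hJ : Ind J) (h : I ⊆ J) : Ind I := by
  refine ⟨(Set.ncard_le_ncard h (Set.toFinite _)).trans hJ.1, (w_mono h).trans hJ.2.1, ?_⟩
  rintro i rfl
  have h1 := D_ncard i
  have h2 : D i = J := Set.eq_of_subset_of_ncard_le h (by rw [h1]; exact hJ.1) (Set.toFinite _)
  exact hJ.2.2 i h2.symm

/-- If `w I = b` and the elements of `J \ I` all increase the weight, then `J` is bounded by `I`. -/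
theorem full_bound {I J : Set (El b)}
    (h : ∀ e ∈ J, e ∉ I → w I < w (insert e I)) : qc J ≤ qc I ∧ sc J ≤ sc I := by
  constructor
  · refine mono_aux fun i hi => ?_
    by_contra hn
    exact absurd (h _ hi hn) (not_lt.2 (w_insert_q i I))
  · refine mono_aux fun i hi => ?_
    rcases hi with hi | hi
    · by_cases h1 : x i ∈ I
      · exact Or.inl h1
      · right
        by_contra h2
        exact absurd (h _ hi h1) (not_lt.2 (w_insert_x i I h2))
    · by_cases h1 : y i ∈ I
      · exact Or.inr h1
      · left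
        by_contra h2
        exact absurd (h _ hi h1) (not_lt.2 (w_insert_y i I h2))

theorem Ind.insert_cases {I : Set (El b)} (hI : Ind I) {e : El b} (he : e ∉ I)
    (hc : I.ncard < 2 * b + 1) (hn : ¬ Ind (insert e I)) :
    b < w (insert e I) ∨ ∃ i, insert e I = D i := by
  by_contra hcon
  push Not at hcon
  apply hn
  refine ⟨?_, hcon.1, hcon.2⟩
  rw [Set.ncard_insert_of_notMem he (Set.toFinite _)]
  omega

/-- The witness matroid. -/
noncomputable def W (b : ℕ) (hb : 1 ≤ b) : Matroid (El b) :=
  (IndepMatroid.ofFinite (E := univ) (Set.toFinite _) Ind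
    (by
      refine ⟨by simp, ?_, ?_⟩
      · unfold w pc bc; simp
      · intro i h
        have : q ⟨0, hb⟩ ∈ (∅ : Set (El b)) := by rw [h, q_mem_D]; trivial
        exact this)
    (fun I J hJ h => hJ.subset h)
    (by
      intro I J hI hJ hlt
      by_contra hcon
      push Not at hcon
      have hc : I.ncard < 2 * b + 1 := lt_of_lt_of_le hlt hJ.1
      have hex : ∃ e ∈ J, e ∉ I := by
        by_contra h
        push Not at h
        exact absurd (Set.ncard_le_ncard h (Set.toFinite _)) (not_le.2 hlt)
      have hcases : ∀ e ∈ J, e ∉ I → b < w (insert e I) ∨ ∃ i, insert e I = D i :=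
        fun e he hn => hI.insert_cases hn hc (hcon e he hn)
      rcases lt_or_eq_of_le hI.2.1 with hw | hw
      · have hD : ∀ e ∈ J, e ∉ I → ∃ i, insert e I = D i := by
          intro e he hn
          rcases hcases e he hn with h | h
          · have := w_insert_le e I
            omega
          · exact h
        obtain ⟨e, he, hn⟩ := hex
        obtain ⟨i, hi⟩ := hD e he hn
        have hsub : J ⊆ insert e I := by
          intro f hf
          by_cases hfI : f ∈ I
          · exact Or.inr hfI
          · obtain ⟨j, hj⟩ := hD f hf hfI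
            exact Or.inl (D_insert hfI hj hi)
        have : J = insert e I := Set.eq_of_subset_of_ncard_le hsub (by
          rw [Set.ncard_insert_of_notMem hn (Set.toFinite _)]; omega) (Set.toFinite _)
        exact hJ.2.2 i (this.trans hi)
      · have h1 : ∀ e ∈ J, e ∉ I → w I < w (insert e I) := by
          intro e he hn
          rcases hcases e he hn with h | ⟨i, h⟩
          · omega
          · have := w_mono (subset_insert e I)
            rw [h, w_D] at this
            omega
        have h2 := full_bound h1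
        have h3 := ncard_eq_w I
        have h4 := ncard_eq_w J
        have h5 := hJ.2.1
        omega)
    (fun I _ => subset_univ I)).matroid

theorem W_E {b : ℕ} (hb : 1 ≤ b) : (W b hb).E = univ := rfl

theorem W_indep {b : ℕ} (hb : 1 ≤ b) {I : Set (El b)} : (W b hb).Indep I ↔ Ind I := Iff.rfl

end El

end Pool.Agent.Helper442.FE
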