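import Mathlib
import Pool.Agent.Helper442.FE.Wit

/-! Certificates for the witness matroid. -/

set_option linter.unusedSectionVars false

namespace Pool.Agent.Helper442.FE

open Set

theorem cert_of_cuts {ι : Type} [Fintype ι] {α : Type} [Finite α] {κ : Type} [Finite κ]
    {M : Matroid α} (A : κ → Set α)
    (R1 : ∀ Z : Set α, rk M Z + {c | A c ⊆ Z}.ncard ≤ Z.ncard) {T : ι → Set α}
    (R2 : ∀ i, ∃ Z, T i ⊆ Z ∧ (Z.ncard : ℤ) ≤ rk M (T i) + {c | A c ⊆ Z}.ncard) : Cert M T := by
  choose Z hZ1 hZ2 using R2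
  refine ⟨cnt (univ : Set α) (ty Z) - cnt (univ : Set κ) (fun c => {i | A c ⊆ Z i}),
    fun U hU => ?_, fun i => ?_⟩
  · rw [wt_sub, wt_cnt (Set.toFinite _), wt_cnt (Set.toFinite _)]
    have e1 : cell M.E T U ⊆ {b | b ∈ (univ : Set α) ∧ ty Z b ∈ U} := by
      rintro e ⟨_, he⟩
      exact ⟨mem_univ _, hU (fun i hi => hZ1 i hi) he⟩
    have e2 : {c | c ∈ (univ : Set κ) ∧ {i | A c ⊆ Z i} ∈ U}.ncard ≤
        {c | A c ⊆ {b | b ∈ (univ : Set α) ∧ ty Z b ∈ U}}.ncard := by
      refine Set.ncard_le_ncard ?_ (Set.toFinite _)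
      rintro c ⟨_, hc⟩ e he
      exact ⟨mem_univ _, hU (fun i (hi : A c ⊆ Z i) => (hi he : e ∈ Z i)) hc⟩
    have e3 := R1 {b | b ∈ (univ : Set α) ∧ ty Z b ∈ U}
    have e4 := rk_mono' M e1
    omega
  · rw [wt_sub, wt_cnt (Set.toFinite _), wt_cnt (Set.toFinite _)]
    have e1 : {b | b ∈ (univ : Set α) ∧ ty Z b ∈ pr i} = Z i := by
      ext b
      simp [mem_pr, mem_ty]
    have e2 : {c | c ∈ (univ : Set κ) ∧ {i | A c ⊆ Z i} ∈ pr i} = {c | A c ⊆ Z i} := by
      ext c
      simp [mem_pr]
    rw [e1, e2]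
    have := hZ2 i
    omega

namespace El

variable {b : ℕ}

/-- The circuits `C k`: all `p j`, `x k` and `y k`. -/
def Cc (k : Fin (b + 1)) : Set (El b) := {e | match e with
  | p _ => True
  | q _ => False
  | x j => j = k
  | y j => j = k}

theorem Cc_sub {k : Fin (b + 1)} {Z : Set (El b)} : Cc k ⊆ Z ↔ (∀ i, p i ∈ Z) ∧ x k ∈ Z ∧ y k ∈ Z := by
  constructor
  · intro h
    exact ⟨fun i => h (show p i ∈ Cc k from trivial), h (show x k ∈ Cc k from rfl),
      h (show y k ∈ Cc k from rfl)⟩
  · rintro ⟨h1, h2, h3⟩ (i | i | i | i) he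
    · exact h1 i
    · exact he.elim
    · have : i = k := he
      rw [this]; exact h2
    · have : i = k := he
      rw [this]; exact h3

theorem D_sub {k : Fin (b + 1)} {Z : Set (El b)} :
    D k ⊆ Z ↔ (∀ i, q i ∈ Z) ∧ x k ∈ Z ∧ ∀ i, i ≠ k → y i ∈ Z := by
  constructor
  · intro h
    exact ⟨fun i => h (show q i ∈ D k from trivial), h (show x k ∈ D k from rfl),
      fun i hi => h (show y i ∈ D k from hi)⟩
  · rintro ⟨h1, h2, h3⟩ (i | i | i | i) he
    · exact he.elim
    · exact h1 i
    · have : i = k := he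
      rw [this]; exact h2
    · exact h3 i he

/-- The presentation: all `C k`, and all `D k` with `k ≠ i₀`. -/
def Pr (i₀ : Fin (b + 1)) : Fin (b + 1) ⊕ {k : Fin (b + 1) // k ≠ i₀} → Set (El b)
  | Sum.inl k => Cc k
  | Sum.inr k => D k.1

theorem Pr_count (i₀ : Fin (b + 1)) (Z : Set (El b)) :
    {c | Pr i₀ c ⊆ Z}.ncard = {k | Cc k ⊆ Z}.ncard + {k | k ≠ i₀ ∧ D k ⊆ Z}.ncard := by
  have h : {c | Pr i₀ c ⊆ Z} = Sum.inl '' {k | Cc k ⊆ Z} ∪
      Sum.inr '' {k : {k : Fin (b + 1) // k ≠ i₀} | D k.1 ⊆ Z} := by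
    ext c
    rcases c with c | c
    · simp [Pr]
    · simp [Pr]
  rw [h, Set.ncard_union_eq, Set.ncard_image_of_injective _ Sum.inl_injective,
    Set.ncard_image_of_injective _ Sum.inr_injective]
  · congr 1
    rw [← Set.ncard_image_of_injective _ Subtype.val_injective]
    congr 1
    ext k
    constructor
    · rintro ⟨k, hk, rfl⟩
      exact ⟨k.2, hk⟩
    · rintro ⟨h1, h2⟩
      exact ⟨⟨k, h1⟩, h2, rfl⟩
  · rw [Set.disjoint_left]
    rintro _ ⟨a, _, rfl⟩ ⟨c, _, h⟩
    cases h

/-- The rank of a set is the size of an independent subset. -/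
theorem rk_W (hb : 1 ≤ b) (Z : Set (El b)) :
    ∃ I ⊆ Z, Ind I ∧ rk (W b hb) Z = I.ncard ∧ ∀ e ∈ Z, e ∉ I → ¬ Ind (insert e I) := by
  obtain ⟨I, hI⟩ := (W b hb).exists_isBasis' Z
  refine ⟨I, hI.subset, hI.indep, ?_, fun e he hn h => hn (hI.mem_of_insert_indep he h)⟩
  have h1 : rk (W b hb) Z = rk (W b hb) I := by unfold rk; rw [hI.eRk_eq_eRk]
  rw [h1]
  exact rk_indep' _ hI.indep

theorem R1 (hb : 1 ≤ b) (i₀ : Fin (b + 1)) (Z : Set (El b)) :
    rk (W b hb) Z + {c | Pr i₀ c ⊆ Z}.ncard ≤ Z.ncard := by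
  classical
  obtain ⟨I, hIZ, hI, hrk, -⟩ := rk_W hb Z
  rw [hrk, Pr_count]
  have hw := hI.2.1
  have hcI := ncard_eq_w I
  have hq : qc I ≤ qc Z := mono_aux fun i hi => hIZ hi
  have hs : sc I ≤ sc Z := mono_aux fun i hi => hi.imp (fun h => hIZ h) (fun h => hIZ h)
  have hcZ := ncard_split Z
  have hsb := sc_add_bc Z
  have hρ := hI.1
  have hsub : I.ncard ≤ Z.ncard := Set.ncard_le_ncard hIZ (Set.toFinite _)
  -- the number of `C k` inside `Z`
  have hp : {k : Fin (b + 1) | Cc k ⊆ Z}.ncard = 0 ∨
      (pc Z = b ∧ {k : Fin (b + 1) | Cc k ⊆ Z}.ncard = bc Z) := by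
    by_cases hP : ∀ i, p i ∈ Z
    · right
      refine ⟨ncard_fin_eq hP, ?_⟩
      unfold bc
      congr 1
      ext k
      simp only [mem_ofPred_eq, Cc_sub]
      exact ⟨fun h => h.2, fun h => ⟨hP, h⟩⟩
    · left
      have : {k : Fin (b + 1) | Cc k ⊆ Z} = ∅ := by
        ext k
        simp only [mem_ofPred_eq, mem_empty_iff_false, iff_false, Cc_sub]
        exact fun h => hP h.1
      rw [this, Set.ncard_empty]
  by_cases hd : ∃ k, k ≠ i₀ ∧ D k ⊆ Z
  · obtain ⟨k, hk, hkZ⟩ := hd
    have hqZ : qc Z = b := ncard_fin_eq (D_sub.1 hkZ).1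
    by_cases hY : ∀ i, y i ∈ Z
    · -- all `y i` belong to `Z`
      have hyZ : yc Z = b + 1 := ncard_fin_eq hY
      have hd1 : {k | k ≠ i₀ ∧ D k ⊆ Z}.ncard ≤ xc Z := mono_aux fun i hi => (D_sub.1 hi.2).2.1
      have hd2 : {k | k ≠ i₀ ∧ D k ⊆ Z}.ncard ≤ b := by
        have h1 : {k : Fin (b + 1) | k ≠ i₀ ∧ D k ⊆ Z}.ncard ≤ ({i₀}ᶜ : Set (Fin (b + 1))).ncard :=
          mono_aux fun i hi => hi.1
        have h2 := Set.ncard_add_ncard_compl ({i₀} : Set (Fin (b + 1)))
        rw [Nat.card_fin, Set.ncard_singleton] at h2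
        omega
      have hbx : bc Z = xc Z := by
        unfold bc xc
        congr 1
        ext i
        simp [hY i]
      rcases hp with hp | ⟨hp1, hp2⟩ <;> omega
    · push Not at hY
      obtain ⟨j, hj⟩ := hY
      have hun : ∀ i, D i ⊆ Z → i = j := by
        intro i hi
        by_contra hne
        exact hj ((D_sub.1 hi).2.2 j (Ne.symm hne))
      have hkj := hun k hkZ
      subst hkj
      have hd1 : {i | i ≠ i₀ ∧ D i ⊆ Z}.ncard ≤ 1 := by
        refine le_trans (mono_aux (B := {k}) fun i hi => hun i hi.2) ?_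
        rw [Set.ncard_singleton]
      have hyZ : yc Z = b := by
        unfold yc
        have e : {i | y i ∈ Z} = {k}ᶜ := by
          ext i
          constructor
          · rintro h rfl; exact hj h
          · intro h; exact (D_sub.1 hkZ).2.2 i h
        have := Set.ncard_add_ncard_compl ({k} : Set (Fin (b + 1)))
        rw [e]
        rw [Nat.card_fin, Set.ncard_singleton] at this
        omega
      have hxk : x k ∈ Z := (D_sub.1 hkZ).2.1
      have hbx : bc Z + 1 = xc Z := by
        unfold bc xc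
        have e : {i | x i ∈ Z} = insert k {i | x i ∈ Z ∧ y i ∈ Z} := by
          ext i
          simp only [mem_ofPred_eq, mem_insert_iff]
          constructor
          · intro h
            by_cases hik : i = k
            · exact Or.inl hik
            · exact Or.inr ⟨h, (D_sub.1 hkZ).2.2 i hik⟩
          · rintro (rfl | h)
            · exact hxk
            · exact h.1
        rw [e, Set.ncard_insert_of_notMem (fun h => hj h.2) (Set.toFinite _)]
      by_cases hZD : Z = D k
      · -- `Z` is the circuit-hyperplane itself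
        have h1 : I.ncard < Z.ncard := by
          refine Set.ncard_lt_ncard (hIZ.ssubset_of_ne ?_) (Set.toFinite _)
          rw [hZD]
          exact hI.2.2 k
        rcases hp with hp | ⟨hp1, hp2⟩
        · omega
        · exfalso
          have : pc Z = 0 := by
            rw [hZD]; unfold pc; simp [p_mem_D]
          omega
      · have hlt : 2 * b + 1 < Z.ncard := by
          rw [← D_ncard k]
          exact Set.ncard_lt_ncard (hkZ.ssubset_of_ne fun h => hZD h.symm) (Set.toFinite _)
        rcases hp with hp | ⟨hp1, hp2⟩ <;> omega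
  · have hd0 : {k | k ≠ i₀ ∧ D k ⊆ Z}.ncard = 0 := by
      have : {k | k ≠ i₀ ∧ D k ⊆ Z} = ∅ := by
        ext k
        simp only [mem_ofPred_eq, mem_empty_iff_false, iff_false]
        exact fun h => hd ⟨k, h⟩
      rw [this, Set.ncard_empty]
    rcases hp with hp | ⟨hp1, hp2⟩ <;> omega

theorem R2 (hb : 1 ≤ b) (i₀ : Fin (b + 1)) {T : Set (El b)} (hT : T ≠ D i₀) :
    ∃ Z, T ⊆ Z ∧ (Z.ncard : ℤ) ≤ rk (W b hb) T + {c | Pr i₀ c ⊆ Z}.ncard := by
  classical
  obtain ⟨I, hIT, hI, hrk, hmax⟩ := rk_W hb T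
  rw [hrk]
  by_cases hex : ∃ e ∈ T, e ∉ I
  swap
  · push Not at hex
    have : T = I := Subset.antisymm hex hIT
    exact ⟨T, subset_refl _, by rw [this]; omega⟩
  have hcI := ncard_eq_w I
  rcases lt_or_eq_of_le hI.1 with hlt | heq
  swap
  · -- `I` is a basis
    refine ⟨univ, subset_univ _, ?_⟩
    rw [Pr_count]
    have h1 : (univ : Set (El b)).ncard = b + b + (b + 1) + (b + 1) := by
      rw [ncard_split]
      have e1 : pc (univ : Set (El b)) = b := ncard_fin_eq (by simp)
      have e2 : qc (univ : Set (El b)) = b := ncard_fin_eq (by simp)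
      have e3 : xc (univ : Set (El b)) = b + 1 := ncard_fin_eq (by simp)
      have e4 : yc (univ : Set (El b)) = b + 1 := ncard_fin_eq (by simp)
      omega
    have h2 : {k : Fin (b + 1) | Cc k ⊆ univ}.ncard = b + 1 := ncard_fin_eq (by simp)
    have h3 : {k : Fin (b + 1) | k ≠ i₀ ∧ D k ⊆ univ}.ncard = b := by
      have e : {k : Fin (b + 1) | k ≠ i₀ ∧ D k ⊆ univ} = {i₀}ᶜ := by ext k; simp
      have := Set.ncard_add_ncard_compl ({i₀} : Set (Fin (b + 1)))
      rw [e]
      rw [Nat.card_fin, Set.ncard_singleton] at this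
      omega
    omega
  · have hcases : ∀ e ∈ T, e ∉ I → b < w (insert e I) ∨ ∃ i, insert e I = D i :=
      fun e he hn => hI.insert_cases hn hlt (hmax e he hn)
    rcases lt_or_eq_of_le hI.2.1 with hw | hw
    · -- every missing element completes a circuit-hyperplane
      have hD : ∀ e ∈ T, e ∉ I → ∃ i, insert e I = D i := by
        intro e he hn
        rcases hcases e he hn with h | h
        · have := w_insert_le e I
          omega
        · exact h
      obtain ⟨e, he, hn⟩ := hex
      obtain ⟨i, hi⟩ := hD e he hn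
      have hTi : T = D i := by
        rw [← hi]
        refine Subset.antisymm (fun f hf => ?_) (insert_subset he hIT)
        by_cases hfI : f ∈ I
        · exact Or.inr hfI
        · obtain ⟨j, hj⟩ := hD f hf hfI
          exact Or.inl (D_insert hfI hj hi)
      have hii : i ≠ i₀ := by
        rintro rfl
        exact hT hTi
      refine ⟨T, subset_refl _, ?_⟩
      rw [Pr_count]
      have h1 : T.ncard = I.ncard + 1 := by
        rw [hTi, ← hi]
        exact Set.ncard_insert_of_notMem hn (Set.toFinite _)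
      have h2 : 1 ≤ {k | k ≠ i₀ ∧ D k ⊆ T}.ncard := by
        rw [Nat.one_le_iff_ne_zero, ← Nat.pos_iff_ne_zero, Set.ncard_pos (Set.toFinite _)]
        exact ⟨i, hii, hTi.symm.subset⟩
      omega
    · -- every missing element increases the weight
      have h1 : ∀ e ∈ T, e ∉ I → w I < w (insert e I) := by
        intro e he hn
        rcases hcases e he hn with h | ⟨i, h⟩
        · omega
        · have := w_mono (subset_insert e I)
          rw [h, w_D] at this
          omega
      obtain ⟨h2, h3⟩ := full_bound h1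
      set Z : Set (El b) := {e | match e with
        | p _ => True
        | q i => q i ∈ T
        | x i => x i ∈ T ∨ y i ∈ T
        | y i => x i ∈ T ∨ y i ∈ T} with hZ
      have hpm : ∀ i, (p i ∈ Z) = True := fun i => rfl
      have hqm : ∀ i, (q i ∈ Z) = (q i ∈ T) := fun i => rfl
      have hxm : ∀ i, (x i ∈ Z) = (x i ∈ T ∨ y i ∈ T) := fun i => rfl
      have hym : ∀ i, (y i ∈ Z) = (x i ∈ T ∨ y i ∈ T) := fun i => rfl
      refine ⟨Z, ?_, ?_⟩
      · rintro (i | i | i | i) he
        · exact trivial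
        · exact he
        · exact Or.inl he
        · exact Or.inr he
      · rw [Pr_count]
        have e1 : Z.ncard = b + qc T + sc T + sc T := by
          rw [ncard_split]
          have e1 : pc Z = b := ncard_fin_eq (fun i => by simp [hpm])
          have e2 : qc Z = qc T := by unfold qc; simp only [hqm]
          have e3 : xc Z = sc T := by unfold xc sc; simp only [hxm]
          have e4 : yc Z = sc T := by unfold yc sc; simp only [hym]
          omega
        have e2 : sc T ≤ {k | Cc k ⊆ Z}.ncard := by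
          refine mono_aux fun k hk => ?_
          show Cc k ⊆ Z
          rw [Cc_sub]
          exact ⟨fun i => trivial, hk, hk⟩
        omega

theorem W_gn {n : ℕ} (hn : n < b + 1) (hb : 1 ≤ b) : Gn n (El b) (W b hb) := by
  refine ⟨Set.toFinite _, fun T _ => ?_⟩
  obtain ⟨i₀, hi₀⟩ : ∃ i₀ : Fin (b + 1), ∀ j, T j ≠ D i₀ := by
    by_contra hcon
    push Not at hcon
    choose f hf using hcon
    have hinj : Function.Injective f := by
      intro i j hij
      apply D_inj
      rw [← hf i, ← hf j, hij]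
    have := Fintype.card_le_of_injective f hinj
    simp only [Fintype.card_fin] at this
    omega
  exact cert_of_cuts (Pr i₀) (R1 hb i₀) fun j => R2 hb i₀ (hi₀ j)

/-- The witness matroid is not base-orderable. -/
theorem W_not_bo (hb : 1 ≤ b) : ¬ BO (El b) (W b hb) := by
  classical
  rintro ⟨-, h⟩
  set B₁ : Set (El b) := {e | match e with
    | p _ => True
    | q _ => False
    | x _ => True
    | y _ => False} with hB₁
  set B₂ : Set (El b) := {e | match e with
    | p _ => False
    | q _ => True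
    | x _ => False
    | y _ => True} with hB₂
  have p1 : ∀ i, (p i ∈ B₁) = True := fun _ => rfl
  have q1 : ∀ i, (q i ∈ B₁) = False := fun _ => rfl
  have x1 : ∀ i, (x i ∈ B₁) = True := fun _ => rfl
  have y1 : ∀ i, (y i ∈ B₁) = False := fun _ => rfl
  have p2 : ∀ i, (p i ∈ B₂) = False := fun _ => rfl
  have q2 : ∀ i, (q i ∈ B₂) = True := fun _ => rfl
  have x2 : ∀ i, (x i ∈ B₂) = False := fun _ => rfl
  have y2 : ∀ i, (y i ∈ B₂) = True := fun _ => rfl
  have c1 : B₁.ncard = 2 * b + 1 := by
    rw [ncard_split]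
    have e1 : pc B₁ = b := ncard_fin_eq (fun i => by simp [p1])
    have e2 : qc B₁ = 0 := by unfold qc; simp [q1]
    have e3 : xc B₁ = b + 1 := ncard_fin_eq (fun i => by simp [x1])
    have e4 : yc B₁ = 0 := by unfold yc; simp [y1]
    omega
  have c2 : B₂.ncard = 2 * b + 1 := by
    rw [ncard_split]
    have e1 : pc B₂ = 0 := by unfold pc; simp [p2]
    have e2 : qc B₂ = b := ncard_fin_eq (fun i => by simp [q2])
    have e3 : xc B₂ = 0 := by unfold xc; simp [x2]
    have e4 : yc B₂ = b + 1 := ncard_fin_eq (fun i => by simp [y2])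
    omega
  have i1 : Ind B₁ := by
    refine ⟨c1.le, ?_, ?_⟩
    · unfold w
      have e1 : pc B₁ = b := ncard_fin_eq (fun i => by simp [p1])
      have e2 : bc B₁ = 0 := by unfold bc; simp [y1]
      omega
    · intro i hi
      have : q ⟨0, hb⟩ ∈ B₁ := by rw [hi, q_mem_D]; trivial
      rw [q1] at this
      exact this
  have i2 : Ind B₂ := by
    refine ⟨c2.le, ?_, ?_⟩
    · unfold w
      have e1 : pc B₂ = 0 := by unfold pc; simp [p2]
      have e2 : bc B₂ = 0 := by unfold bc; simp [x2]
      omega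
    · intro i hi
      have : x i ∈ B₂ := by rw [hi, x_mem_D]
      rw [x2] at this
      exact this
  have base : ∀ B : Set (El b), Ind B → B.ncard = 2 * b + 1 → (W b hb).IsBase B := by
    intro B hB hc
    refine Matroid.Indep.isBase_of_maximal (I := B) hB fun J hJ hBJ => ?_
    have hJ' : Ind J := hJ
    exact (Set.eq_of_subset_of_ncard_le hBJ (by rw [hc]; exact hJ'.1) (Set.toFinite _))
  have b1 := base B₁ i1 c1
  have b2 := base B₂ i2 c2
  obtain ⟨φ, hφ, hex⟩ := h B₁ B₂ b1 b2
  -- `φ (x i)` is some `q j`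
  have key : ∀ i, ∃ j, φ (x i) = q j := by
    intro i
    have hxi : x i ∈ B₁ := by rw [x1]; trivial
    have hm : φ (x i) ∈ B₂ := hφ.mapsTo hxi
    rcases hφx : φ (x i) with j | j | j | j
    · rw [hφx, p2] at hm; exact hm.elim
    · exact ⟨j, rfl⟩
    · rw [hφx, x2] at hm; exact hm.elim
    · exfalso
      by_cases hij : j = i
      · subst hij
        have h1 := hex (B₁ \ {x j}) sdiff_subset (by
          right
          rw [← b1.encard_eq_eRank, Set.encard_sdiff_singleton_add_one hxi])
        have h2 : (B₁ \ (B₁ \ {x j})) ∪ φ '' (B₁ \ {x j}) = D j := by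
          rw [hφ.injOn.image_sdiff_subset (singleton_subset_iff.2 hxi), hφ.image_eq, image_singleton,
            hφx]
          ext e
          rcases e with k | k | k | k
          · simp [p_mem_D, p1, p2]
          · simp [q_mem_D, q1, q2]
          · simp [x_mem_D, x1, x2]
          · simp [y_mem_D, y1, y2]
        rw [h2] at h1
        have h3 : Ind (D j) := h1.indep
        exact h3.2.2 j rfl
      · have h1 := hex {x i} (singleton_subset_iff.2 hxi) (Or.inl (encard_singleton _))
        rw [image_singleton, hφx] at h1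
        have h3 : Ind (B₁ \ {x i} ∪ {y j}) := h1.indep
        have h4 := h3.2.1
        unfold w at h4
        have e1 : pc (B₁ \ {x i} ∪ {y j}) = b := ncard_fin_eq (fun k => by simp [p1])
        have e2 : 1 ≤ bc (B₁ \ {x i} ∪ {y j}) := by
          unfold bc
          rw [Nat.one_le_iff_ne_zero, ← Nat.pos_iff_ne_zero, Set.ncard_pos (Set.toFinite _)]
          refine ⟨j, ?_, ?_⟩
          · left
            exact ⟨by rw [x1]; trivial, by simp [hij]⟩
          · right
            rfl
        omega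
  choose f hf using key
  have hinj : Function.Injective f := by
    intro i j hij
    have h1 : φ (x i) = φ (x j) := by rw [hf, hf, hij]
    have h2 := hφ.injOn (show x i ∈ B₁ by rw [x1]; trivial) (show x j ∈ B₁ by rw [x1]; trivial) h1
    exact x_inj h2
  have := Fintype.card_le_of_injective f hinj
  simp only [Fintype.card_fin] at this
  omega

end El

end Pool.Agent.Helper442.FE
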