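import Mathlib
import Pool.Agent.Helper442.FE.Gam
import Pool.Agent.Helper442.FE.WitCert

/-! Nonempty complete classes contain all gammoids; classes between the gammoids and the
base-orderable matroids are not finitely excluded. -/

set_option linter.unusedSectionVars false

namespace Pool.Agent.Helper442.FE

open Set

theorem iso_emptyOn {α τ : Type} (M : Matroid α) (hM : M.E = ∅) : Iso M (Matroid.emptyOn τ) := by
  have h1 : IsEmpty M.E := by rw [hM]; infer_instance
  have h2 : IsEmpty (Matroid.emptyOn τ).E := by rw [Matroid.emptyOn_ground]; infer_instance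
  refine ⟨Equiv.equivOfIsEmpty _ _, fun I => ?_⟩
  have e1 : (Subtype.val '' I : Set α) = ∅ := by
    rw [Set.eq_empty_of_isEmpty I, image_empty]
  have e2 : ∀ J : Set (Matroid.emptyOn τ).E, (Subtype.val '' J : Set τ) = ∅ := by
    intro J
    rw [Set.eq_empty_of_isEmpty J, image_empty]
  rw [e1, e2]
  exact ⟨fun _ => Matroid.empty_indep _, fun _ => Matroid.empty_indep _⟩

theorem induced_loopyOn {τ : Type} (V : Set τ) :
    IsInduced (fun _ _ => False) (Matroid.emptyOn τ) V (Matroid.loopyOn V) := by
  refine ⟨Matroid.loopyOn_ground V, fun X => ?_⟩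
  rw [Matroid.loopyOn_indep_iff]
  constructor
  · rintro rfl
    refine ⟨empty_subset _, ∅, Matroid.empty_indep _, ∅, by simp, by simp, by simp, by simp⟩
  · rintro ⟨-, Y, hY, hL⟩
    rw [Matroid.emptyOn_indep_iff] at hY
    subst hY
    obtain ⟨-, j, -, hj⟩ := map_of_linked hL
    rw [Set.eq_empty_iff_forall_notMem]
    exact fun x hx => hj hx

theorem IsComplete.freeOn {C : MClass} (hC : IsComplete C) (hne : ∃ α M, C α M) {τ : Type}
    [Finite τ] (V : Set τ) : C τ (Matroid.freeOn V) := by
  obtain ⟨α, M, hM⟩ := hne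
  have h1 := hC.restrict hM ∅ (empty_subset _)
  have h2 : C τ (Matroid.emptyOn τ) := hC.iso (iso_emptyOn _ (Matroid.restrict_ground_eq)) h1
  have h3 : C τ (Matroid.loopyOn V) := hC.induce h2 (induced_loopyOn V)
  have h4 := hC.dual h3
  rwa [Matroid.loopyOn_dual_eq] at h4

/-- Every nonempty complete class contains all gammoids. -/
theorem IsComplete.gammoid {C : MClass} (hC : IsComplete C) (hne : ∃ α M, C α M) {α : Type}
    {M : Matroid α} (hM : Gammoid α M) : C α M := by
  obtain ⟨τ, hτ, G, V, A, N, hN, hiso⟩ := hM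
  exact hC.iso hiso (hC.induce (hC.freeOn hne V) hN)

theorem Gammoid.finite {α : Type} {M : Matroid α} (hM : Gammoid α M) : M.E.Finite := by
  obtain ⟨τ, hτ, G, V, A, N, hN, e, _⟩ := hM
  have : Finite N.E := Set.toFinite _
  have : Finite M.E := Finite.of_equiv _ e
  exact Set.toFinite _

/-- Gammoids belong to every class `Gn n`. -/
theorem gn_nonempty (n : ℕ) : ∃ α M, Gn n α M := by
  refine ⟨Empty, Matroid.emptyOn Empty, Set.toFinite _, fun T hT => ⟨0, fun U hU => ?_, fun i => ?_⟩⟩
  · have h1 : cell (Matroid.emptyOn Empty).E T U = ∅ := by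
      ext x; exact x.elim
    rw [h1, rk_empty]
    unfold wt; simp
  · have h1 : T i = ∅ := by
      ext x; exact x.elim
    rw [h1, rk_empty]
    unfold wt; simp

theorem gammoid_iff_gn {α : Type} {M : Matroid α} : Gammoid α M ↔ ∀ n, Gn n α M := by
  constructor
  · intro h n
    exact (gn_isComplete n).gammoid (gn_nonempty n) h
  · intro h
    obtain ⟨n₀, hn₀⟩ := gammoid_of_gn (h 0).1
    exact hn₀ n₀ le_rfl (h n₀)

/-- The class of gammoids is complete. -/
theorem gammoid_isComplete : IsComplete Gammoid where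
  finite h := h.finite
  iso hiso h := gammoid_iff_gn.2 fun n => (gn_isComplete n).iso hiso (gammoid_iff_gn.1 h n)
  restrict h A hA := gammoid_iff_gn.2 fun n => (gn_isComplete n).restrict (gammoid_iff_gn.1 h n) A hA
  contract h A hA := gammoid_iff_gn.2 fun n => (gn_isComplete n).contract (gammoid_iff_gn.1 h n) A hA
  dual h := gammoid_iff_gn.2 fun n => (gn_isComplete n).dual (gammoid_iff_gn.1 h n)
  directSum h h' := gammoid_iff_gn.2 fun n =>
    (gn_isComplete n).directSum (gammoid_iff_gn.1 h n) (gammoid_iff_gn.1 h' n)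
  truncate h hk hT := gammoid_iff_gn.2 fun n =>
    (gn_isComplete n).truncate (gammoid_iff_gn.1 h n) hk hT
  induce h hN := gammoid_iff_gn.2 fun n => (gn_isComplete n).induce (gammoid_iff_gn.1 h n) hN

/-- No class between the gammoids and the base-orderable matroids is finitely excluded. -/
theorem not_finitelyExcluded {C : MClass} (h1 : ∀ (α : Type) (M : Matroid α), Gammoid α M → C α M)
    (h2 : ∀ (α : Type) (M : Matroid α), C α M → BO α M) : ¬ FinitelyExcluded C := by
  rintro ⟨k, β, F, hF, hav, hmax⟩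
  choose n₀ hn₀ using fun i => gammoid_of_gn (hF i)
  set n : ℕ := Finset.univ.sup n₀ with hn
  have hle : ∀ i, n₀ i ≤ n := fun i => Finset.le_sup (Finset.mem_univ i)
  have h3 : Avoids (Gn n) F := fun i hi => hav i (h1 _ _ (hn₀ i n (hle i) hi))
  have hb : 1 ≤ n + 1 := Nat.le_add_left 1 n
  have h4 : Gn n _ (El.W (n + 1) hb) := El.W_gn (by omega) hb
  exact El.W_not_bo hb (h2 _ _ (hmax (Gn n) (gn_isComplete n) h3 _ _ h4))

end Pool.Agent.Helper442.FE
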