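import Mathlib
import Pool.Agent.Helper442.FE.Link

/-! Gammoids are strongly base-orderable. -/

set_option linter.unusedSectionVars false

namespace Pool.Agent.Helper442.FE

open Set

/-- `S` can be matched perfectly onto `C`. -/
def PM {L R : Type} (adj : L → R → Prop) (S : Set L) (C : Set R) : Prop :=
  ∃ f : L → R, BijOn f S C ∧ ∀ s ∈ S, adj s (f s)

section

variable {L R : Type}

theorem pm_insert {adj : L → R → Prop} {S : Set L} {C : Set R} {e : L} {c : R} (h : PM adj S C)
    (he : e ∉ S) (hc : c ∉ C) (hec : adj e c) : PM adj (insert e S) (insert c C) := by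
  classical
  obtain ⟨f, hf1, hf2⟩ := h
  refine ⟨Function.update f e c, ?_, ?_⟩
  · have h1 : BijOn (Function.update f e c) S C := by
      refine hf1.congr fun s hs => ?_
      rw [Function.update_of_ne]
      rintro rfl
      exact he hs
    have h2 := h1.insert (a := e) (by rw [Function.update_self]; exact hc)
    rwa [Function.update_self] at h2
  · rintro s (rfl | hs)
    · rw [Function.update_self]; exact hec
    · rw [Function.update_of_ne]
      · exact hf2 s hs
      · rintro rfl; exact he hs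

theorem BijOn.remove {f : L → R} {S : Set L} {C : Set R} (h : BijOn f S C) {e : L} (he : e ∈ S) :
    BijOn f (S \ {e}) (C \ {f e}) := by
  refine ⟨?_, h.injOn.mono sdiff_subset, ?_⟩
  · rintro s ⟨hs, hne⟩
    refine ⟨h.mapsTo hs, fun hc => hne ?_⟩
    exact h.injOn hs he hc
  · rintro c ⟨hc, hne⟩
    obtain ⟨s, hs, rfl⟩ := h.surjOn hc
    exact ⟨s, ⟨hs, fun h' => hne (by rw [h']; rfl)⟩, rfl⟩

/-- Merging two neighbours of `e`. -/
theorem pm_unmerge [DecidableEq R] {adj : L → R → Prop} {S : Set L} {C : Set R} {e : L} {c₁ c₂ : R}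
    (hne : c₁ ≠ c₂) (h1 : c₁ ∈ C) (h2 : c₂ ∈ C) (he : e ∉ S) (a1 : adj e c₁) (a2 : adj e c₂)
    (h : PM (fun s c => if c = c₁ then adj s c₁ ∨ adj s c₂ else adj s c) S (C \ {c₂})) :
    PM adj (insert e S) C := by
  classical
  obtain ⟨g, hg1, hg2⟩ := h
  obtain ⟨s₀, hs₀, hgs⟩ := hg1.surjOn (show c₁ ∈ C \ {c₂} from ⟨h1, hne⟩)
  have key := hg2 s₀ hs₀
  simp only [hgs, if_true] at key
  have hC : insert c₂ (C \ {c₂}) = C := by
    rw [insert_sdiff_singleton, insert_eq_of_mem h2]
  by_cases hk : adj s₀ c₁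
  · rw [← hC]
    refine pm_insert ⟨g, hg1, fun s hs => ?_⟩ he (fun h => h.2 rfl) a2
    by_cases hs' : s = s₀
    · rw [hs', hgs]; exact hk
    · have h3 : g s ≠ c₁ := by
        intro h
        exact hs' (hg1.injOn hs hs₀ (h.trans hgs.symm))
      have := hg2 s hs
      simp only [if_neg h3] at this
      exact this
  · have hk2 : adj s₀ c₂ := key.resolve_left hk
    -- first move `s₀` to `c₂`
    have h3 : PM adj (S \ {s₀}) ((C \ {c₂}) \ {c₁}) := by
      refine ⟨g, by rw [← hgs]; exact BijOn.remove hg1 hs₀, fun s hs => ?_⟩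
      have h4 : g s ≠ c₁ := by
        intro h
        exact hs.2 (hg1.injOn hs.1 hs₀ (h.trans hgs.symm))
      have := hg2 s hs.1
      simp only [if_neg h4] at this
      exact this
    have h5 : PM adj (insert s₀ (S \ {s₀})) (insert c₂ ((C \ {c₂}) \ {c₁})) :=
      pm_insert h3 (fun h => h.2 rfl) (fun h => h.1.2 rfl) hk2
    rw [insert_sdiff_singleton, insert_eq_of_mem hs₀] at h5
    have h6 := pm_insert h5 he (c := c₁) (by
      rintro (h | h)
      · exact hne h
      · exact h.2 rfl) a1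
    have h7 : insert c₁ (insert c₂ ((C \ {c₂}) \ {c₁})) = C := by
      rw [insert_comm, insert_sdiff_singleton, insert_eq_of_mem (show c₁ ∈ C \ {c₂} from ⟨h1, hne⟩), hC]
    rwa [h7] at h6

/-- Sets that can be matched perfectly onto the same set: strong exchange. -/
theorem pm_sbo [DecidableEq L] [DecidableEq R] : ∀ (n : ℕ) (adj : L → R → Prop) (C : Set R)
    (B₁ B₂ : Set L), (B₁ ∩ B₂).Finite → (B₁ ∩ B₂).ncard = n → PM adj B₁ C → PM adj B₂ C →
    ∃ φ : L → L, BijOn φ B₁ B₂ ∧ (∀ e ∈ B₁, e ∈ B₂ → φ e = e) ∧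
      ∀ X ⊆ B₁, PM adj ((B₁ \ X) ∪ φ '' X) C := by
  classical
  intro n
  induction n with
  | zero =>
    intro adj C B₁ B₂ hfin hn h1 h2
    have hdisj : B₁ ∩ B₂ = ∅ := (Set.ncard_eq_zero hfin).1 hn
    obtain ⟨f, hf1, hf2⟩ := h1
    obtain ⟨g, hg1, hg2⟩ := h2
    by_cases hL : Nonempty L
    swap
    · have hB1 : B₁ = ∅ := by
        ext x; exact (hL ⟨x⟩).elim
      have hB2 : B₂ = ∅ := by
        ext x; exact (hL ⟨x⟩).elim
      subst hB1 hB2
      refine ⟨id, ?_, by simp, fun X hX => ?_⟩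
      · exact bijOn_empty id
      · have : X = ∅ := subset_empty_iff.1 hX
        subst this
        refine ⟨f, by simpa using hf1, by simp⟩
    set φ : L → L := fun s => Function.invFunOn g B₂ (f s) with hφ
    have hφ1 : ∀ s ∈ B₁, φ s ∈ B₂ ∧ g (φ s) = f s := by
      intro s hs
      have h3 : f s ∈ g '' B₂ := hg1.surjOn (hf1.mapsTo hs)
      exact ⟨Function.invFunOn_mem h3, Function.invFunOn_eq h3⟩
    have hinj : InjOn φ B₁ := by
      intro s hs t ht hst
      apply hf1.injOn hs ht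
      rw [← (hφ1 s hs).2, ← (hφ1 t ht).2, hst]
    refine ⟨φ, ⟨fun s hs => (hφ1 s hs).1, hinj, ?_⟩, ?_, ?_⟩
    · intro t ht
      obtain ⟨s, hs, hst⟩ := hf1.surjOn (hg1.mapsTo ht)
      exact ⟨s, hs, hg1.injOn (hφ1 s hs).1 ht ((hφ1 s hs).2.trans hst)⟩
    · intro e he he'
      have : e ∈ B₁ ∩ B₂ := ⟨he, he'⟩
      rw [hdisj] at this
      exact this.elim
    · intro X hX
      have hd : ∀ s, s ∈ B₁ → s ∉ B₂ := by
        intro s hs hs'
        have : s ∈ B₁ ∩ B₂ := ⟨hs, hs'⟩
        rw [hdisj] at this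
        exact this
      have hd' : ∀ x ∈ X, φ x ∉ B₁ := fun x hx h => hd _ h (hφ1 x (hX hx)).1
      set k : L → R := fun s => if s ∈ B₁ then f s else g s with hk
      have kp : ∀ s, s ∈ B₁ → k s = f s := fun s hs => if_pos hs
      have kn : ∀ s, s ∉ B₁ → k s = g s := fun s hs => if_neg hs
      refine ⟨k, ⟨?_, ?_, ?_⟩, ?_⟩
      · rintro s (hs | ⟨x, hx, rfl⟩)
        · rw [kp s hs.1]; exact hf1.mapsTo hs.1
        · rw [kn _ (hd' x hx)]
          exact hg1.mapsTo (hφ1 x (hX hx)).1
      · rintro s (hs | ⟨x, hx, rfl⟩) t (ht | ⟨z, hz, rfl⟩) hst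
        · rw [kp s hs.1, kp t ht.1] at hst
          exact hf1.injOn hs.1 ht.1 hst
        · rw [kp s hs.1, kn _ (hd' z hz), (hφ1 z (hX hz)).2] at hst
          have := hf1.injOn hs.1 (hX hz) hst
          exact absurd (this ▸ hz) hs.2
        · rw [kp t ht.1, kn _ (hd' x hx), (hφ1 x (hX hx)).2] at hst
          have := hf1.injOn (hX hx) ht.1 hst
          exact absurd (this ▸ hx) ht.2
        · rw [kn _ (hd' x hx), kn _ (hd' z hz)] at hst
          exact hg1.injOn (hφ1 x (hX hx)).1 (hφ1 z (hX hz)).1 hst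
      · intro c hc
        obtain ⟨s, hs, rfl⟩ := hf1.surjOn hc
        by_cases hsX : s ∈ X
        · refine ⟨φ s, Or.inr ⟨s, hsX, rfl⟩, ?_⟩
          rw [kn _ (hd' s hsX)]
          exact (hφ1 s hs).2
        · exact ⟨s, Or.inl ⟨hs, hsX⟩, kp s hs⟩
      · rintro s (hs | ⟨x, hx, rfl⟩)
        · rw [kp s hs.1]; exact hf2 s hs.1
        · rw [kn _ (hd' x hx)]
          exact hg2 _ (hφ1 x (hX hx)).1
  | succ n ih =>
    intro adj C B₁ B₂ hfin hn h1 h2
    obtain ⟨e, he1, he2⟩ : (B₁ ∩ B₂).Nonempty := by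
      rw [← Set.ncard_pos hfin]; omega
    obtain ⟨f, hf1, hf2⟩ := h1
    obtain ⟨g, hg1, hg2⟩ := h2
    have hint : (B₁ \ {e}) ∩ (B₂ \ {e}) = (B₁ ∩ B₂) \ {e} := by
      ext t; simp only [mem_inter_iff, mem_sdiff, mem_singleton_iff]; tauto
    have hfin' : ((B₁ \ {e}) ∩ (B₂ \ {e})).Finite := by rw [hint]; exact hfin.subset sdiff_subset
    have hn' : ((B₁ \ {e}) ∩ (B₂ \ {e})).ncard = n := by
      have hm : e ∈ B₁ ∩ B₂ := ⟨he1, he2⟩
      rw [hint, Set.ncard_sdiff_singleton_of_mem hm, hn]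
      rfl
    -- extension of a solution of the smaller problem
    have ext : ∀ (φ : L → L), BijOn φ (B₁ \ {e}) (B₂ \ {e}) →
        (∀ s ∈ B₁ \ {e}, s ∈ B₂ \ {e} → φ s = s) →
        (∀ X ⊆ B₁ \ {e}, PM adj (insert e ((B₁ \ {e}) \ X ∪ φ '' X)) C) →
        ∃ φ : L → L, BijOn φ B₁ B₂ ∧ (∀ e ∈ B₁, e ∈ B₂ → φ e = e) ∧
          ∀ X ⊆ B₁, PM adj ((B₁ \ X) ∪ φ '' X) C := by
      intro φ hφ1 hφ2 hφ3
      have hup : ∀ s, s ≠ e → Function.update φ e e s = φ s := fun s hs => Function.update_of_ne hs _ _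
      refine ⟨Function.update φ e e, ?_, ?_, ?_⟩
      · have h3 : BijOn (Function.update φ e e) (B₁ \ {e}) (B₂ \ {e}) :=
          hφ1.congr fun s hs => (hup s hs.2).symm
        have h4 := h3.insert (a := e) (by rw [Function.update_self]; exact fun h => h.2 rfl)
        rw [Function.update_self, insert_sdiff_singleton, insert_sdiff_singleton,
          insert_eq_of_mem he1, insert_eq_of_mem he2] at h4
        exact h4
      · intro s hs hs'
        by_cases hse : s = e
        · rw [hse, Function.update_self]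
        · rw [hup s hse]; exact hφ2 s ⟨hs, hse⟩ ⟨hs', hse⟩
      · intro X hX
        have h3 := hφ3 (X \ {e}) (fun s hs => ⟨hX hs.1, hs.2⟩)
        have h4 : insert e ((B₁ \ {e}) \ (X \ {e}) ∪ φ '' (X \ {e})) =
            (B₁ \ X) ∪ Function.update φ e e '' X := by
          ext t
          constructor
          · rintro (rfl | ⟨ht1, ht2⟩ | ⟨s, hs, rfl⟩)
            · by_cases htX : t ∈ X
              · exact Or.inr ⟨t, htX, Function.update_self _ _ _⟩
              · exact Or.inl ⟨he1, htX⟩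
            · exact Or.inl ⟨ht1.1, fun h => ht2 ⟨h, ht1.2⟩⟩
            · exact Or.inr ⟨s, hs.1, hup s hs.2⟩
          · rintro (⟨ht1, ht2⟩ | ⟨s, hs, rfl⟩)
            · by_cases hte : t = e
              · exact Or.inl hte
              · exact Or.inr (Or.inl ⟨⟨ht1, hte⟩, fun h => ht2 h.1⟩)
            · by_cases hse : s = e
              · rw [hse, Function.update_self]; exact Or.inl rfl
              · rw [hup s hse]
                exact Or.inr (Or.inr ⟨s, ⟨hs, hse⟩, rfl⟩)
        rwa [h4] at h3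
    have hnot : ∀ φ : L → L, BijOn φ (B₁ \ {e}) (B₂ \ {e}) → ∀ X ⊆ B₁ \ {e},
        e ∉ (B₁ \ {e}) \ X ∪ φ '' X := by
      rintro φ hφ X hX (h | ⟨s, hs, hse⟩)
      · exact h.1.2 rfl
      · have := (hφ.mapsTo (hX hs)).2
        exact this hse
    by_cases hc : f e = g e
    · -- equal colours: delete
      have k1 : PM adj (B₁ \ {e}) (C \ {f e}) := ⟨f, BijOn.remove hf1 he1, fun s hs => hf2 s hs.1⟩
      have k2 : PM adj (B₂ \ {e}) (C \ {f e}) := ⟨g, by rw [hc]; exact BijOn.remove hg1 he2,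
        fun s hs => hg2 s hs.1⟩
      obtain ⟨φ, hφ1, hφ2, hφ3⟩ := ih adj _ _ _ hfin' hn' k1 k2
      refine ext φ hφ1 hφ2 fun X hX => ?_
      have h3 := pm_insert (hφ3 X hX) (hnot φ hφ1 X hX) (c := f e) (fun h => h.2 rfl) (hf2 e he1)
      rwa [insert_sdiff_singleton, insert_eq_of_mem (hf1.mapsTo he1)] at h3
    · -- different colours: merge
      set adj' : L → R → Prop := fun s c => if c = f e then adj s (f e) ∨ adj s (g e) else adj s c
        with hadj'
      have k2 : PM adj' (B₂ \ {e}) (C \ {g e}) := by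
        refine ⟨g, BijOn.remove hg1 he2, fun s hs => ?_⟩
        rw [hadj']
        simp only []
        split_ifs with h
        · rw [← h]; exact Or.inl (hg2 s hs.1)
        · exact hg2 s hs.1
      have k1 : PM adj' (B₁ \ {e}) (C \ {g e}) := by
        refine ⟨fun s => if f s = g e then f e else f s, ⟨?_, ?_, ?_⟩, ?_⟩
        · intro s hs
          simp only []
          split_ifs with h
          · exact ⟨hf1.mapsTo he1, hc⟩
          · exact ⟨hf1.mapsTo hs.1, h⟩
        · intro s hs t ht hst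
          simp only [] at hst
          have n1 : f s ≠ f e := fun h => hs.2 (hf1.injOn hs.1 he1 h)
          have n2 : f t ≠ f e := fun h => ht.2 (hf1.injOn ht.1 he1 h)
          split_ifs at hst with h h' h'
          · exact hf1.injOn hs.1 ht.1 (h.trans h'.symm)
          · exact absurd hst.symm n2
          · exact absurd hst n1
          · exact hf1.injOn hs.1 ht.1 hst
        · rintro c ⟨hcC, hcne⟩
          by_cases hce : c = f e
          · obtain ⟨s, hs, hse⟩ := hf1.surjOn (hg1.mapsTo he2)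
            refine ⟨s, ⟨hs, ?_⟩, ?_⟩
            · intro h
              rw [mem_singleton_iff] at h
              rw [h] at hse
              exact hc hse
            · simp only [if_pos hse, hce]
          · obtain ⟨s, hs, rfl⟩ := hf1.surjOn hcC
            refine ⟨s, ⟨hs, fun h => hce (by rw [mem_singleton_iff] at h; rw [h])⟩, ?_⟩
            have : f s ≠ g e := hcne
            simp only [if_neg this]
        · intro s hs
          have n1 : f s ≠ f e := fun h => hs.2 (hf1.injOn hs.1 he1 h)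
          rw [hadj']
          simp only []
          by_cases h : f s = g e
          · rw [if_pos h, if_pos rfl]
            right
            rw [← h]
            exact hf2 s hs.1
          · rw [if_neg h, if_neg n1]
            exact hf2 s hs.1
      obtain ⟨φ, hφ1, hφ2, hφ3⟩ := ih adj' _ _ _ hfin' hn' k1 k2
      refine ext φ hφ1 hφ2 fun X hX => ?_
      exact pm_unmerge hc (hf1.mapsTo he1) (hg1.mapsTo he2) (hnot φ hφ1 X hX) (hf2 e he1)
        (hg2 e he2) (hφ3 X hX)

end

end Pool.Agent.Helper442.FE
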