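import Mathlib
import Pool.Agent.Helper442.FE.Sbo

/-! Gammoids are strongly base-orderable: application to induced matroids. -/

set_option linter.unusedSectionVars false

namespace Pool.Agent.Helper442.FE

open Set

section

variable {τ : Type} [Finite τ] {G : τ → τ → Prop} {V A : Set τ} {N : Matroid τ}

/-- The bipartite graph of a directed graph, with extra vertices joined to all vertices of `V`. -/
def bip (G : τ → τ → Prop) (V : Set τ) (ρ : ℕ) : τ ⊕ Fin ρ → τ → Prop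
  | Sum.inl t, s => s = t ∨ G s t
  | Sum.inr _, s => s ∈ V

theorem pm_of_lk {ρ : ℕ} {B : Set τ} (hB : Lk G (Matroid.freeOn V) B) (hρ : B.ncard = ρ) :
    PM (bip G V ρ) (Sum.inl '' Bᶜ ∪ range Sum.inr) univ := by
  classical
  obtain ⟨Y, hY, hL⟩ := hB
  rw [Matroid.freeOn_indep_iff] at hY
  obtain ⟨⟨m, hm1, hm2, hm3⟩, j, hj1, hj2⟩ := map_of_linked hL
  have c1 : B.ncard ≤ Y.ncard := Set.ncard_le_ncard_of_injOn j hj2 hj1 (Set.toFinite _)
  have c2 : (Bᶜ).ncard ≤ (Yᶜ).ncard :=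
    Set.ncard_le_ncard_of_injOn m (fun t ht => hm3 t ht) hm1 (Set.toFinite _)
  have c3 := Set.ncard_add_ncard_compl B
  have c4 := Set.ncard_add_ncard_compl Y
  have hYρ : Y.ncard = ρ := by omega
  have himg : m '' Bᶜ = Yᶜ := by
    refine Set.eq_of_subset_of_ncard_le ?_ ?_ (Set.toFinite _)
    · rintro _ ⟨t, ht, rfl⟩
      exact hm3 t ht
    · rw [hm1.ncard_image]
      omega
  have e : Nonempty (Fin ρ ≃ Y) := by
    refine ⟨(Finite.equivFinOfCardEq ?_).symm⟩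
    rw [← hYρ]
    rfl
  obtain ⟨e⟩ := e
  refine ⟨Sum.elim m (fun z => (e z : τ)), ⟨fun _ _ => mem_univ _, ?_, ?_⟩, ?_⟩
  · rintro s (⟨t, ht, rfl⟩ | ⟨z, rfl⟩) s' (⟨t', ht', rfl⟩ | ⟨z', rfl⟩) h
    · simp only [Sum.elim_inl] at h
      rw [hm1 ht ht' h]
    · simp only [Sum.elim_inl, Sum.elim_inr] at h
      exact absurd (h ▸ (e z').2) (hm3 t ht)
    · simp only [Sum.elim_inl, Sum.elim_inr] at h
      exact absurd (h.symm ▸ (e z).2) (hm3 t' ht')
    · simp only [Sum.elim_inr] at h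
      rw [e.injective (Subtype.ext h)]
  · intro s _
    by_cases hs : s ∈ Y
    · exact ⟨Sum.inr (e.symm ⟨s, hs⟩), Or.inr ⟨_, rfl⟩, by simp⟩
    · have : s ∈ m '' Bᶜ := by rw [himg]; exact hs
      obtain ⟨t, ht, rfl⟩ := this
      exact ⟨Sum.inl t, Or.inl ⟨t, ht, rfl⟩, rfl⟩
  · rintro s (⟨t, ht, rfl⟩ | ⟨z, rfl⟩)
    · exact hm2 t ht
    · exact hY (e z).2

theorem lk_of_pm {ρ : ℕ} {B : Set τ} (h : PM (bip G V ρ) (Sum.inl '' Bᶜ ∪ range Sum.inr) univ) :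
    Lk G (Matroid.freeOn V) B ∧ B.ncard = ρ := by
  classical
  obtain ⟨f, hf1, hf2⟩ := h
  have hinj : InjOn (fun t => f (Sum.inl t)) Bᶜ := by
    intro t ht t' ht' h
    exact Sum.inl_injective (hf1.injOn (Or.inl ⟨t, ht, rfl⟩) (Or.inl ⟨t', ht', rfl⟩) h)
  obtain ⟨P, hP1, hP2, hP3, hP4, -⟩ := linked_of_map _ (fun t => f (Sum.inl t)) B rfl hinj
    (fun t ht => hf2 (Sum.inl t) (Or.inl ⟨t, ht, rfl⟩))
  refine ⟨⟨_, ?_, P, hP1, hP2, hP3, hP4⟩, ?_⟩
  · rw [Matroid.freeOn_indep_iff]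
    intro s hs
    obtain ⟨u, hu, rfl⟩ := hf1.surjOn (mem_univ s)
    rcases hu with ⟨t, ht, rfl⟩ | ⟨z, rfl⟩
    · exact absurd ⟨t, ht, rfl⟩ hs
    · exact hf2 (Sum.inr z) (Or.inr ⟨z, rfl⟩)
  · have c1 : (Sum.inl '' Bᶜ ∪ range Sum.inr : Set (τ ⊕ Fin ρ)).ncard = (univ : Set τ).ncard := by
      rw [← hf1.image_eq, hf1.injOn.ncard_image]
    rw [Set.ncard_union_eq, Set.ncard_image_of_injective _ Sum.inl_injective, ← image_univ,
      Set.ncard_image_of_injective _ Sum.inr_injective, Set.ncard_univ, Set.ncard_univ,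
      Nat.card_fin] at c1
    · have c3 := Set.ncard_add_ncard_compl B
      omega
    · rw [Set.disjoint_left]
      rintro _ ⟨t, _, rfl⟩ ⟨z, hz⟩
      cases hz

theorem isBase_of_card {B B₁ : Set τ} (hB₁ : N.IsBase B₁) (hB : N.Indep B)
    (hc : B.ncard = B₁.ncard) : N.IsBase B := by
  obtain ⟨B', hB', hs⟩ := hB.exists_isBase_superset
  have h1 : B'.ncard = B₁.ncard := hB'.ncard_eq_ncard_of_isBase hB₁
  have h2 : B = B' := Set.eq_of_subset_of_ncard_le hs (by omega) (Set.toFinite _)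
  rw [h2]
  exact hB'

/-- Matroids induced from free matroids are strongly base-orderable. -/
theorem induced_sbo (hN : IsInduced G (Matroid.freeOn V) A N) : ∀ B₁ B₂, N.IsBase B₁ →
    N.IsBase B₂ → ∃ φ, BijOn φ B₁ B₂ ∧ ∀ X ⊆ B₁, N.IsBase ((B₁ \ X) ∪ φ '' X) := by
  classical
  intro B₁ B₂ h1 h2
  have hA : ∀ B, N.IsBase B → B ⊆ A := fun B hB => by
    have := hB.subset_ground
    rwa [hN.1] at this
  have k1 : Lk G (Matroid.freeOn V) B₁ := ((hN.2 B₁).1 h1.indep).2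
  have k2 : Lk G (Matroid.freeOn V) B₂ := ((hN.2 B₂).1 h2.indep).2
  have hc : B₂.ncard = B₁.ncard := h2.ncard_eq_ncard_of_isBase h1
  set ρ := B₁.ncard with hρ
  set E₁ : Set (τ ⊕ Fin ρ) := Sum.inl '' B₁ᶜ ∪ range Sum.inr with hE₁
  set E₂ : Set (τ ⊕ Fin ρ) := Sum.inl '' B₂ᶜ ∪ range Sum.inr with hE₂
  have m1 : ∀ t, (Sum.inl t : τ ⊕ Fin ρ) ∈ E₁ ↔ t ∉ B₁ := by
    intro t
    rw [hE₁]
    constructor
    · rintro (⟨s, hs, h⟩ | ⟨z, hz⟩)
      · rwa [← Sum.inl_injective h]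
      · cases hz
    · exact fun h => Or.inl ⟨t, h, rfl⟩
  have m2 : ∀ t, (Sum.inl t : τ ⊕ Fin ρ) ∈ E₂ ↔ t ∉ B₂ := by
    intro t
    rw [hE₂]
    constructor
    · rintro (⟨s, hs, h⟩ | ⟨z, hz⟩)
      · rwa [← Sum.inl_injective h]
      · cases hz
    · exact fun h => Or.inl ⟨t, h, rfl⟩
  have r1 : ∀ z, (Sum.inr z : τ ⊕ Fin ρ) ∈ E₁ := fun z => Or.inr ⟨z, rfl⟩
  have r2 : ∀ z, (Sum.inr z : τ ⊕ Fin ρ) ∈ E₂ := fun z => Or.inr ⟨z, rfl⟩
  obtain ⟨ψ, hψ1, hψ2, hψ3⟩ := pm_sbo _ (bip G V ρ) univ E₁ E₂ (Set.toFinite _) rfl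
    (pm_of_lk k1 rfl) (pm_of_lk k2 hc)
  -- the exchange map
  have key : ∀ b, ∃ t, (b ∈ B₁ ∧ b ∉ B₂) → (t ∈ B₂ ∧ t ∉ B₁ ∧ ψ (Sum.inl t) = Sum.inl b) := by
    intro b
    by_cases hb : b ∈ B₁ ∧ b ∉ B₂
    · obtain ⟨u, hu, hub⟩ := hψ1.surjOn ((m2 b).2 hb.2)
      have hu2 : u ∉ E₂ := by
        intro h
        rw [hψ2 u hu h] at hub
        rw [hub] at hu
        exact (m1 b).1 hu hb.1
      rcases u with t | z
      · refine ⟨t, fun _ => ⟨?_, (m1 t).1 hu, hub⟩⟩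
        by_contra ht
        exact hu2 ((m2 t).2 ht)
      · exact absurd (r2 z) hu2
    · exact ⟨b, fun h => absurd h hb⟩
  choose χ hχ using key
  set φ : τ → τ := fun b => if b ∈ B₂ then b else χ b with hφ
  have φ1 : ∀ b, b ∈ B₂ → φ b = b := fun b hb => if_pos hb
  have φ2 : ∀ b, b ∉ B₂ → φ b = χ b := fun b hb => if_neg hb
  have hmaps : MapsTo φ B₁ B₂ := by
    intro b hb
    by_cases hb2 : b ∈ B₂
    · rw [φ1 b hb2]; exact hb2
    · rw [φ2 b hb2]; exact (hχ b ⟨hb, hb2⟩).1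
  have hinj : InjOn φ B₁ := by
    intro b hb b' hb' h
    by_cases hb2 : b ∈ B₂ <;> by_cases hb2' : b' ∈ B₂
    · rwa [φ1 b hb2, φ1 b' hb2'] at h
    · rw [φ1 b hb2, φ2 b' hb2'] at h
      exact absurd (h ▸ hb) (hχ b' ⟨hb', hb2'⟩).2.1
    · rw [φ2 b hb2, φ1 b' hb2'] at h
      exact absurd (h.symm ▸ hb') (hχ b ⟨hb, hb2⟩).2.1
    · rw [φ2 b hb2, φ2 b' hb2'] at h
      have e1 := (hχ b ⟨hb, hb2⟩).2.2
      have e2 := (hχ b' ⟨hb', hb2'⟩).2.2
      rw [h, e2] at e1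
      exact (Sum.inl_injective e1).symm
  have hbij : BijOn φ B₁ B₂ := by
    refine ⟨hmaps, hinj, ?_⟩
    have : φ '' B₁ = B₂ := by
      refine Set.eq_of_subset_of_ncard_le hmaps.image_subset ?_ (Set.toFinite _)
      rw [hinj.ncard_image, hc]
    rw [SurjOn, this]
  refine ⟨φ, hbij, fun X hX => ?_⟩
  set X' : Set (τ ⊕ Fin ρ) := (fun b => Sum.inl (χ b)) '' (X \ B₂) with hX'
  have hXd : ∀ b ∈ X \ B₂, b ∈ B₁ ∧ b ∉ B₂ := fun b hb => ⟨hX hb.1, hb.2⟩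
  have hX'E : X' ⊆ E₁ := by
    rintro _ ⟨b, hb, rfl⟩
    exact (m1 _).2 (hχ b (hXd b hb)).2.1
  have hpm := hψ3 X' hX'E
  have hset : (E₁ \ X') ∪ ψ '' X' = Sum.inl '' ((B₁ \ X) ∪ φ '' X)ᶜ ∪ range Sum.inr := by
    have himg : ψ '' X' = Sum.inl '' (X \ B₂) := by
      rw [hX', image_image]
      refine image_congr fun b hb => ?_
      exact (hχ b (hXd b hb)).2.2
    rw [himg]
    ext u
    rcases u with t | z
    · have hR : (Sum.inl t : τ ⊕ Fin ρ) ∈ Sum.inl '' ((B₁ \ X) ∪ φ '' X)ᶜ ∪ range Sum.inr ↔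
          t ∉ (B₁ \ X) ∪ φ '' X := by
        constructor
        · rintro (⟨s, hs, h⟩ | ⟨z, hz⟩)
          · rwa [← Sum.inl_injective h]
          · cases hz
        · exact fun h => Or.inl ⟨t, h, rfl⟩
      rw [hR]
      constructor
      · rintro (⟨ht1, ht2⟩ | ⟨s, hs, h⟩) hcon
        · have ht1' := (m1 t).1 ht1
          rcases hcon with hcon | ⟨b, hb, hbt⟩
          · exact ht1' hcon.1
          · by_cases hb2 : b ∈ B₂
            · rw [φ1 b hb2] at hbt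
              exact ht1' (hbt ▸ hX hb)
            · rw [φ2 b hb2] at hbt
              exact ht2 ⟨b, ⟨hb, hb2⟩, by simp only [hbt]⟩
        · have hst := Sum.inl_injective h
          subst hst
          rcases hcon with hcon | ⟨b, hb, hbt⟩
          · exact hcon.2 hs.1
          · by_cases hb2 : b ∈ B₂
            · rw [φ1 b hb2] at hbt
              exact hs.2 (hbt ▸ hb2)
            · rw [φ2 b hb2] at hbt
              exact hs.2 (hbt ▸ (hχ b ⟨hX hb, hb2⟩).1)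
      · intro ht
        by_cases htB : t ∈ B₁
        · right
          have htX : t ∈ X := by
            by_contra h
            exact ht (Or.inl ⟨htB, h⟩)
          refine ⟨t, ⟨htX, fun h => ht (Or.inr ⟨t, htX, φ1 t h⟩)⟩, rfl⟩
        · left
          refine ⟨(m1 t).2 htB, ?_⟩
          rintro ⟨b, hb, hbt⟩
          refine ht (Or.inr ⟨b, hb.1, ?_⟩)
          rw [φ2 b hb.2]
          exact Sum.inl_injective hbt
    · constructor
      · exact fun _ => Or.inr ⟨z, rfl⟩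
      · intro _
        left
        refine ⟨r1 z, ?_⟩
        rintro ⟨b, hb, h⟩
        cases h
  rw [hset] at hpm
  obtain ⟨hl, hcard⟩ := lk_of_pm hpm
  refine isBase_of_card h1 ((hN.2 _).2 ⟨?_, hl⟩) (by rw [hcard])
  rintro t (ht | ⟨b, hb, rfl⟩)
  · exact hA _ h1 ht.1
  · exact hA _ h2 (hmaps (hX hb))

end

/-- Strong base-orderability is invariant under isomorphism. -/
theorem sbo_iso {α β : Type} {M : Matroid α} {N : Matroid β} (hiso : Iso N M)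
    (hN : ∀ B₁ B₂, N.IsBase B₁ → N.IsBase B₂ →
      ∃ φ, BijOn φ B₁ B₂ ∧ ∀ X ⊆ B₁, N.IsBase ((B₁ \ X) ∪ φ '' X)) :
    ∀ B₁ B₂, M.IsBase B₁ → M.IsBase B₂ →
      ∃ φ, BijOn φ B₁ B₂ ∧ ∀ X ⊆ B₁, M.IsBase ((B₁ \ X) ∪ φ '' X) := by
  classical
  obtain ⟨e, he⟩ := hiso
  by_cases hE : M.E = ∅
  · intro B₁ B₂ h1 h2
    have e1 : B₁ = ∅ := subset_empty_iff.1 (hE ▸ h1.subset_ground)
    have e2 : B₂ = ∅ := subset_empty_iff.1 (hE ▸ h2.subset_ground)
    subst e1 e2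
    refine ⟨id, bijOn_empty id, fun X hX => ?_⟩
    have : X = ∅ := subset_empty_iff.1 hX
    subst this
    simpa using h1
  obtain ⟨x₀, hx₀⟩ := Set.nonempty_iff_ne_empty.2 hE
  set t₀ : β := (e.symm ⟨x₀, hx₀⟩ : β) with ht₀
  set g : α → β := fun x => if h : x ∈ M.E then (e.symm ⟨x, h⟩ : β) else t₀ with hg
  set g' : β → α := fun t => if h : t ∈ N.E then (e ⟨t, h⟩ : α) else x₀ with hg'
  have hg1 : ∀ x (h : x ∈ M.E), g x = e.symm ⟨x, h⟩ := fun x h => dif_pos h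
  have hg2 : ∀ t (h : t ∈ N.E), g' t = e ⟨t, h⟩ := fun t h => dif_pos h
  have gE : ∀ x ∈ M.E, g x ∈ N.E := fun x h => by rw [hg1 x h]; exact (e.symm ⟨x, h⟩).2
  have g'E : ∀ t ∈ N.E, g' t ∈ M.E := fun t h => by rw [hg2 t h]; exact (e ⟨t, h⟩).2
  have gg' : ∀ x ∈ M.E, g' (g x) = x := by
    intro x h
    have h1 : g x ∈ N.E := gE x h
    rw [hg2 _ h1]
    have : (⟨g x, h1⟩ : N.E) = e.symm ⟨x, h⟩ := Subtype.ext (hg1 x h)
    rw [this, Equiv.apply_symm_apply]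
  have g'g : ∀ t ∈ N.E, g (g' t) = t := by
    intro t h
    have h1 : g' t ∈ M.E := g'E t h
    rw [hg1 _ h1]
    have : (⟨g' t, h1⟩ : M.E) = e ⟨t, h⟩ := Subtype.ext (hg2 t h)
    rw [this, Equiv.symm_apply_apply]
  have hind : ∀ I ⊆ N.E, (N.Indep I ↔ M.Indep (g' '' I)) := by
    intro I hI
    have e1 : (Subtype.val '' {t : N.E | (t : β) ∈ I} : Set β) = I := by
      ext t
      constructor
      · rintro ⟨s, hs, rfl⟩; exact hs
      · intro ht; exact ⟨⟨t, hI ht⟩, ht, rfl⟩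
    have e2 : (Subtype.val '' (e '' {t : N.E | (t : β) ∈ I}) : Set α) = g' '' I := by
      ext x
      constructor
      · rintro ⟨_, ⟨s, hs, rfl⟩, rfl⟩
        exact ⟨s, hs, hg2 s s.2⟩
      · rintro ⟨t, ht, rfl⟩
        exact ⟨e ⟨t, hI ht⟩, ⟨⟨t, hI ht⟩, ht, rfl⟩, (hg2 t (hI ht)).symm⟩
    have := he {t : N.E | (t : β) ∈ I}
    rwa [e1, e2] at this
  have himg : ∀ I ⊆ M.E, g' '' (g '' I) = I := by
    intro I hI
    rw [image_image]
    ext x
    constructor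
    · rintro ⟨s, hs, rfl⟩
      show g' (g s) ∈ I
      rw [gg' s (hI hs)]; exact hs
    · intro hx; exact ⟨x, hx, gg' x (hI hx)⟩
  have himg' : ∀ I ⊆ N.E, g '' (g' '' I) = I := by
    intro I hI
    rw [image_image]
    ext x
    constructor
    · rintro ⟨s, hs, rfl⟩
      show g (g' s) ∈ I
      rw [g'g s (hI hs)]; exact hs
    · intro hx; exact ⟨x, hx, g'g x (hI hx)⟩
  have sM : ∀ I ⊆ M.E, g '' I ⊆ N.E := by
    rintro I hI _ ⟨x, hx, rfl⟩; exact gE x (hI hx)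
  have sN : ∀ I ⊆ N.E, g' '' I ⊆ M.E := by
    rintro I hI _ ⟨x, hx, rfl⟩; exact g'E x (hI hx)
  have base1 : ∀ B, M.IsBase B → N.IsBase (g '' B) := by
    intro B hB
    have hBE := hB.subset_ground
    refine Matroid.Indep.isBase_of_maximal ?_ fun J hJ hBJ => ?_
    · rw [hind _ (sM _ hBE), himg _ hBE]
      exact hB.indep
    · have hJE := hJ.subset_ground
      have h1 : M.Indep (g' '' J) := (hind J hJE).1 hJ
      have h2 : B ⊆ g' '' J := by
        rw [← himg B hBE]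
        exact image_mono hBJ
      have h3 := hB.eq_of_subset_indep h1 h2
      rw [h3, himg' J hJE]
  have base2 : ∀ B, N.IsBase B → M.IsBase (g' '' B) := by
    intro B hB
    have hBE := hB.subset_ground
    refine Matroid.Indep.isBase_of_maximal ((hind B hBE).1 hB.indep) fun J hJ hBJ => ?_
    have hJE := hJ.subset_ground
    have h1 : N.Indep (g '' J) := by
      rw [hind _ (sM _ hJE), himg _ hJE]
      exact hJ
    have h2 : B ⊆ g '' J := by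
      rw [← himg' B hBE]
      exact image_mono hBJ
    have h3 := hB.eq_of_subset_indep h1 h2
    rw [h3, himg J hJE]
  intro B₁ B₂ h1 h2
  have hE1 := h1.subset_ground
  have hE2 := h2.subset_ground
  obtain ⟨φ, hφ1, hφ2⟩ := hN _ _ (base1 B₁ h1) (base1 B₂ h2)
  refine ⟨fun x => g' (φ (g x)), ⟨?_, ?_, ?_⟩, fun X hX => ?_⟩
  · intro x hx
    obtain ⟨z, hz, hzφ⟩ := hφ1.mapsTo (mem_image_of_mem g hx)
    show g' (φ (g x)) ∈ B₂
    rw [← hzφ, gg' z (hE2 hz)]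
    exact hz
  · intro x hx y hy hxy
    have m1 : φ (g x) ∈ N.E := sM _ hE2 (hφ1.mapsTo (mem_image_of_mem g hx))
    have m2 : φ (g y) ∈ N.E := sM _ hE2 (hφ1.mapsTo (mem_image_of_mem g hy))
    have hxy' : g' (φ (g x)) = g' (φ (g y)) := hxy
    have h3 : φ (g x) = φ (g y) := by rw [← g'g _ m1, hxy', g'g _ m2]
    have h4 := hφ1.injOn (mem_image_of_mem g hx) (mem_image_of_mem g hy) h3
    rw [← gg' x (hE1 hx), h4, gg' y (hE1 hy)]
  · intro z hz
    obtain ⟨u, ⟨x, hx, rfl⟩, hu⟩ := hφ1.surjOn (mem_image_of_mem g hz)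
    exact ⟨x, hx, by show g' (φ (g x)) = z; rw [hu, gg' z (hE2 hz)]⟩
  · have h3 := base2 _ (hφ2 (g '' X) (image_mono hX))
    have h4 : g' '' ((g '' B₁ \ g '' X) ∪ φ '' (g '' X)) =
        (B₁ \ X) ∪ (fun x => g' (φ (g x))) '' X := by
      rw [image_union, image_image, image_image]
      congr 1
      have hinj : InjOn g B₁ := by
        intro x hx y hy hxy
        rw [← gg' x (hE1 hx), hxy, gg' y (hE1 hy)]
      rw [← hinj.image_sdiff_subset hX, himg _ (sdiff_subset.trans hE1)]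
    rwa [h4] at h3

end Pool.Agent.Helper442.FE
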